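import Pool.Agent.Lib.MP_9c5702_nt.Q4.Defs

/-! Covering lemmas. -/

set_option autoImplicit false

namespace Pool.Agent.Lib.MP_9c5702_nt.Q4

theorem cov_mono {α : Type} {Z Z' : Set α} {r r' : α → α → Prop} {N N' : ℕ} (h : Cov Z r N)
    (hZ : ∀ P ∈ Z', P ∈ Z) (hr : ∀ P ∈ Z', ∀ P' ∈ Z', r P P' → r' P P') (hN : N ≤ N') :
    Cov Z' r' N' := by
  intro W K hW hK
  refine (h W K (fun P hP => hZ P (hW P hP)) fun W' hs hp => hK W' hs ?_).trans
    (Nat.mul_le_mul_right K hN)
  exact fun P hP P' hP' => hr P (hW P (hs hP)) P' (hW P' (hs hP')) (hp P hP P' hP')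

theorem cov_one {α : Type} {Z : Set α} {r : α → α → Prop} (h : ∀ P ∈ Z, ∀ P' ∈ Z, r P P') :
    Cov Z r 1 := by
  intro W K hW hK
  rw [one_mul]
  exact hK W subset_rfl fun P hP P' hP' => h P (hW P hP) P' (hW P' hP')

theorem cov_and {α : Type} {Z : Set α} {r r' : α → α → Prop} {N N' : ℕ} (h : Cov Z r N)
    (h' : Cov Z r' N') : Cov Z (fun P P' => r P P' ∧ r' P P') (N * N') := by
  intro W K hW hK
  rw [mul_assoc]
  refine h W (N' * K) hW fun W' hs hp => h' W' K (fun P hP => hW P (hs hP)) fun W'' hs' hp' => ?_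
  exact hK W'' (hs'.trans hs) fun P hP P' hP' => ⟨hp P (hs' hP) P' (hs' hP'), hp' P hP P' hP'⟩

/-- every point of `Z` lies in one of the sets `Zs t`, `t ∈ S` -/
theorem cov_union {α β : Type} {Z : Set α} {r : α → α → Prop} {N : ℕ} (S : Finset β)
    (Zs : β → Set α) (hZ : ∀ P ∈ Z, ∃ t ∈ S, P ∈ Zs t) (h : ∀ t ∈ S, Cov (Zs t) r N) :
    Cov Z r (S.card * N) := by
  classical
  intro W K hW hK
  have h1 : W ⊆ S.biUnion fun t => W.filter fun P => P ∈ Zs t := by
    intro P hP
    obtain ⟨t, ht, hP'⟩ := hZ P (hW P hP)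
    exact Finset.mem_biUnion.2 ⟨t, ht, Finset.mem_filter.2 ⟨hP, hP'⟩⟩
  refine (Finset.card_le_card h1).trans ?_
  rw [mul_assoc]
  refine Finset.card_biUnion_le_card_mul _ _ _ fun t ht => ?_
  exact h t ht _ K (fun P hP => (Finset.mem_filter.1 hP).2) fun W' hs hp =>
    hK W' (hs.trans (Finset.filter_subset _ _)) hp

theorem cov_label {α β : Type} {Z : Set α} {r : α → α → Prop} (S : Finset β) (f : α → β)
    (hf : ∀ P ∈ Z, f P ∈ S) (h : ∀ P ∈ Z, ∀ P' ∈ Z, f P = f P' → r P P') :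
    Cov Z r S.card := by
  have := cov_union (Z := Z) (r := r) (N := 1) S (fun t => {P | P ∈ Z ∧ f P = t})
    (fun P hP => ⟨f P, hf P hP, hP, rfl⟩)
    (fun t _ => cov_one fun P hP P' hP' => h P hP.1 P' hP'.1 (hP.2.trans hP'.2.symm))
  rwa [mul_one] at this

/-- an equivalence relation on `Z` without `N + 1` pairwise unrelated points -/
theorem cov_no {α : Type} {Z : Set α} {r : α → α → Prop} (N : ℕ) (hrefl : ∀ P ∈ Z, r P P)
    (heuc : ∀ P ∈ Z, ∀ Q ∈ Z, ∀ R ∈ Z, r P R → r Q R → r P Q)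
    (h : ∀ p : Fin (N + 1) → α, (∀ i, p i ∈ Z) → ∃ i j, i ≠ j ∧ r (p i) (p j)) :
    Cov Z r N := by
  classical
  induction N generalizing Z with
  | zero =>
    intro W K hW _
    rcases W.eq_empty_or_nonempty with rfl | ⟨P, hP⟩
    · simp
    · obtain ⟨i, j, hij, -⟩ := h (fun _ => P) fun _ => hW P hP
      exact absurd (Subsingleton.elim (α := Fin 1) i j) hij
  | succ N ih =>
    intro W K hW hK
    rcases W.eq_empty_or_nonempty with rfl | ⟨P0, hP0⟩
    · simp
    have hZ0 := hW P0 hP0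
    have h1 : (W.filter fun P => r P P0).card ≤ K :=
      hK _ (Finset.filter_subset _ _) fun P hP P' hP' =>
        heuc P (hW P (Finset.mem_filter.1 hP).1) P' (hW P' (Finset.mem_filter.1 hP').1) P0 hZ0
          (Finset.mem_filter.1 hP).2 (Finset.mem_filter.1 hP').2
    have h2 : Cov {P | P ∈ Z ∧ ¬ r P P0} r N := by
      refine ih (fun P hP => hrefl P hP.1)
        (fun P hP Q hQ R hR => heuc P hP.1 Q hQ.1 R hR.1) fun p hp => ?_
      obtain ⟨i, j, hij, hr⟩ := h (Fin.cons P0 p) fun i => by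
        refine Fin.cases ?_ (fun i => ?_) i
        · exact hZ0
        · exact (hp i).1
      revert hij hr
      refine Fin.cases ?_ (fun i => ?_) i <;> refine Fin.cases ?_ (fun j => ?_) j <;> intro hij hr
      · exact absurd rfl hij
      · exact absurd (heuc _ (hp j).1 P0 hZ0 _ (hp j).1 (hrefl _ (hp j).1) hr) (hp j).2
      · exact absurd hr (hp i).2
      · exact ⟨i, j, fun e => hij (by rw [e]), hr⟩
    have h3 := h2 (W.filter fun P => ¬ r P P0) K
      (fun P hP => ⟨hW P (Finset.mem_filter.1 hP).1, (Finset.mem_filter.1 hP).2⟩)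
      fun W' hs hp => hK W' (hs.trans (Finset.filter_subset _ _)) hp
    have h4 := Finset.card_filter_add_card_filter_not (s := W) fun P => r P P0
    rw [Nat.succ_mul]
    omega

theorem cov_prod {α : Type} {Z : Set α} (r : ℕ → α → α → Prop) (hr1 : ∀ P P', r 1 P P')
    (hmul : ∀ m m' : ℕ, Nat.Coprime m m' → ∀ P P', r m P P' → r m' P P' → r (m * m') P P')
    (S : Finset ℕ) (hS : ∀ p ∈ S, p.Prime) (β N : ℕ → ℕ)
    (h : ∀ p ∈ S, Cov Z (r (p ^ β p)) (N p)) :
    Cov Z (r (∏ p ∈ S, p ^ β p)) (∏ p ∈ S, N p) := by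
  induction S using Finset.induction_on with
  | empty => simpa using cov_one fun P _ P' _ => hr1 P P'
  | insert p S hp ih =>
    rw [Finset.prod_insert hp, Finset.prod_insert hp]
    have h1 := ih (fun q hq => hS q (Finset.mem_insert_of_mem hq))
      fun q hq => h q (Finset.mem_insert_of_mem hq)
    have hc : Nat.Coprime (p ^ β p) (∏ q ∈ S, q ^ β q) :=
      Nat.Coprime.prod_right fun q hq => Nat.Coprime.pow _ _
        ((Nat.coprime_primes (hS p (Finset.mem_insert_self _ _))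
          (hS q (Finset.mem_insert_of_mem hq))).2 fun e => hp (e ▸ hq))
    exact cov_mono (cov_and (h p (Finset.mem_insert_self _ _)) h1) (fun _ hP => hP)
      (fun P _ P' _ a => hmul _ _ hc P P' a.1 a.2) le_rfl

theorem omega_le (m : ℕ) (hm : m ≠ 0) : 2 ^ m.primeFactors.card ≤ m.divisors.card := by
  rw [Nat.card_divisors hm]
  refine Finset.pow_card_le_prod _ _ _ fun p hp => ?_
  have := (Nat.prime_of_mem_primeFactors hp).factorization_pos_of_dvd hm
    (Nat.dvd_of_mem_primeFactors hp)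
  omega

end Pool.Agent.Lib.MP_9c5702_nt.Q4
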