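import Pool.Agent.Lib.MP_9c5702_nt.Q4.Defs

/-! Auxiliary primes. -/

set_option autoImplicit false

namespace Pool.Agent.Lib.MP_9c5702_nt.Q4

theorem primes_list (L K : ℕ) (hL : 1 ≤ L) :
    ∃ S : Finset ℕ, S.card = K ∧ ∀ l ∈ S, l.Prime ∧ L < l ∧ l ≤ 2 ^ K * L := by
  induction K with
  | zero => exact ⟨∅, rfl, by simp⟩
  | succ K ih =>
    obtain ⟨S, hS, h⟩ := ih
    have hpos : 2 ^ K * L ≠ 0 := by positivity
    obtain ⟨p, hp, h1, h2⟩ := Nat.exists_prime_lt_and_le_two_mul (2 ^ K * L) hpos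
    have hn : p ∉ S := fun hm => by have := (h p hm).2.2; omega
    have hL2 : L ≤ 2 ^ K * L := Nat.le_mul_of_pos_left L (by positivity)
    have he : 2 ^ (K + 1) * L = 2 * (2 ^ K * L) := by ring
    refine ⟨insert p S, by rw [Finset.card_insert_of_notMem hn, hS], fun l hl => ?_⟩
    rcases Finset.mem_insert.1 hl with rfl | hl
    · exact ⟨hp, by omega, by omega⟩
    · obtain ⟨a, b, c⟩ := h l hl
      exact ⟨a, b, by omega⟩

theorem avoid (L K : ℕ) (S : Finset ℕ) (hK : S.card = K) (hS : ∀ l ∈ S, l.Prime ∧ L < l)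
    (R : ℤ) (hR : R ≠ 0) (hlt : |R| < ((L ^ K : ℕ) : ℤ)) : ∃ l ∈ S, ¬ (l : ℤ) ∣ R := by
  by_contra hc
  push Not at hc
  have h1 : (∏ l ∈ S, l) ∣ R.natAbs := by
    refine Finset.prod_primes_dvd _ (fun l hl => (hS l hl).1.prime) (fun l hl => ?_)
    exact Int.natCast_dvd.1 (hc l hl)
  have h2 : L ^ K ≤ ∏ l ∈ S, l := by
    rw [← hK]
    exact Finset.pow_card_le_prod S (fun l => l) L (fun l hl => (hS l hl).2.le)
  have h3 := Nat.le_of_dvd (Int.natAbs_pos.2 hR) h1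
  rw [Int.abs_eq_natAbs] at hlt
  have h4 : R.natAbs < L ^ K := by exact_mod_cast hlt
  omega

end Pool.Agent.Lib.MP_9c5702_nt.Q4
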