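import Pool.Agent.Lib.MP_9c5702_nt.Q4.Apx

/-! The chart at a smooth point of the curve modulo a prime. -/

set_option autoImplicit false

namespace Pool.Agent.Lib.MP_9c5702_nt.Q4

open MvPolynomial

lemma lchart_crs (p a b : V) (i : Fin 3) :
    crs p (crs a b) i = a i * dot p b - b i * dot p a := by
  fin_cases i <;> simp [dot] <;> ring

lemma lchart_dvd {m : ℤ} (p c : V) (h : ∀ k, m ∣ c k) (i : Fin 3) : m ∣ crs p c i := by
  have h0 := h 0
  have h1 := h 1
  have h2 := h 2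
  fin_cases i
  · exact dvd_sub (h2.mul_left _) (h1.mul_left _)
  · exact dvd_sub (h0.mul_left _) (h2.mul_left _)
  · exact dvd_sub (h1.mul_left _) (h0.mul_left _)

lemma lchart_dl (a b : V) (k : Fin 3) : dl a b (Pi.single k 1) = crs a b k := by
  fin_cases k <;> simp [dl, dot] <;> ring

theorem lchart (l : ℕ) (hl : l.Prime) (n : ℤ) (hn : ¬ (l : ℤ) ∣ 3 * n)
    (G : MvPolynomial (Fin 3) ℤ) (e : ℕ) (hG : G.IsHomogeneous e) (i : Fin 3) (W : Finset V)
    (hF : ∀ P ∈ W, F P = n) (h0 : ∀ P ∈ W, eval P G = 0)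
    (hd : ∀ P ∈ W, ¬ (l : ℤ) ∣ eval P (pderiv i G)) (hp : Pw (Cong (l : ℤ)) W) :
    AChart (l : ℤ) W := by
  intro N
  rcases W.eq_empty_or_nonempty with rfl | ⟨P0, hP0⟩
  · exact ⟨0, fun P hP => absurd hP (Finset.notMem_empty P),
      fun k => ⟨0, fun P hP => absurd hP (Finset.notMem_empty P)⟩⟩
  have hpr : Prime (l : ℤ) := Nat.prime_iff_prime_int.1 hl
  obtain ⟨A, hA⟩ : ∃ A : V, ∀ k, A k = 3 * P0 k ^ 2 := ⟨fun k => 3 * P0 k ^ 2, fun _ => rfl⟩
  obtain ⟨Bv, hB⟩ : ∃ Bv : V, ∀ k, Bv k = eval P0 (pderiv k G) :=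
    ⟨fun k => eval P0 (pderiv k G), fun _ => rfl⟩
  have e1 : dot P0 Bv = 0 := by
    have h := congrArg (eval P0) hG.sum_X_mul_pderiv
    rw [map_nsmul, h0 P0 hP0, nsmul_zero, map_sum, Fin.sum_univ_three] at h
    simp only [map_mul, eval_X] at h
    simpa only [dot, hB] using h
  have e2 : dot P0 A = 3 * n := by
    rw [← hF P0 hP0]
    simp only [dot, hA, F]
    ring
  obtain ⟨k0, hk0⟩ : ∃ k0, ¬ (l : ℤ) ∣ crs A Bv k0 := by
    by_contra hc
    have h := lchart_dvd P0 (crs A Bv) (fun k => not_not.1 fun h => hc ⟨k, h⟩) i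
    rw [lchart_crs, e1, e2, mul_zero, zero_sub, dvd_neg] at h
    rcases hpr.dvd_or_dvd h with h | h
    · exact hd P0 hP0 (hB i ▸ h)
    · exact hn h
  obtain ⟨c, hc⟩ : ∃ c : V, c = Pi.single k0 1 := ⟨_, rfl⟩
  have hco : IsCoprime (dl A Bv c) (l : ℤ) := by
    rw [hc, lchart_dl]
    exact ((hpr.irreducible.coprime_iff_not_dvd).2 hk0).symm
  obtain ⟨z, hz⟩ : ∃ z : V → V, ∀ P, z P = P - P0 := ⟨fun P => P - P0, fun _ => rfl⟩
  have hzk : ∀ P k, z P k = P k - P0 k := fun P k => by rw [hz, Pi.sub_apply]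
  have hdz : ∀ k, ∀ P ∈ W, (l : ℤ) ∣ z P k := fun k P hP => hzk P k ▸ hp P hP P0 hP0 k
  have key : ∀ m, 1 ≤ m → ∀ k, Apx (l : ℤ) m W (fun P => dot c (z P)) (fun _ => 0)
      (fun P => z P k) := by
    intro m hm
    induction m, hm using Nat.le_induction with
    | base => exact fun k => apx_of_dvd fun P hP => by rw [pow_one]; exact hdz k P hP
    | succ m hm ih =>
      intro k
      have s2 := fun j => (ih j).mul_succ hm (ih j) (hdz j) (hdz j)
      have s3 := fun j => (ih j).mul_succ hm ((ih j).mul (ih j)) (hdz j)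
        fun P hP => (hdz j P hP).mul_right _
      have a1 := ((apx_const 3).mul ((((apx_const (P0 0)).mul (s2 0)).add
        ((apx_const (P0 1)).mul (s2 1))).add ((apx_const (P0 2)).mul (s2 2)))).add
        (((s3 0).add (s3 1)).add (s3 2))
      have a2 := apx_taylor hm G P0 z ih fun P hP k => hdz k P hP
      have a3 := ((apx_u.mul (apx_const (crs A Bv k))).sub (a1.mul (apx_const (crs Bv c k)))).sub
        (a2.mul (apx_const (crs c A k)))
      refine Apx.cancel hco (a3.congr fun P hP => ?_)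
      have h4 : P0 + z P = P := by rw [hz, add_sub_cancel]
      have h5 : dot A (z P) = -(3 * (P0 0 * (z P 0 * z P 0) + P0 1 * (z P 1 * z P 1) +
          P0 2 * (z P 2 * z P 2)) + (z P 0 * (z P 0 * z P 0) + z P 1 * (z P 1 * z P 1) +
          z P 2 * (z P 2 * z P 2))) := by
        have f1 := hF P hP
        have f0 := hF P0 hP0
        simp only [dot, hA, hzk]
        unfold F at f1 f0
        linear_combination f1 - f0
      have h6 : ∑ j, eval P0 (pderiv j G) * z P j = dot Bv (z P) := by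
        rw [Fin.sum_univ_three]
        simp only [dot, hB]
      rw [cramer, h4, h5, h6, h0 P hP, h0 P0 hP0]
      refine (dvd_zero _).trans (dvd_of_eq (Eq.symm ?_))
      ring
  refine ⟨fun P => dot c (z P), fun P hP => dvd_add (dvd_add ((hdz 0 P hP).mul_left _)
    ((hdz 1 P hP).mul_left _)) ((hdz 2 P hP).mul_left _), fun k => ?_⟩
  refine ((apx_const (P0 k)).add ((key (N + 1) (by omega) k).mono (Nat.le_succ N))).congr
    fun P hP => ?_
  rw [hzk, add_sub_cancel, sub_self]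
  exact dvd_zero _

end Pool.Agent.Lib.MP_9c5702_nt.Q4
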