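import Pool.Agent.Lib.MP_9c5702_nt.Q4.Defs

/-! Functions that are polynomials in local coordinates modulo a power. -/

set_option autoImplicit false

namespace Pool.Agent.Lib.MP_9c5702_nt.Q4

open MvPolynomial

variable {α : Type} {π : ℤ} {m : ℕ} {W : Finset α} {u t f f' : α → ℤ}

theorem apx_mul_sub (a b c d : ℤ) : a * b - c * d = (a - c) * b + c * (b - d) := by ring

theorem apx_const (c : ℤ) : Apx π m W u t (fun _ => c) := by
  exact ⟨C c, fun P _ => by simp⟩

theorem apx_u : Apx π m W u t u := by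
  exact ⟨X 0, fun P _ => by simp⟩

theorem apx_t : Apx π m W u t t := by
  exact ⟨X 1, fun P _ => by simp⟩

theorem apx_of_dvd (h : ∀ P ∈ W, π ^ m ∣ f P) : Apx π m W u t f := by
  exact ⟨0, fun P hP => by simpa using h P hP⟩

theorem Apx.add (h : Apx π m W u t f) (h' : Apx π m W u t f') :
    Apx π m W u t (fun P => f P + f' P) := by
  obtain ⟨g, hg⟩ := h
  obtain ⟨g', hg'⟩ := h'
  refine ⟨g + g', fun P hP => ?_⟩
  rw [map_add, add_sub_add_comm]
  exact dvd_add (hg P hP) (hg' P hP)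

theorem Apx.sub (h : Apx π m W u t f) (h' : Apx π m W u t f') :
    Apx π m W u t (fun P => f P - f' P) := by
  obtain ⟨g, hg⟩ := h
  obtain ⟨g', hg'⟩ := h'
  refine ⟨g - g', fun P hP => ?_⟩
  rw [map_sub, sub_sub_sub_comm]
  exact dvd_sub (hg P hP) (hg' P hP)

theorem Apx.mul (h : Apx π m W u t f) (h' : Apx π m W u t f') :
    Apx π m W u t (fun P => f P * f' P) := by
  obtain ⟨g, hg⟩ := h
  obtain ⟨g', hg'⟩ := h'
  refine ⟨g * g', fun P hP => ?_⟩
  rw [map_mul, apx_mul_sub]
  exact dvd_add ((hg P hP).mul_right _) ((hg' P hP).mul_left _)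

theorem Apx.congr (h : Apx π m W u t f) (h' : ∀ P ∈ W, π ^ m ∣ f' P - f P) :
    Apx π m W u t f' := by
  obtain ⟨g, hg⟩ := h
  refine ⟨g, fun P hP => ?_⟩
  rw [← sub_add_sub_cancel _ (f P)]
  exact dvd_add (h' P hP) (hg P hP)

theorem Apx.mono {m' : ℕ} (h : Apx π m W u t f) (hm : m' ≤ m) : Apx π m' W u t f := by
  obtain ⟨g, hg⟩ := h
  exact ⟨g, fun P hP => (pow_dvd_pow π hm).trans (hg P hP)⟩

theorem Apx.cancel {Δ : ℤ} (hΔ : IsCoprime Δ π) (h : Apx π m W u t (fun P => Δ * f P)) :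
    Apx π m W u t f := by
  obtain ⟨x, y, hxy⟩ := hΔ.pow_right (n := m)
  refine ((apx_const x).mul h).congr fun P _ => ⟨y * f P, ?_⟩
  linear_combination (-f P) * hxy

theorem Apx.mul_succ (hm : 1 ≤ m) (h : Apx π m W u t f) (h' : Apx π m W u t f')
    (hd : ∀ P ∈ W, π ∣ f P) (hd' : ∀ P ∈ W, π ∣ f' P) :
    Apx π (m + 1) W u t (fun P => f P * f' P) := by
  obtain ⟨g, hg⟩ := h
  obtain ⟨g', hg'⟩ := h'
  refine ⟨g * g', fun P hP => ?_⟩
  have h1 : π ∣ eval ![u P, t P] g := by
    rw [← sub_sub_cancel (f P) (eval ![u P, t P] g)]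
    exact dvd_sub (hd P hP) ((dvd_pow_self π (by omega)).trans (hg P hP))
  rw [map_mul, apx_mul_sub]
  refine dvd_add ?_ ?_
  · rw [pow_succ]
    exact mul_dvd_mul (hg P hP) (hd' P hP)
  · rw [pow_succ']
    exact mul_dvd_mul h1 (hg' P hP)

theorem apx_eval (G : MvPolynomial (Fin 3) ℤ) (z : α → V)
    (hz : ∀ k, Apx π m W u t (fun P => z P k)) : Apx π m W u t (fun P => eval (z P) G) := by
  induction G using MvPolynomial.induction_on with
  | C c => simpa using apx_const c
  | add p q hp hq => simpa using hp.add hq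
  | mul_X p a hp => simpa using hp.mul (hz a)

theorem eval_cong (G : MvPolynomial (Fin 3) ℤ) (M : ℤ) (x y : V) (h : ∀ k, M ∣ x k - y k) :
    M ∣ eval x G - eval y G := by
  induction G using MvPolynomial.induction_on with
  | C c => simp
  | add p q hp hq =>
    rw [map_add, map_add, add_sub_add_comm]
    exact dvd_add hp hq
  | mul_X p a hp =>
    rw [map_mul, map_mul, eval_X, eval_X, apx_mul_sub]
    exact dvd_add (hp.mul_right _) ((h a).mul_left _)

theorem apx_taylor (hm : 1 ≤ m) (G : MvPolynomial (Fin 3) ℤ) (P0 : V) (z : α → V)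
    (hz : ∀ k, Apx π m W u t (fun P => z P k)) (hd : ∀ P ∈ W, ∀ k, π ∣ z P k) :
    Apx π (m + 1) W u t
      (fun P => eval (P0 + z P) G - eval P0 G - ∑ k, eval P0 (pderiv k G) * z P k) := by
  induction G using MvPolynomial.induction_on with
  | C c => exact apx_of_dvd fun P _ => by simp
  | add p q hp hq =>
    refine (hp.add hq).congr fun P _ => ⟨0, ?_⟩
    simp only [map_add, add_mul, Finset.sum_add_distrib]
    ring
  | mul_X p a hp =>
    have h1 : Apx π m W u t (fun P => eval (P0 + z P) p - eval P0 p) :=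
      (apx_eval p (fun P => P0 + z P) fun k => (apx_const (P0 k)).add (hz k)).sub (apx_const _)
    have h2 := (hz a).mul_succ hm h1 (fun P hP => hd P hP a) fun P hP =>
      eval_cong p π _ _ fun k => by simpa using hd P hP k
    refine (((apx_const (P0 a)).mul hp).add h2).congr fun P _ => ⟨0, ?_⟩
    have h3 : ∑ k, eval P0 (pderiv k (p * X a)) * z P k =
        P0 a * ∑ k, eval P0 (pderiv k p) * z P k + eval P0 p * z P a := by
      fin_cases a <;> simp [Fin.sum_univ_three, pderiv_X] <;> ring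
    rw [h3]
    simp only [map_mul, eval_X, Pi.add_apply]
    ring

end Pool.Agent.Lib.MP_9c5702_nt.Q4
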