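import Pool.Agent.Lib.MP_9c5702_nt.Q4.Cov
import Pool.Agent.Lib.MP_9c5702_nt.Q4.Apx

/-! Affine classes modulo a prime on a curve. -/

set_option autoImplicit false

namespace Pool.Agent.Lib.MP_9c5702_nt.Q4

open MvPolynomial

lemma LCov_smul {R : Type} [CommRing R] (G : MvPolynomial (Fin 3) R) (e : ℕ)
    (hG : G.IsHomogeneous e) (c : R) (x : Fin 3 → R) :
    eval (fun k => c * x k) G = c ^ e * eval x G := by
  rw [eval_eq', eval_eq', Finset.mul_sum]
  refine Finset.sum_congr rfl fun d hd => ?_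
  have h1 : ∑ k, d k = e := by
    have h2 := hG (mem_support_iff.mp hd)
    rw [← h2, Finsupp.weight_apply, Finsupp.sum_fintype _ _ (by simp)]
    simp
  simp only [mul_pow, Finset.prod_mul_distrib, Finset.prod_pow_eq_pow_sum, h1]
  ring

lemma LCov_zeros {K : Type} [Field K] [Fintype K] [DecidableEq K] (G : MvPolynomial (Fin 3) K)
    (hG0 : G ≠ 0) (e : ℕ) (hG : G.IsHomogeneous e) :
    (Finset.univ.filter (fun x : Fin 3 → K => eval x G = 0)).card ≤ e * Fintype.card K ^ 2 := by
  have h := schwartz_zippel_totalDegree hG0 (Finset.univ : Finset K)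
  rw [Fintype.piFinset_univ, Finset.card_univ] at h
  have hq : (0 : ℚ≥0) < (Fintype.card K : ℚ≥0) := by exact_mod_cast Fintype.card_pos
  rw [div_le_div_iff₀ (by positivity) hq] at h
  have hd : (G.totalDegree : ℚ≥0) ≤ e := by exact_mod_cast hG.totalDegree_le
  have h3 : ((Finset.univ.filter (fun x : Fin 3 → K => eval x G = 0)).card : ℚ≥0)
      * (Fintype.card K : ℚ≥0) ≤ ((e : ℚ≥0) * (Fintype.card K : ℚ≥0) ^ 2) * (Fintype.card K : ℚ≥0) := by
    refine h.trans ?_
    calc (G.totalDegree : ℚ≥0) * (Fintype.card K : ℚ≥0) ^ 3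
        ≤ (e : ℚ≥0) * (Fintype.card K : ℚ≥0) ^ 3 := by gcongr
      _ = _ := by ring
  have h4 := le_of_mul_le_mul_right h3 hq
  exact_mod_cast h4

lemma LCov_count {K : Type} [Field K] [Fintype K] [DecidableEq K] (G : MvPolynomial (Fin 3) K)
    (hG0 : G ≠ 0) (e : ℕ) (hG : G.IsHomogeneous e) (n : K) (hn : n ≠ 0) :
    (Finset.univ.filter (fun x : Fin 3 → K => x 0 ^ 3 + x 1 ^ 3 + x 2 ^ 3 = n ∧ eval x G = 0)).card
      ≤ 6 * e * Fintype.card K := by
  set S := Finset.univ.filter
    (fun x : Fin 3 → K => x 0 ^ 3 + x 1 ^ 3 + x 2 ^ 3 = n ∧ eval x G = 0) with hS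
  set Z := Finset.univ.filter (fun x : Fin 3 → K => eval x G = 0) with hZ
  have hz : Z.card ≤ e * Fintype.card K ^ 2 := LCov_zeros G hG0 e hG
  set U : Finset K := Finset.univ.erase 0 with hU
  have hUc : U.card + 1 = Fintype.card K := by
    rw [hU, Finset.card_erase_add_one (Finset.mem_univ _), Finset.card_univ]
  have hmain : (S ×ˢ U).card ≤ 3 * Z.card := by
    refine Finset.card_le_mul_card_image_of_maps_to
      (f := fun p : (Fin 3 → K) × K => fun k => p.2 * p.1 k) ?_ 3 ?_
    · intro p hp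
      rw [Finset.mem_product] at hp
      have h1 := (Finset.mem_filter.mp hp.1).2.2
      refine Finset.mem_filter.mpr ⟨Finset.mem_univ _, ?_⟩
      rw [LCov_smul G e hG, h1, mul_zero]
    · intro y _
      have hr := Polynomial.card_nthRoots 3 ((y 0 ^ 3 + y 1 ^ 3 + y 2 ^ 3) / n)
      refine le_trans ?_ (le_trans (Multiset.toFinset_card_le _) hr)
      refine Finset.card_le_card_of_injOn (fun p => p.2) ?_ ?_
      · intro p hp
        have hp' := Finset.mem_filter.mp (Finset.mem_coe.mp hp)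
        have hp1 := Finset.mem_product.mp hp'.1
        have h1 := (Finset.mem_filter.mp hp1.1).2.1
        have h2 := hp'.2
        refine Finset.mem_coe.mpr (Multiset.mem_toFinset.mpr ?_)
        rw [Polynomial.mem_nthRoots (by norm_num), eq_div_iff hn, ← h2, ← h1]
        ring
      · intro p hp q hq hpq
        have hp' := Finset.mem_filter.mp (Finset.mem_coe.mp hp)
        have hq' := Finset.mem_filter.mp (Finset.mem_coe.mp hq)
        have hp0 : p.2 ≠ 0 := Finset.ne_of_mem_erase (Finset.mem_product.mp hp'.1).2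
        have h12 : p.2 = q.2 := hpq
        refine Prod.ext (funext fun k => ?_) h12
        have h3 := congrFun (hp'.2.trans hq'.2.symm) k
        simp only [← h12] at h3
        exact mul_left_cancel₀ hp0 h3
  rw [Finset.card_product] at hmain
  have hq : 1 < Fintype.card K := Fintype.one_lt_card
  have h5 : S.card * Fintype.card K ≤ (6 * e * Fintype.card K) * Fintype.card K := by
    calc S.card * Fintype.card K ≤ S.card * (2 * U.card) := Nat.mul_le_mul_left _ (by omega)
      _ = 2 * (S.card * U.card) := by ring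
      _ ≤ 2 * (3 * (e * Fintype.card K ^ 2)) :=
          Nat.mul_le_mul_left _ (hmain.trans (Nat.mul_le_mul_left _ hz))
      _ = _ := by ring
  exact Nat.le_of_mul_le_mul_right h5 (by omega)

lemma LCov_cast (l : ℕ) (G : MvPolynomial (Fin 3) ℤ) (P : V) :
    eval (fun k => ((P k : ℤ) : ZMod l)) (map (Int.castRingHom (ZMod l)) G)
      = ((eval P G : ℤ) : ZMod l) := by
  rw [eval_map]
  exact (eval₂_comp_left (Int.castRingHom (ZMod l)) (RingHom.id ℤ) P G).symm

theorem lcov (l : ℕ) (hl : l.Prime) (n : ℤ) (hn : ¬ (l : ℤ) ∣ n) (G : MvPolynomial (Fin 3) ℤ)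
    (e : ℕ) (hG : G.IsHomogeneous e) (i : Fin 3) :
    Cov {P : V | F P = n ∧ eval P G = 0 ∧ ¬ (l : ℤ) ∣ eval P (pderiv i G)} (Cong (l : ℤ))
      (6 * e * l) := by
  classical
  have : Fact l.Prime := ⟨hl⟩
  by_cases h0 : map (Int.castRingHom (ZMod l)) G = 0
  · intro W K hW _
    have hW0 : W = ∅ := by
      refine Finset.eq_empty_of_forall_notMem fun P hP => ?_
      refine (hW P hP).2.2 ?_
      rw [← ZMod.intCast_zmod_eq_zero_iff_dvd, ← LCov_cast, ← pderiv_map, h0]
      simp
    rw [hW0]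
    simp
  · have hn' : ((n : ℤ) : ZMod l) ≠ 0 := fun h => hn ((ZMod.intCast_zmod_eq_zero_iff_dvd n l).mp h)
    have hc := LCov_count _ h0 e (hG.map (Int.castRingHom (ZMod l))) _ hn'
    rw [ZMod.card] at hc
    refine cov_mono (cov_label _ (fun P : V => fun k => ((P k : ℤ) : ZMod l)) ?_ ?_)
      (fun P hP => hP) (fun P _ P' _ h => h) hc
    · intro P hP
      refine Finset.mem_filter.mpr ⟨Finset.mem_univ _, ?_, ?_⟩
      · rw [← hP.1]
        simp [F]
      · rw [LCov_cast, hP.2.1]
        simp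
    · intro P _ P' _ h k
      exact (ZMod.intCast_eq_intCast_iff_dvd_sub (P' k) (P k) l).mp (congrFun h k).symm

end Pool.Agent.Lib.MP_9c5702_nt.Q4
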