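import Pool.Agent.Lib.MP_9c5702_nt.Q4.FormB
import Pool.Agent.Lib.MP_9c5702_nt.Q4.LChart
import Pool.Agent.Lib.MP_9c5702_nt.Q4.LCov
import Pool.Agent.Lib.MP_9c5702_nt.Q4.Primes

/-! Induction on the degree of the vanishing form. -/

set_option autoImplicit false

namespace Pool.Agent.Lib.MP_9c5702_nt.Q4

open MvPolynomial

theorem curve (n B D L K K0 Lm : ℕ) (S : Finset ℕ) (hK : S.card = K)
    (hS : ∀ l ∈ S, l.Prime ∧ L < l ∧ l ≤ Lm) (hn : 1 ≤ n) (hB : 1 ≤ B)
    (hL : 3 * n * Hd D B < L ^ K) (W : Finset V) (hW : ∀ P ∈ W, P ∈ Sol n B)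
    (hpl : ∀ l ∈ S, ¬ l ∣ n → ∀ W' : Finset V, W' ⊆ W → AChart (l : ℤ) W' → W'.card ≤ K0)
    (G : MvPolynomial (Fin 3) ℤ) (hG0 : G ≠ 0) (hG : G.IsHomogeneous D)
    (h0 : ∀ P ∈ W, eval P G = 0) : W.card ≤ D * (K * (6 * D * Lm * K0)) := by
  classical
  have key : ∀ e : ℕ, e ≤ D → ∀ W' : Finset V, W' ⊆ W → ∀ G : MvPolynomial (Fin 3) ℤ, G ≠ 0 →
      G.IsHomogeneous e → (∀ P ∈ W', eval P G = 0) →
      W'.card ≤ e * (K * (6 * D * Lm * K0)) := by
    intro e
    induction e with
    | zero =>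
      intro _ W' _ G hG0 hG h0
      have h1 : G = C (coeff 0 G) :=
        totalDegree_eq_zero_iff_eq_C.1 (Nat.le_zero.1 hG.totalDegree_le)
      have h2 : W' = ∅ := by
        refine Finset.eq_empty_of_forall_notMem fun P hP => hG0 ?_
        have h3 := h0 P hP
        rw [h1, eval_C] at h3
        rw [h1, h3, C_0]
      rw [h2, Finset.card_empty]
      exact Nat.zero_le _
    | succ e ih =>
      intro he W' hW' G hG0 hG h0
      obtain ⟨G', g0, g1, g2, g3⟩ := form_bdd (e + 1) D B he hB W' (fun P hP k => by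
        have := (hW P (hW' hP)).1 k
        rw [abs_of_pos this.1]
        exact this.2) G hG0 hG h0
      obtain ⟨i, hi⟩ : ∃ i, pderiv i G' ≠ 0 := by
        by_contra hc
        push Not at hc
        have h1 := g1.sum_X_mul_pderiv
        simp only [hc, mul_zero, Finset.sum_const_zero] at h1
        exact g0 ((smul_eq_zero_iff_right (Nat.succ_ne_zero e)).1 h1.symm)
      have h1 := ih (by omega) (W'.filter fun P => eval P (pderiv i G') = 0)
        ((Finset.filter_subset _ _).trans hW') _ hi g1.pderiv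
        fun P hP => (Finset.mem_filter.1 hP).2
      have h2 : (W'.filter fun P => ¬ eval P (pderiv i G') = 0) ⊆
          S.biUnion fun l => W'.filter fun P => ¬ (l : ℤ) ∣ 3 * n * eval P (pderiv i G') := by
        intro P hP
        obtain ⟨a1, a2⟩ := Finset.mem_filter.1 hP
        have hn0 : (0 : ℤ) < 3 * n := by positivity
        obtain ⟨l, hl, hl'⟩ := avoid L K S hK (fun l hl => ⟨(hS l hl).1, (hS l hl).2.1⟩)
          (3 * n * eval P (pderiv i G')) (mul_ne_zero hn0.ne' a2) (by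
            rw [abs_mul, abs_of_pos hn0]
            refine (mul_le_mul_of_nonneg_left (g3 i P a1) hn0.le).trans_lt ?_
            exact_mod_cast hL)
        exact Finset.mem_biUnion.2 ⟨l, hl, Finset.mem_filter.2 ⟨a1, hl'⟩⟩
      have h3 : ∀ l ∈ S, (W'.filter fun P => ¬ (l : ℤ) ∣ 3 * n * eval P (pderiv i G')).card ≤
          6 * D * Lm * K0 := by
        intro l hl
        obtain ⟨p1, -, p3⟩ := hS l hl
        rcases (W'.filter fun P => ¬ (l : ℤ) ∣ 3 * n * eval P (pderiv i G')).eq_empty_or_nonempty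
          with hE | ⟨P0, hP0⟩
        · rw [hE, Finset.card_empty]
          exact Nat.zero_le _
        have b1 : ¬ (l : ℤ) ∣ 3 * n := fun h => (Finset.mem_filter.1 hP0).2 (h.mul_right _)
        have b2 : ¬ (l : ℤ) ∣ n := fun h => b1 (h.mul_left _)
        have b3 : ¬ l ∣ n := fun h => b2 (Int.natCast_dvd_natCast.2 h)
        have b4 : ∀ P ∈ W'.filter fun P => ¬ (l : ℤ) ∣ 3 * n * eval P (pderiv i G'),
            P ∈ W ∧ F P = n ∧ eval P G' = 0 ∧ ¬ (l : ℤ) ∣ eval P (pderiv i G') := by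
          intro P hP
          obtain ⟨a1, a2⟩ := Finset.mem_filter.1 hP
          exact ⟨hW' a1, (hW P (hW' a1)).2.1, g2 P a1, fun h => a2 (h.mul_left _)⟩
        refine (lcov l p1 n b2 G' (e + 1) g1 i _ K0 (fun P hP => (b4 P hP).2)
          fun W'' h1 h2 => ?_).trans ?_
        · exact hpl l hl b3 W'' (fun P hP => (b4 P (h1 hP)).1)
            (lchart l p1 n b1 G' (e + 1) g1 i W'' (fun P hP => (b4 P (h1 hP)).2.1)
              (fun P hP => (b4 P (h1 hP)).2.2.1) (fun P hP => (b4 P (h1 hP)).2.2.2) h2)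
        · gcongr
      have h4 := (Finset.card_le_card h2).trans (Finset.card_biUnion_le_card_mul _ _ _ h3)
      have h5 := Finset.card_filter_add_card_filter_not (s := W')
        fun P => eval P (pderiv i G') = 0
      rw [hK] at h4
      rw [← h5, Nat.succ_mul]
      exact Nat.add_le_add h1 h4
  exact key D le_rfl W (Finset.Subset.refl _) G hG0 hG h0

end Pool.Agent.Lib.MP_9c5702_nt.Q4
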