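import Pool.Agent.Lib.MP_9c5702_nt.Q4.Defs

/-! Size of determinants and integer kernel vectors. -/

set_option autoImplicit false

namespace Pool.Agent.Lib.MP_9c5702_nt.Q4

theorem det_le_rows {ι : Type} [Fintype ι] [DecidableEq ι] (A : Matrix ι ι ℤ) (h : ι → ℕ)
    (hA : ∀ r i, |A r i| ≤ h r) :
    |A.det| ≤ ((Fintype.card ι ^ Fintype.card ι * ∏ r, h r : ℕ) : ℤ) := by
  rw [Matrix.det_apply']
  refine (Finset.abs_sum_le_sum_abs _ _).trans ?_
  have h1 : ∀ σ : Equiv.Perm ι, |((Equiv.Perm.sign σ : ℤ) : ℤ) * ∏ i, A (σ i) i| ≤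
      ((∏ r, h r : ℕ) : ℤ) := by
    intro σ
    have h2 : |((Equiv.Perm.sign σ : ℤ) : ℤ)| = 1 := by
      rcases Int.units_eq_one_or (Equiv.Perm.sign σ) with h | h <;> simp [h]
    rw [abs_mul, h2, one_mul, Finset.abs_prod, Nat.cast_prod,
      ← Equiv.prod_comp σ fun r => (h r : ℤ)]
    exact Finset.prod_le_prod (fun i _ => abs_nonneg _) fun i _ => hA _ _
  refine (Finset.sum_le_sum fun σ _ => h1 σ).trans ?_
  rw [Finset.sum_const, Finset.card_univ, Fintype.card_perm, nsmul_eq_mul, ← Nat.cast_mul]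
  exact Int.ofNat_le.2 (Nat.mul_le_mul_right _ (Nat.factorial_le_pow _))

theorem ker_master {α ι : Type} [Fintype ι] [DecidableEq ι] (W : Finset α) (a : α → ι → ℤ)
    (h : ∀ p : ι → α, (∀ i, p i ∈ W) → (Matrix.of fun r i => a (p i) r).det = 0) :
    ∃ c : ι → ℤ, c ≠ 0 ∧ (∀ P ∈ W, ∑ r, c r * a P r = 0) ∧
      ∀ H : ℕ, 1 ≤ H → (∀ P ∈ W, ∀ r, |a P r| ≤ H) →
        ∀ r, |c r| ≤ (((Fintype.card ι * H) ^ Fintype.card ι : ℕ) : ℤ) := by
  classical
  let G : Finset ι → Prop := fun S => ∃ M : Matrix ι ι ℤ, M.det ≠ 0 ∧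
    (∀ i ∈ S, ∃ P ∈ W, ∀ r, M r i = a P r) ∧ ∀ i ∉ S, ∀ r, M r i = (Pi.single i 1 : ι → ℤ) r
  have h0 : G ∅ := ⟨1, by simp, by simp, fun i _ r => by simp [Matrix.one_apply, Pi.single_apply]⟩
  obtain ⟨S, hS, hmax⟩ := Finset.exists_max_image (Finset.univ.filter G) Finset.card
    ⟨∅, Finset.mem_filter.2 ⟨Finset.mem_univ _, h0⟩⟩
  obtain ⟨M, hM, h1, h2⟩ := (Finset.mem_filter.1 hS).2
  by_cases hu : ∀ i, i ∈ S
  · choose p hp hq using fun i => h1 i (hu i)
    refine (hM ?_).elim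
    rw [← h p hp]
    congr 1
    ext r i
    exact hq i r
  obtain ⟨i, hi⟩ := not_forall.1 hu
  refine ⟨fun r => (M.updateCol i (Pi.single r 1)).det, fun hc => hM ?_, fun P hP => ?_,
    fun H hH ha r => ?_⟩
  · have h3 : (M.updateCol i (Pi.single i 1)).det = 0 := congrFun hc i
    have h4 : (Pi.single i 1 : ι → ℤ) = fun r => M r i := funext fun r => (h2 i hi r).symm
    rwa [h4, Matrix.updateCol_eq_self] at h3
  · have h3 : (M.updateCol i (a P)).det = 0 := by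
      by_contra hn
      have h4 : G (insert i S) := by
        refine ⟨_, hn, fun j hj => ?_, fun j hj r => ?_⟩
        · by_cases e : j = i
          · exact ⟨P, hP, fun r => by rw [e, Matrix.updateCol_self]⟩
          · obtain ⟨Q, hQ, hr⟩ := h1 j ((Finset.mem_insert.1 hj).resolve_left e)
            exact ⟨Q, hQ, fun r => by rw [Matrix.updateCol_ne e, hr]⟩
        · rw [Finset.mem_insert, not_or] at hj
          rw [Matrix.updateCol_ne hj.1, h2 j hj.2]
      have h5 := hmax _ (Finset.mem_filter.2 ⟨Finset.mem_univ _, h4⟩)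
      rw [Finset.card_insert_of_notMem hi] at h5
      omega
    have h4 : a P = ∑ r, a P r • (Pi.single r 1 : ι → ℤ) := by
      ext j
      simp [Finset.sum_apply, Pi.single_apply]
    rw [← Matrix.cramer_apply, h4, map_sum, Finset.sum_apply] at h3
    rw [← h3]
    refine Finset.sum_congr rfl fun r _ => ?_
    rw [map_smul, Pi.smul_apply, Matrix.cramer_apply, smul_eq_mul, mul_comm]
  · have h3 : ∀ j k : ι, |(Pi.single j 1 : ι → ℤ) k| ≤ (H : ℤ) := fun j k => by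
      rw [Pi.single_apply]
      split_ifs
      · simpa using hH
      · simp
    have h4 := det_le_rows (M.updateCol i (Pi.single r 1)) (fun _ => H) fun k j => by
      by_cases e : j = i
      · rw [e, Matrix.updateCol_self]
        exact h3 _ _
      · rw [Matrix.updateCol_ne e]
        by_cases hj : j ∈ S
        · obtain ⟨Q, hQ, hr⟩ := h1 j hj
          rw [hr]
          exact ha Q hQ k
        · rw [h2 j hj]
          exact h3 _ _
    rwa [Finset.prod_const, Finset.card_univ, ← mul_pow] at h4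

theorem ker_of_det {α ι : Type} [Fintype ι] [DecidableEq ι] [Nonempty ι] (W : Finset α)
    (a : α → ι → ℤ)
    (h : ∀ p : ι → α, (∀ i, p i ∈ W) → (Matrix.of fun r i => a (p i) r).det = 0) :
    ∃ c : ι → ℤ, c ≠ 0 ∧ ∀ P ∈ W, ∑ r, c r * a P r = 0 := by
  obtain ⟨c, h1, h2, -⟩ := ker_master W a h
  exact ⟨c, h1, h2⟩

theorem ker_bdd {α ι : Type} [Fintype ι] [DecidableEq ι] (W : Finset α) (a : α → ι → ℤ) (H : ℕ)
    (hH : 1 ≤ H) (ha : ∀ P ∈ W, ∀ r, |a P r| ≤ H) (c : ι → ℤ) (hc : c ≠ 0)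
    (h : ∀ P ∈ W, ∑ r, c r * a P r = 0) :
    ∃ c' : ι → ℤ, c' ≠ 0 ∧ (∀ P ∈ W, ∑ r, c' r * a P r = 0) ∧
      ∀ r, |c' r| ≤ (((Fintype.card ι * H) ^ Fintype.card ι : ℕ) : ℤ) := by
  obtain ⟨c', h1, h2, h3⟩ := ker_master W a fun p hp =>
    Matrix.exists_vecMul_eq_zero_iff.1 ⟨c, hc, funext fun i => h (p i) (hp i)⟩
  exact ⟨c', h1, h2, h3 H hH ha⟩

end Pool.Agent.Lib.MP_9c5702_nt.Q4
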