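import Pool.Agent.Lib.MP_9c5702_nt.Q4.Defs

/-! Sums of weights. -/

set_option autoImplicit false

namespace Pool.Agent.Lib.MP_9c5702_nt.Q4

private lemma Nb_eq (b k : ℕ) : Nb b k = ∑ j ∈ Finset.range k, (k - b * j) := by
  unfold Nb
  rw [Finset.card_filter, Finset.sum_product_right]
  refine Finset.sum_congr rfl fun j _ => ?_
  rw [← Finset.card_filter]
  have : (Finset.range k).filter (fun i => i + b * j < k) = Finset.range (k - b * j) := by
    ext i
    simp only [Finset.mem_filter, Finset.mem_range]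
    omega
  rw [this, Finset.card_range]

private lemma Nb_step (b k : ℕ) (hb : 1 ≤ b) : Nb b (k + b) = Nb b k + (k + b) := by
  obtain ⟨c, rfl⟩ : ∃ c, b = c + 1 := ⟨b - 1, by omega⟩
  rw [Nb_eq, Nb_eq, show k + (c + 1) = (k + c) + 1 by ring, Finset.sum_range_succ']
  simp only [mul_zero, Nat.sub_zero]
  congr 1
  have h1 : ∀ j, k + c + 1 - (c + 1) * (j + 1) = k - (c + 1) * j := by
    intro j
    have : (c + 1) * (j + 1) = (c + 1) * j + (c + 1) := by ring
    omega
  simp only [h1]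
  symm
  refine Finset.sum_subset (Finset.range_subset_range.2 (by omega)) fun j _ hj => ?_
  have : k ≤ j := by simpa using hj
  have : j ≤ (c + 1) * j := Nat.le_mul_of_pos_left j (by omega)
  omega

private lemma Nb4 (k : ℕ) : 8 * Nb 4 k ≤ (k + 2) ^ 2 := by
  induction k using Nat.strong_induction_on with
  | _ k ih =>
    by_cases h : k < 4
    · interval_cases k <;> decide
    · obtain ⟨m, rfl⟩ : ∃ m, k = m + 4 := ⟨k - 4, by omega⟩
      have := ih m (by omega)
      rw [Nb_step 4 m (by norm_num)]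
      nlinarith

private lemma Nb1 (k : ℕ) : 2 * Nb 1 k = k * (k + 1) := by
  induction k with
  | zero => decide
  | succ k ih => rw [Nb_step 1 k le_rfl]; nlinarith

private lemma sum4 (m : ℕ) :
    48 * ∑ k ∈ Finset.Icc 1 m, Nb 4 k ≤ (m + 2) * (m + 3) * (2 * m + 5) := by
  induction m with
  | zero => simp
  | succ m ih =>
    rw [Finset.sum_Icc_succ_top (by omega)]
    have := Nb4 (m + 1)
    nlinarith

private lemma sum1 (m : ℕ) : 6 * ∑ k ∈ Finset.Icc 1 m, Nb 1 k = m * (m + 1) * (m + 2) := by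
  induction m with
  | zero => simp
  | succ m ih =>
    rw [Finset.sum_Icc_succ_top (by omega)]
    have := Nb1 (m + 1)
    nlinarith

theorem w4 (D s : ℕ) (hs : 2 * s = (D + 1) * (D + 2)) :
    ∃ w : ℕ, 4 * D * s ≤ 3 * w + 4 * s ∧ w + ∑ k ∈ Finset.Icc 1 (2 * D), Nb 4 k ≤ 2 * D * s := by
  have h1 := sum4 (2 * D)
  set X := ∑ k ∈ Finset.Icc 1 (2 * D), Nb 4 k with hX
  have h2 : 3 * X ≤ (2 * D + 4) * s := by
    have : 16 * ((2 * D + 4) * s) = 16 * (D + 2) * ((D + 1) * (D + 2)) := by rw [← hs]; ring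
    nlinarith [Nat.zero_le D, Nat.zero_le (D * D), Nat.zero_le (D * D * D)]
  rcases Nat.eq_zero_or_pos D with rfl | hD
  · refine ⟨0, by omega, ?_⟩
    simp [hX]
  · have h3 : X ≤ 2 * D * s := by nlinarith [Nat.zero_le s, Nat.mul_le_mul_right s hD]
    refine ⟨2 * D * s - X, ?_, by omega⟩
    obtain ⟨w, hw⟩ := Nat.exists_eq_add_of_le h3
    rw [hw, Nat.add_sub_cancel_left]
    nlinarith

theorem w1 (D s : ℕ) (hs : 2 * s = (D + 1) * (D + 2)) :
    ∃ w : ℕ, 3 * w = 2 * D * s ∧ w + ∑ k ∈ Finset.Icc 1 D, Nb 1 k ≤ D * s := by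
  have h1 := sum1 D
  set X := ∑ k ∈ Finset.Icc 1 D, Nb 1 k
  have h2 : 3 * X = D * s := by
    have : 2 * (D * s) = D * ((D + 1) * (D + 2)) := by rw [← hs]; ring
    nlinarith
  exact ⟨2 * X, by nlinarith, by omega⟩

theorem wA (s : ℕ) : s * (s - 1) / 2 + ∑ k ∈ Finset.Icc 1 s, Nb (s + 1) k ≤ s * s := by
  have h1 : ∀ k ∈ Finset.Icc 1 s, Nb (s + 1) k = k := by
    intro k hk
    obtain ⟨h1, h2⟩ := Finset.mem_Icc.1 hk
    obtain ⟨m, rfl⟩ : ∃ m, k = m + 1 := ⟨k - 1, by omega⟩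
    rw [Nb_eq, Finset.sum_range_succ']
    have : ∑ j ∈ Finset.range m, (m + 1 - (s + 1) * (j + 1)) = 0 := by
      refine Finset.sum_eq_zero fun j _ => ?_
      have : s + 1 ≤ (s + 1) * (j + 1) := Nat.le_mul_of_pos_right _ (by omega)
      omega
    rw [this]
    simp
  rw [Finset.sum_congr rfl h1]
  have h2 : ∀ m : ℕ, 2 * ∑ k ∈ Finset.Icc 1 m, k = m * (m + 1) := by
    intro m
    induction m with
    | zero => simp
    | succ m ih => rw [Finset.sum_Icc_succ_top (by omega)]; nlinarith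
  have h3 := h2 s
  have h4 : 2 * (s * (s - 1) / 2) ≤ s * (s - 1) := Nat.mul_div_le _ _
  rcases Nat.eq_zero_or_pos s with rfl | hs
  · simp
  · obtain ⟨m, rfl⟩ : ∃ m, s = m + 1 := ⟨s - 1, by omega⟩
    simp only [Nat.add_sub_cancel] at h4 ⊢
    nlinarith

end Pool.Agent.Lib.MP_9c5702_nt.Q4
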