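import Pool.Agent.Lib.MP_9c5702_nt.Q4.Defs
import Pool.Agent.Lib.MP_9c5702_nt.Defs

/-! Reduction to primitive solutions. -/

set_option autoImplicit false

namespace Pool.Agent.Lib.MP_9c5702_nt.Q4

theorem red1 (d : ℕ) (hd : 1 ≤ d) : ∀ a q m : ℕ, 1 ≤ a → 1 ≤ q → a * q ^ 4 = d ^ 3 * m →
    ∃ a' q' : ℕ, 1 ≤ a' ∧ 1 ≤ q' ∧ m = a' * q' ^ 4 ∧ a' * q' ≤ a * q := by
  induction d using induction_on_primes with
  | zero => omega
  | one =>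
    intro a q m ha hq h
    exact ⟨a, q, ha, hq, by simpa using h.symm, le_rfl⟩
  | prime_mul p d hp ih =>
    intro a q m ha hq h
    have hd' : 1 ≤ d := Nat.pos_of_ne_zero fun h0 => by simp [h0] at hd
    have hp3 : 0 < p ^ 3 := pow_pos hp.pos 3
    by_cases hpq : p ∣ q
    · obtain ⟨q1, rfl⟩ := hpq
      have hq1 : 1 ≤ q1 := Nat.pos_of_ne_zero fun h0 => by simp [h0] at hq
      have h1 : a * p * q1 ^ 4 = d ^ 3 * m := by
        apply Nat.eq_of_mul_eq_mul_left hp3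
        calc p ^ 3 * (a * p * q1 ^ 4) = a * (p * q1) ^ 4 := by ring
          _ = (p * d) ^ 3 * m := h
          _ = p ^ 3 * (d ^ 3 * m) := by ring
      obtain ⟨a', q', h2, h3, h4, h5⟩ :=
        ih hd' (a * p) q1 m (Nat.mul_pos ha hp.pos) hq1 h1
      exact ⟨a', q', h2, h3, h4, h5.trans (le_of_eq (by ring))⟩
    · have hc : Nat.Coprime (p ^ 3) (q ^ 4) :=
        Nat.Coprime.pow 3 4 ((Nat.Prime.coprime_iff_not_dvd hp).2 hpq)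
      have hdv : p ^ 3 ∣ a * q ^ 4 := ⟨d ^ 3 * m, by rw [h]; ring⟩
      obtain ⟨a1, rfl⟩ := hc.dvd_of_dvd_mul_right hdv
      have ha1 : 1 ≤ a1 := Nat.pos_of_ne_zero fun h0 => by simp [h0] at ha
      have h1 : a1 * q ^ 4 = d ^ 3 * m := by
        apply Nat.eq_of_mul_eq_mul_left hp3
        calc p ^ 3 * (a1 * q ^ 4) = p ^ 3 * a1 * q ^ 4 := by ring
          _ = (p * d) ^ 3 * m := h
          _ = p ^ 3 * (d ^ 3 * m) := by ring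
      obtain ⟨a', q', h2, h3, h4, h5⟩ := ih hd' a1 q m ha1 hq h1
      exact ⟨a', q', h2, h3, h4,
        h5.trans (Nat.mul_le_mul_right q (Nat.le_mul_of_pos_left a1 hp3))⟩

theorem red2 (a q : ℕ) (ha : 1 ≤ a) (hq : 1 ≤ q) :
    ∃ a' q' : ℕ, 1 ≤ a' ∧ 1 ≤ q' ∧ a * q ^ 4 = a' * q' ^ 4 ∧ a' * q' ≤ 27 * (a * q) ∧
      (3 ∣ q' → 9 ∣ a') := by
  by_cases h3 : 3 ∣ q
  · obtain ⟨q1, rfl⟩ := h3
    exact ⟨81 * a, q1, by omega, by omega, by ring, le_of_eq (by ring),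
      fun _ => ⟨9 * a, by ring⟩⟩
  · exact ⟨a, q, ha, hq, rfl, by omega, fun h => absurd h h3⟩

lemma red_prim (x y z : ℕ) (h : Nat.gcd x (Nat.gcd y z) = 1) :
    Prim ![(x : ℤ), (y : ℤ), (z : ℤ)] := by
  have h1 := Nat.gcd_eq_gcd_ab x (Nat.gcd y z)
  have h2 := Nat.gcd_eq_gcd_ab y z
  rw [h, h2] at h1
  refine ⟨![Nat.gcdA x (Nat.gcd y z), Nat.gcdA y z * Nat.gcdB x (Nat.gcd y z),
    Nat.gcdB y z * Nat.gcdB x (Nat.gcd y z)], ?_⟩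
  simp only [dot, Matrix.cons_val_zero, Matrix.cons_val_one, Matrix.cons_val]
  push_cast at h1
  linear_combination -h1

lemma red_sol (m x y z : ℕ) (hx : 0 < x) (hy : 0 < y) (hz : 0 < z)
    (hm : x ^ 3 + y ^ 3 + z ^ 3 = m) (h : Nat.gcd x (Nat.gcd y z) = 1) :
    ![(x : ℤ), (y : ℤ), (z : ℤ)] ∈ Sol m (Nat.findGreatest (fun b => b ^ 3 ≤ m) m) := by
  have key : ∀ w : ℕ, w ^ 3 ≤ m → w ≤ Nat.findGreatest (fun b => b ^ 3 ≤ m) m := fun w hw =>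
    Nat.le_findGreatest ((Nat.le_self_pow (by norm_num) w).trans hw) hw
  refine ⟨fun k => ?_, ?_, red_prim x y z h⟩
  · have h1 := key x (by omega)
    have h2 := key y (by omega)
    have h3 := key z (by omega)
    fin_cases k
    · exact ⟨by simpa using hx, by simpa using h1⟩
    · exact ⟨by simpa using hy, by simpa using h2⟩
    · exact ⟨by simpa using hz, by simpa using h3⟩
  · simp only [F, Matrix.cons_val_zero, Matrix.cons_val_one, Matrix.cons_val]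
    exact_mod_cast hm

theorem red (n : ℕ) (hn : 1 ≤ n) (K : ℝ)
    (h : ∀ d m B : ℕ, 1 ≤ d → n = d ^ 3 * m → B ^ 3 ≤ m → ∀ W : Finset V,
      (∀ P ∈ W, P ∈ Sol m B) → (W.card : ℝ) ≤ K) :
    (r33 n : ℝ) ≤ (n.divisors.card : ℝ) * K := by
  classical
  have hK : 0 ≤ K := by
    simpa using h 1 n 0 le_rfl (by simp) (by simp) ∅ (by simp)
  unfold r33
  set S := ((Finset.Icc 1 n) ×ˢ (Finset.Icc 1 n) ×ˢ (Finset.Icc 1 n)).filter
    (fun p : ℕ × ℕ × ℕ => p.1 ^ 3 + p.2.1 ^ 3 + p.2.2 ^ 3 = n) with hS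
  have hmem : ∀ p ∈ S, 1 ≤ p.1 ∧ 1 ≤ p.2.1 ∧ 1 ≤ p.2.2 ∧ p.1 ^ 3 + p.2.1 ^ 3 + p.2.2 ^ 3 = n := by
    intro p hp
    simp only [hS, Finset.mem_filter, Finset.mem_product, Finset.mem_Icc] at hp
    exact ⟨hp.1.1.1, hp.1.2.1.1, hp.1.2.2.1, hp.2⟩
  have hdec : ∀ p ∈ S, ∀ d, Nat.gcd p.1 (Nat.gcd p.2.1 p.2.2) = d →
      1 ≤ d ∧ p.1 = d * (p.1 / d) ∧ p.2.1 = d * (p.2.1 / d) ∧ p.2.2 = d * (p.2.2 / d) := by
    intro p hp d hd
    obtain ⟨h1, _, _, _⟩ := hmem p hp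
    refine ⟨hd ▸ Nat.gcd_pos_of_pos_left _ h1, (Nat.mul_div_cancel' ?_).symm,
      (Nat.mul_div_cancel' ?_).symm, (Nat.mul_div_cancel' ?_).symm⟩
    · exact hd ▸ Nat.gcd_dvd_left _ _
    · exact hd ▸ (Nat.gcd_dvd_right _ _).trans (Nat.gcd_dvd_left _ _)
    · exact hd ▸ (Nat.gcd_dvd_right _ _).trans (Nat.gcd_dvd_right _ _)
  have hcube : ∀ p ∈ S, ∀ d, Nat.gcd p.1 (Nat.gcd p.2.1 p.2.2) = d →
      n = d ^ 3 * ((p.1 / d) ^ 3 + (p.2.1 / d) ^ 3 + (p.2.2 / d) ^ 3) := by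
    intro p hp d hd
    obtain ⟨_, e1, e2, e3⟩ := hdec p hp d hd
    obtain ⟨_, _, _, h4⟩ := hmem p hp
    calc n = p.1 ^ 3 + p.2.1 ^ 3 + p.2.2 ^ 3 := h4.symm
      _ = (d * (p.1 / d)) ^ 3 + (d * (p.2.1 / d)) ^ 3 + (d * (p.2.2 / d)) ^ 3 := by
        rw [← e1, ← e2, ← e3]
      _ = _ := by ring
  have hmaps : ∀ p ∈ S, Nat.gcd p.1 (Nat.gcd p.2.1 p.2.2) ∈ n.divisors := by
    intro p hp
    rw [Nat.mem_divisors]
    refine ⟨?_, by omega⟩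
    have := hcube p hp _ rfl
    exact (dvd_pow_self _ (by norm_num : (3 : ℕ) ≠ 0)).trans ⟨_, this⟩
  have hfib : ∀ d ∈ n.divisors,
      ((S.filter fun p => Nat.gcd p.1 (Nat.gcd p.2.1 p.2.2) = d).card : ℝ) ≤ K := by
    intro d _
    rcases (S.filter fun p => Nat.gcd p.1 (Nat.gcd p.2.1 p.2.2) = d).eq_empty_or_nonempty with
      h0 | ⟨p0, hp0⟩
    · rw [h0]; simpa using hK
    obtain ⟨hp0S, hp0d⟩ := Finset.mem_filter.1 hp0
    obtain ⟨hd1, -, -, -⟩ := hdec p0 hp0S d hp0d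
    obtain ⟨m, hm⟩ : ∃ m, n = d ^ 3 * m := ⟨_, hcube p0 hp0S d hp0d⟩
    have hd3 : 0 < d ^ 3 := pow_pos hd1 3
    have hinj : Set.InjOn
        (fun p : ℕ × ℕ × ℕ => (![((p.1 / d : ℕ) : ℤ), ((p.2.1 / d : ℕ) : ℤ), ((p.2.2 / d : ℕ) : ℤ)] : V))
        (S.filter fun p => Nat.gcd p.1 (Nat.gcd p.2.1 p.2.2) = d : Finset (ℕ × ℕ × ℕ)) := by
      intro p hp p' hp' hpp
      obtain ⟨hpS, hpd⟩ := Finset.mem_filter.1 (Finset.mem_coe.1 hp)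
      obtain ⟨hpS', hpd'⟩ := Finset.mem_filter.1 (Finset.mem_coe.1 hp')
      obtain ⟨_, e1, e2, e3⟩ := hdec p hpS d hpd
      obtain ⟨_, f1, f2, f3⟩ := hdec p' hpS' d hpd'
      have g1 : p.1 / d = p'.1 / d := Int.natCast_inj.1 (congrFun hpp 0)
      have g2 : p.2.1 / d = p'.2.1 / d := Int.natCast_inj.1 (congrFun hpp 1)
      have g3 : p.2.2 / d = p'.2.2 / d := Int.natCast_inj.1 (congrFun hpp 2)
      refine Prod.ext ?_ (Prod.ext ?_ ?_)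
      · rw [e1, f1, g1]
      · rw [e2, f2, g2]
      · rw [e3, f3, g3]
    rw [← Finset.card_image_of_injOn hinj]
    refine h d m (Nat.findGreatest (fun b => b ^ 3 ≤ m) m) hd1 hm
      (Nat.findGreatest_spec (P := fun b => b ^ 3 ≤ m) (Nat.zero_le m) (by simp)) _ ?_
    intro P hP
    obtain ⟨p, hp, rfl⟩ := Finset.mem_image.1 hP
    obtain ⟨hpS, hpd⟩ := Finset.mem_filter.1 hp
    obtain ⟨_, e1, e2, e3⟩ := hdec p hpS d hpd
    obtain ⟨h1, h2, h3, _⟩ := hmem p hpS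
    have pos : ∀ x y : ℕ, 1 ≤ x → x = d * y → 1 ≤ y := fun x y hx hxy =>
      Nat.pos_of_ne_zero fun h0 => by rw [h0] at hxy; omega
    refine red_sol m _ _ _ (pos _ _ h1 e1) (pos _ _ h2 e2) (pos _ _ h3 e3) ?_ ?_
    · exact Nat.eq_of_mul_eq_mul_left hd3 ((hcube p hpS d hpd).symm.trans hm)
    · apply Nat.eq_of_mul_eq_mul_left hd1
      rw [← Nat.gcd_mul_left, ← Nat.gcd_mul_left, ← e1, ← e2, ← e3, hpd, mul_one]
  rw [Finset.card_eq_sum_card_fiberwise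
    (f := fun p : ℕ × ℕ × ℕ => Nat.gcd p.1 (Nat.gcd p.2.1 p.2.2)) (s := S)
    (t := n.divisors) (fun p hp => hmaps p hp)]
  push_cast
  calc _ ≤ ∑ _d ∈ n.divisors, K := Finset.sum_le_sum hfib
    _ = _ := by rw [Finset.sum_const, nsmul_eq_mul]

end Pool.Agent.Lib.MP_9c5702_nt.Q4
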