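import Pool.Agent.Lib.MP_9c5702_nt.Q4.Defs

/-! Elimination between a cubic without polynomial root and a quadratic. -/

set_option autoImplicit false

namespace Pool.Agent.Lib.MP_9c5702_nt.Q4

open Polynomial

theorem alg_root (c : ℚ) (hc : c ≠ 0) (φ2 φ1 φ0 U U' : ℚ[X]) (hU : U' ≠ 0)
    (h : C c * U ^ 3 + φ2 * U ^ 2 * U' + φ1 * U * U' ^ 2 + φ0 * U' ^ 3 = 0) :
    ∃ N : ℚ[X], C c * N ^ 3 + φ2 * N ^ 2 + φ1 * N + φ0 = 0 := by
  obtain ⟨U1, V1, g, hco, rfl, rfl⟩ := UniqueFactorizationMonoid.exists_reduced_factors' U U' hU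
  have hg : g ≠ 0 := left_ne_zero_of_mul hU
  have hV : V1 ≠ 0 := right_ne_zero_of_mul hU
  have h1 : C c * U1 ^ 3 + φ2 * U1 ^ 2 * V1 + φ1 * U1 * V1 ^ 2 + φ0 * V1 ^ 3 = 0 := by
    refine mul_left_cancel₀ (pow_ne_zero 3 hg) ?_
    linear_combination h
  have h2 : V1 ∣ C c * U1 ^ 3 :=
    ⟨-(φ2 * U1 ^ 2 + φ1 * U1 * V1 + φ0 * V1 ^ 2), by linear_combination h1⟩
  have h3 : V1 ∣ C c := (hco.isCoprime.symm.pow_right (n := 3)).dvd_of_dvd_mul_right h2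
  have h4 : IsUnit V1 := isUnit_of_dvd_unit h3 (isUnit_C.2 (isUnit_iff_ne_zero.2 hc))
  obtain ⟨N, rfl⟩ := h4.dvd (a := U1)
  refine ⟨N, mul_left_cancel₀ (pow_ne_zero 3 hV) ?_⟩
  linear_combination h1

lemma alg_lin (c : ℚ) (hc : c ≠ 0) (φ2 φ1 φ0 : ℚ[X]) (h2 : φ2.natDegree ≤ 3)
    (h1 : φ1.natDegree ≤ 3) (h0 : φ0.natDegree ≤ 3)
    (hno : ∀ N : ℚ[X], C c * N ^ 3 + φ2 * N ^ 2 + φ1 * N + φ0 ≠ 0) (J : ℕ) (B0 B1 : ℚ[X])
    (hne : B0 ≠ 0 ∨ B1 ≠ 0) (d0 : B0.natDegree ≤ J) (d1 : B1.natDegree ≤ J) :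
    ∃ ρ : ℚ[X], ρ ≠ 0 ∧ ρ.natDegree ≤ 3 * J + 3 ∧ ∀ s t : ℚ,
      c * t ^ 3 + φ2.eval s * t ^ 2 + φ1.eval s * t + φ0.eval s = 0 →
      B0.eval s + B1.eval s * t = 0 → ρ.eval s = 0 := by
  by_cases hB : B1 = 0
  · refine ⟨B0, hne.resolve_right (not_not.2 hB), by omega, fun s t _ h => ?_⟩
    rw [hB, eval_zero, zero_mul, add_zero] at h
    exact h
  refine ⟨C c * (-B0) ^ 3 + φ2 * (-B0) ^ 2 * B1 + φ1 * (-B0) * B1 ^ 2 + φ0 * B1 ^ 3,
    fun h => ?_, ?_, fun s t h h' => ?_⟩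
  · obtain ⟨N, hN⟩ := alg_root c hc φ2 φ1 φ0 (-B0) B1 hB h
    exact hno N hN
  · have d0' : (-B0).natDegree ≤ J := by rwa [natDegree_neg]
    have hC : (C c).natDegree ≤ 3 := by rw [natDegree_C]; omega
    have e1 := natDegree_mul_le_of_le hC (natDegree_pow_le_of_le 3 d0')
    have e2 := natDegree_mul_le_of_le (natDegree_mul_le_of_le h2 (natDegree_pow_le_of_le 2 d0')) d1
    have e3 := natDegree_mul_le_of_le (natDegree_mul_le_of_le h1 d0') (natDegree_pow_le_of_le 2 d1)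
    have e4 := natDegree_mul_le_of_le h0 (natDegree_pow_le_of_le 3 d1)
    refine (natDegree_add_le_iff_left _ _ (by omega)).2 ?_
    refine (natDegree_add_le_iff_left _ _ (by omega)).2 ?_
    refine (natDegree_add_le_iff_left _ _ (by omega)).2 (by omega)
  · simp only [eval_add, eval_mul, eval_pow, eval_neg, eval_C]
    have h3 : -B0.eval s = B1.eval s * t := by linear_combination -h'
    rw [h3]
    linear_combination B1.eval s ^ 3 * h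

theorem alg_elim (c : ℚ) (hc : c ≠ 0) (φ2 φ1 φ0 : ℚ[X]) (h2 : φ2.natDegree ≤ 3)
    (h1 : φ1.natDegree ≤ 3) (h0 : φ0.natDegree ≤ 3)
    (hno : ∀ N : ℚ[X], C c * N ^ 3 + φ2 * N ^ 2 + φ1 * N + φ0 ≠ 0) (I : ℕ) (A0 A1 A2 : ℚ[X])
    (hne : A0 ≠ 0 ∨ A1 ≠ 0 ∨ A2 ≠ 0) (d0 : A0.natDegree ≤ I) (d1 : A1.natDegree ≤ I)
    (d2 : A2.natDegree ≤ I) :
    ∃ ρ : ℚ[X], ρ ≠ 0 ∧ ρ.natDegree ≤ 6 * I + 12 ∧ ∀ s t : ℚ,
      c * t ^ 3 + φ2.eval s * t ^ 2 + φ1.eval s * t + φ0.eval s = 0 →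
      A0.eval s + A1.eval s * t + A2.eval s * t ^ 2 = 0 → ρ.eval s = 0 := by
  by_cases hA : A2 = 0
  · obtain ⟨ρ, r1, r2, r3⟩ := alg_lin c hc φ2 φ1 φ0 h2 h1 h0 hno I A0 A1
      (by rcases hne with h | h | h; exacts [Or.inl h, Or.inr h, absurd hA h]) d0 d1
    refine ⟨ρ, r1, by omega, fun s t h h' => r3 s t h ?_⟩
    rwa [hA, eval_zero, zero_mul, add_zero] at h'
  have hC : (C c).natDegree ≤ 0 := (natDegree_C c).le
  have hCc : (C c : ℚ[X]) ≠ 0 := C_ne_zero.2 hc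
  obtain ⟨C0, hC0⟩ : ∃ C0, C0 = φ2 * A2 - C c * A1 := ⟨_, rfl⟩
  have dC : C0.natDegree ≤ I + 3 := by
    have e1 := natDegree_mul_le_of_le h2 d2
    have e2 := natDegree_mul_le_of_le hC d1
    rw [hC0]
    exact (natDegree_sub_le_iff_left (by omega)).2 (by omega)
  have dA := natDegree_pow_le_of_le 2 d2
  obtain ⟨ρ, r1, r2, r3⟩ := alg_lin c hc φ2 φ1 φ0 h2 h1 h0 hno (2 * I + 3)
    (φ0 * A2 ^ 2 - C0 * A0) (φ1 * A2 ^ 2 - C c * A0 * A2 - C0 * A1) (by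
      by_contra hcon
      rw [not_or, not_not, not_not] at hcon
      obtain ⟨N, hN⟩ := alg_root c hc φ2 φ1 φ0 (-C0) (C c * A2) (mul_ne_zero hCc hA) (by
        refine mul_left_cancel₀ (pow_ne_zero 2 hA) ?_
        linear_combination (C c * A2) ^ 3 * hcon.1 + (-C0) * (C c * A2) ^ 2 * hcon.2 -
          A2 * C0 ^ 2 * (C c * A2) * hC0)
      exact hno N hN)
    (by
      have e1 := natDegree_mul_le_of_le h0 dA
      have e2 := natDegree_mul_le_of_le dC d0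
      exact (natDegree_sub_le_iff_left (by omega)).2 (by omega))
    (by
      have e1 := natDegree_mul_le_of_le h1 dA
      have e2 := natDegree_mul_le_of_le (natDegree_mul_le_of_le hC d0) d2
      have e3 := natDegree_mul_le_of_le dC d1
      exact (natDegree_sub_le_iff_left (by omega)).2
        ((natDegree_sub_le_iff_left (by omega)).2 (by omega)))
  refine ⟨ρ, r1, by omega, fun s t h h' => r3 s t h ?_⟩
  simp only [hC0, eval_sub, eval_mul, eval_pow, eval_C]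
  linear_combination A2.eval s ^ 2 * h -
    (c * A2.eval s * t + (φ2.eval s * A2.eval s - c * A1.eval s)) * h'

end Pool.Agent.Lib.MP_9c5702_nt.Q4
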