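import Pool.Agent.Lib.MP_9c5702_nt.Q4.Apx
import Pool.Agent.Lib.MP_9c5702_nt.Q4.Det
import Pool.Agent.Lib.MP_9c5702_nt.Q4.Wts

/-! Determinants of forms and of affine functions at points of a chart. -/

set_option autoImplicit false

namespace Pool.Agent.Lib.MP_9c5702_nt.Q4

open MvPolynomial

lemma hom_eval_smul {D : ℕ} {G : MvPolynomial (Fin 3) ℤ} (hG : G.IsHomogeneous D) (c : ℤ)
    (x : V) : eval (fun k => c * x k) G = c ^ D * eval x G := by
  rw [eval_eq', eval_eq', Finset.mul_sum]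
  refine Finset.sum_congr rfl fun m hm => ?_
  have h1 : ∑ k, m k = D := by
    have h2 := hG (mem_support_iff.1 hm)
    rw [← h2, Finsupp.weight_apply, Finsupp.sum_fintype _ _ (by simp)]
    simp
  simp only [mul_pow, Finset.prod_mul_distrib, Finset.prod_pow_eq_pow_sum, h1]
  ring

theorem homdet {ι : Type} [Fintype ι] [DecidableEq ι] (π : ℤ) (b : ℕ) (hb : 1 ≤ b)
    (W : Finset V) (hC : Chart π b W) (D : ℕ) (G : ι → MvPolynomial (Fin 3) ℤ)
    (hG : ∀ r, (G r).IsHomogeneous D) (p : ι → V) (hp : ∀ i, p i ∈ W) (w τ : ℕ)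
    (hw : w + ∑ k ∈ Finset.Icc 1 τ, Nb b k ≤ τ * Fintype.card ι) :
    π ^ w ∣ (Matrix.of fun r i => eval (p i) (G r)).det := by
  obtain ⟨u, t, c, Pt, h1, h2⟩ := hC w
  choose g hg using fun r => apx_eval (G r) Pt h2
  refine det_dvd π b hb (fun i => u (p i)) (fun i => t (p i)) (fun i => c (p i) ^ D)
    (fun i => (h1 _ (hp i)).1) (fun i => (h1 _ (hp i)).2.1) w τ hw _ g fun r i => ?_
  have h3 := eval_cong (G r) (π ^ w) (p i) (fun k => c (p i) * Pt (p i) k) (h1 _ (hp i)).2.2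
  rw [hom_eval_smul (hG r)] at h3
  have h4 := dvd_add h3 ((hg r _ (hp i)).mul_left (c (p i) ^ D))
  rw [Matrix.of_apply]
  exact (dvd_of_eq rfl).trans (h4.trans (dvd_of_eq (by ring)))

theorem affdet {ι : Type} [Fintype ι] [DecidableEq ι] (π : ℤ) (W : Finset V) (hC : AChart π W)
    (f : ι → V → ℤ) (hf : ∀ r, PolyMod π W (f r)) (p : ι → V) (hp : ∀ i, p i ∈ W) :
    π ^ (Fintype.card ι * (Fintype.card ι - 1) / 2) ∣ (Matrix.of fun r i => f r (p i)).det := by
  obtain ⟨u, h1, h2⟩ := hC (Fintype.card ι * (Fintype.card ι - 1) / 2)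
  choose G hG using fun r => hf r (Fintype.card ι * (Fintype.card ι - 1) / 2)
  choose g hg using fun r => apx_eval (G r) (fun P => P) h2
  refine det_dvd π (Fintype.card ι + 1) (by omega) (fun i => u (p i)) (fun _ => 0) (fun _ => 1)
    (fun i => h1 _ (hp i)) (fun _ => dvd_zero _) _ (Fintype.card ι) (wA _) _ g fun r i => ?_
  have h4 := dvd_add (hG r _ (hp i)) (hg r _ (hp i))
  rw [Matrix.of_apply]
  exact h4.trans (dvd_of_eq (by ring))

theorem polyMod_const (π : ℤ) (W : Finset V) (c : ℤ) : PolyMod π W (fun _ => c) := by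
  exact fun N => ⟨C c, fun P _ => by simp⟩

theorem polyMod_coord (π : ℤ) (W : Finset V) (k : Fin 3) : PolyMod π W (fun P => P k) := by
  exact fun N => ⟨X k, fun P _ => by simp⟩

theorem PolyMod.mul {π : ℤ} {W : Finset V} {f f' : V → ℤ} (h : PolyMod π W f)
    (h' : PolyMod π W f') : PolyMod π W (fun P => f P * f' P) := by
  intro N
  obtain ⟨G, hG⟩ := h N
  obtain ⟨G', hG'⟩ := h' N
  refine ⟨G * G', fun P hP => ?_⟩
  have h1 := dvd_add ((hG P hP).mul_right (f' P)) ((hG' P hP).mul_left (eval P G))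
  rw [map_mul]
  exact h1.trans (dvd_of_eq (by ring))

theorem PolyMod.pow {π : ℤ} {W : Finset V} {f : V → ℤ} (h : PolyMod π W f) (e : ℕ) :
    PolyMod π W (fun P => f P ^ e) := by
  induction e with
  | zero => simpa using polyMod_const π W 1
  | succ e ih => simpa only [pow_succ] using ih.mul h

theorem polyMod_lin (π : ℤ) (W : Finset V) (φ : V) (M c1 : ℤ) (hM : IsCoprime M π) (s : V → ℤ)
    (hs : ∀ P ∈ W, dot φ P = M * s P + c1) : PolyMod π W s := by
  intro N
  obtain ⟨x, y, hxy⟩ := hM.pow_right (n := N)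
  refine ⟨C x * (C (φ 0) * X 0 + C (φ 1) * X 1 + C (φ 2) * X 2 - C c1), fun P hP => ?_⟩
  have h1 := hs P hP
  unfold dot at h1
  refine ⟨y * s P, ?_⟩
  simp only [map_mul, map_sub, map_add, eval_C, eval_X]
  linear_combination (-x) * h1 - s P * hxy

end Pool.Agent.Lib.MP_9c5702_nt.Q4
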