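import Pool.Agent.Lib.MP_9c5702_nt.Q4.BPar
import Pool.Agent.Lib.MP_9c5702_nt.Q4.Hom
import Pool.Agent.Lib.MP_9c5702_nt.Q4.Ker

/-! A relation of small degree between two functions on a class of a curve. -/

set_option autoImplicit false

namespace Pool.Agent.Lib.MP_9c5702_nt.Q4

theorem bp_rel (κ J Y B l : ℕ) (hJ : J = 2 ∨ J = 3) (hY : (6 * κ + 3) ^ 4 < Y) (hB1 : 1 ≤ B)
    (hB : B ≤ Y ^ κ) (hYl : Y ≤ l ^ J) (W : Finset V) (hC : AChart (l : ℤ) W) (s t : V → ℤ)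
    (hs : PolyMod (l : ℤ) W s) (ht : PolyMod (l : ℤ) W t)
    (hsl : ∀ P ∈ W, |s P| * Y ≤ (l : ℤ) ^ J) (htB : ∀ P ∈ W, |t P| ≤ B) :
    ∃ A : Fin J → Polynomial ℤ, (∃ j, A j ≠ 0) ∧ (∀ j, (A j).natDegree ≤ 2 * κ + 1) ∧
      ∀ P ∈ W, ∑ j, (A j).eval (s P) * t P ^ (j : ℕ) = 0 := by
  have hY1 : 1 ≤ Y := by omega
  obtain ⟨I, hI⟩ : ∃ I, I = 2 * κ + 1 := ⟨_, rfl⟩
  obtain ⟨S, hS⟩ : ∃ S, S = l ^ J / Y := ⟨_, rfl⟩
  have hS1 : 1 ≤ S := hS ▸ (Nat.le_div_iff_mul_le hY1).2 (by omega)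
  have hSY : S * Y ≤ l ^ J := hS ▸ Nat.div_mul_le_self _ _
  have hsS : ∀ P ∈ W, |s P| ≤ S := fun P hP => by
    have h1 : (s P).natAbs * Y ≤ l ^ J := by
      have := hsl P hP
      rw [← Int.natCast_natAbs] at this
      exact_mod_cast this
    rw [← Int.natCast_natAbs, hS]
    exact_mod_cast (Nat.le_div_iff_mul_le hY1).2 h1
  have : Nonempty (Fin I × Fin J) := ⟨(⟨0, by omega⟩, ⟨0, by omega⟩)⟩
  have hcard : Fintype.card (Fin I × Fin J) = I * J := by simp
  obtain ⟨c, hc, hz⟩ := ker_of_det (ι := Fin I × Fin J) W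
    (fun P r => s P ^ (r.1 : ℕ) * t P ^ (r.2 : ℕ)) fun p hp => by
      have h1 := affdet (ι := Fin I × Fin J) (l : ℤ) W hC
        (fun r P => s P ^ (r.1 : ℕ) * t P ^ (r.2 : ℕ)) (fun r => (hs.pow _).mul (ht.pow _)) p hp
      have h2 := det_le_rows (Matrix.of fun (r i : Fin I × Fin J) =>
        s (p i) ^ (r.1 : ℕ) * t (p i) ^ (r.2 : ℕ)) (fun r => S ^ (r.1 : ℕ) * B ^ (r.2 : ℕ))
        fun r i => by
          rw [Matrix.of_apply, abs_mul, abs_pow, abs_pow]
          push_cast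
          exact mul_le_mul (pow_le_pow_left₀ (abs_nonneg _) (hsS _ (hp i)) _)
            (pow_le_pow_left₀ (abs_nonneg _) (htB _ (hp i)) _) (by positivity) (by positivity)
      refine Int.eq_zero_of_abs_lt_dvd h1 (h2.trans_lt ?_)
      rw [hcard]
      have e1 : (∏ r : Fin I × Fin J, S ^ (r.1 : ℕ) * B ^ (r.2 : ℕ)) ^ 2 =
          S ^ (J * (I * (I - 1))) * B ^ (I * (J * (J - 1))) := by
        rw [Finset.prod_mul_distrib, Finset.prod_pow_eq_pow_sum, Finset.prod_pow_eq_pow_sum,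
          mul_pow, ← pow_mul, ← pow_mul, Fintype.sum_prod_type, Fintype.sum_prod_type,
          ← Finset.sum_range_id_mul_two, ← Finset.sum_range_id_mul_two,
          Finset.sum_range, Finset.sum_range]
        simp only [Finset.sum_const, Finset.card_univ, Fintype.card_fin, smul_eq_mul,
          ← Finset.mul_sum, mul_assoc]
      have e2 : I * J * (I * J - 1) / 2 * 2 = I * J * (I * J - 1) :=
        Nat.div_mul_cancel (Nat.even_mul_pred_self _).two_dvd
      have h3 := bp_param κ I J Y S B l hI hJ hY hB hS1 hSY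
      rw [mul_assoc, ← e1, mul_comm 2, pow_mul, ← mul_pow, ← e2, pow_mul l] at h3
      exact_mod_cast lt_of_pow_lt_pow_left₀ 2 (Nat.zero_le _) h3
  refine ⟨fun j => ∑ i : Fin I, Polynomial.monomial i (c (i, j)), ?_, fun j => ?_,
    fun P hP => ?_⟩
  · obtain ⟨⟨i, j⟩, hij⟩ := Function.ne_iff.1 hc
    refine ⟨j, fun h => hij ?_⟩
    have := congrArg (fun q : Polynomial ℤ => q.coeff i) h
    simpa [Polynomial.finsetSum_coeff, Polynomial.coeff_monomial, Fin.val_inj] using this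
  · exact Polynomial.natDegree_sum_le_of_forall_le _ _ fun i _ =>
      (Polynomial.natDegree_monomial_le _).trans (by have := i.2; omega)
  · rw [← hz P hP, Fintype.sum_prod_type_right]
    refine Finset.sum_congr rfl fun j _ => ?_
    simp only [Polynomial.eval_finsetSum, Polynomial.eval_monomial, Finset.sum_mul, mul_assoc]

end Pool.Agent.Lib.MP_9c5702_nt.Q4
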