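import Pool.Agent.Lib.MP_9c5702_nt.Q4.Defs

/-! The numerical inequality of the determinant method for plane curves. -/

set_option autoImplicit false

namespace Pool.Agent.Lib.MP_9c5702_nt.Q4

theorem bp_param (κ I J Y S B l : ℕ) (hI : I = 2 * κ + 1) (hJ : J = 2 ∨ J = 3)
    (hY : (6 * κ + 3) ^ 4 < Y) (hB : B ≤ Y ^ κ) (hS : 1 ≤ S) (hl : S * Y ≤ l ^ J) :
    (I * J) ^ (2 * (I * J)) * S ^ (J * (I * (I - 1))) * B ^ (I * (J * (J - 1))) <
      l ^ ((I * J) * (I * J - 1)) := by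
  have hY1 : 1 ≤ Y := by omega
  have hI1 : 1 ≤ I := by omega
  have key : (I * J) ^ (2 * J) * (Y ^ κ) ^ (J * (J - 1)) < Y ^ (I * J - 1) := by
    have hYp : ∀ e : ℕ, 0 < Y ^ e := fun e => Nat.pow_pos hY1
    rcases hJ with rfl | rfl
    · have h1 : (I * 2) ^ 4 < Y :=
        lt_of_le_of_lt (Nat.pow_le_pow_left (by omega) 4) hY
      have h2 : I * 2 - 1 = 4 * κ + 1 := by omega
      rw [h2]
      calc (I * 2) ^ (2 * 2) * (Y ^ κ) ^ (2 * (2 - 1)) = (I * 2) ^ 4 * Y ^ (2 * κ) := by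
            rw [← pow_mul]; norm_num [mul_comm]
        _ < Y * Y ^ (2 * κ) := Nat.mul_lt_mul_of_pos_right h1 (hYp _)
        _ = Y ^ (2 * κ + 1) := by ring
        _ ≤ Y ^ (4 * κ + 1) := Nat.pow_le_pow_right hY1 (by omega)
    · have h0 : I * 3 = 6 * κ + 3 := by omega
      have h2 : I * 3 - 1 = 6 * κ + 2 := by omega
      have h1 : (6 * κ + 3) ^ 6 < Y ^ 2 := by
        calc (6 * κ + 3) ^ 6 ≤ (6 * κ + 3) ^ 8 := Nat.pow_le_pow_right (by omega) (by norm_num)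
          _ = ((6 * κ + 3) ^ 4) ^ 2 := by ring
          _ < Y ^ 2 := Nat.pow_lt_pow_left hY (by norm_num)
      rw [h2, h0]
      calc (6 * κ + 3) ^ (2 * 3) * (Y ^ κ) ^ (3 * (3 - 1)) = (6 * κ + 3) ^ 6 * Y ^ (6 * κ) := by
            rw [← pow_mul]; norm_num [mul_comm]
        _ < Y ^ 2 * Y ^ (6 * κ) := Nat.mul_lt_mul_of_pos_right h1 (hYp _)
        _ = Y ^ (6 * κ + 2) := by ring
  have hJ1 : 1 ≤ J := by omega
  have hexp : J * (I * (I - 1)) ≤ I * (I * J - 1) := by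
    have h1 : J * (I - 1) ≤ I * J - 1 := by
      obtain ⟨I', rfl⟩ : ∃ I', I = I' + 1 := ⟨I - 1, by omega⟩
      simp only [Nat.add_sub_cancel]
      have : (I' + 1) * J = J * I' + J := by ring
      omega
    calc J * (I * (I - 1)) = I * (J * (I - 1)) := by ring
      _ ≤ I * (I * J - 1) := Nat.mul_le_mul_left _ h1
  have hSp : 0 < S ^ (I * (I * J - 1)) := Nat.pow_pos hS
  calc (I * J) ^ (2 * (I * J)) * S ^ (J * (I * (I - 1))) * B ^ (I * (J * (J - 1)))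
      ≤ (I * J) ^ (2 * (I * J)) * S ^ (I * (I * J - 1)) * (Y ^ κ) ^ (I * (J * (J - 1))) :=
        Nat.mul_le_mul (Nat.mul_le_mul_left _ (Nat.pow_le_pow_right hS hexp))
          (Nat.pow_le_pow_left hB _)
    _ = ((I * J) ^ (2 * J) * (Y ^ κ) ^ (J * (J - 1))) ^ I * S ^ (I * (I * J - 1)) := by
        rw [mul_pow ((I * J) ^ (2 * J)), ← pow_mul (I * J), ← pow_mul (Y ^ κ),
          show 2 * J * I = 2 * (I * J) by ring, show J * (J - 1) * I = I * (J * (J - 1)) by ring]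
        ring
    _ < (Y ^ (I * J - 1)) ^ I * S ^ (I * (I * J - 1)) :=
        Nat.mul_lt_mul_of_pos_right (Nat.pow_lt_pow_left key (by omega)) hSp
    _ = (S * Y) ^ (I * (I * J - 1)) := by
        rw [← pow_mul, mul_pow, mul_comm (I * J - 1) I, mul_comm]
    _ ≤ (l ^ J) ^ (I * (I * J - 1)) := Nat.pow_le_pow_left hl _
    _ = l ^ (I * J * (I * J - 1)) := by
        rw [← pow_mul]; congr 1; ring

end Pool.Agent.Lib.MP_9c5702_nt.Q4
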