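import Pool.Agent.Lib.MP_9c5702_nt.Q4.Vec

/-! Two solutions are either very close or no closer than the discriminant allows. -/

set_option autoImplicit false

namespace Pool.Agent.Lib.MP_9c5702_nt.Q4

lemma disc_val {p : ℕ} [Fact p.Prime] {a : ℤ} {k : ℕ} (h : ¬ (p : ℤ) ^ (k + 1) ∣ a) :
    a ≠ 0 ∧ padicValInt p a ≤ k := by
  rw [padicValInt_dvd_iff, not_or, not_le] at h
  exact ⟨h.1, by omega⟩

theorem disc_step (ψ w : V) (hw : dot w ψ = 1) (n : ℤ) (p α δ γ d : ℕ) (hp : p.Prime)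
    (hn : (p : ℤ) ^ α ∣ n) (hδ : ¬ (p : ℤ) ^ (δ + 1) ∣ Dd ψ) (hδα : δ < α)
    (hγ : ¬ (p : ℤ) ^ (γ + 1) ∣ 6) (P P' : V) (hP : P ∈ ZL ψ n) (hP' : P' ∈ ZL ψ n)
    (hd1 : (p : ℤ) ^ d ∣ dl w P P') (hd2 : ¬ (p : ℤ) ^ (d + 1) ∣ dl w P P') :
    α ≤ d + γ + δ ∨ 2 * d ≤ 2 * γ + δ := by
  have : Fact p.Prime := ⟨hp⟩
  have hπ : Prime (p : ℤ) := Nat.prime_iff_prime_int.1 hp
  obtain ⟨hP0, hPn, e, he⟩ := hP
  obtain ⟨hP0', hPn', e', he'⟩ := hP'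
  have hb := fun k => basis_L ψ w P e P' hw he hP0 hP0' k
  obtain ⟨Q, hQ⟩ : ∃ Q, Q = crs ψ e := ⟨_, rfl⟩
  obtain ⟨s, hs⟩ : ∃ s, s = dot e P' := ⟨_, rfl⟩
  obtain ⟨t, ht⟩ : ∃ t, t = dl w P P' := ⟨_, rfl⟩
  obtain ⟨b, hb'⟩ : ∃ b, b = P 0 ^ 2 * Q 0 + P 1 ^ 2 * Q 1 + P 2 ^ 2 * Q 2 := ⟨_, rfl⟩
  obtain ⟨c, hc⟩ : ∃ c, c = P 0 * Q 0 ^ 2 + P 1 * Q 1 ^ 2 + P 2 * Q 2 ^ 2 := ⟨_, rfl⟩
  have hD := dd_crs P Q n b c (F Q) hPn.symm hb' hc rfl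
  rw [hQ, (basis_crs ψ P e he hP0).1, ← hQ] at hD
  rw [← hQ, ← hs, ← ht] at hb
  rw [← ht] at hd1 hd2
  have h1 : ¬ (p : ℤ) ^ (δ + 1) ∣ b * b := fun h => hδ (by
    have h2 : Dd ψ = b * b * (4 * b * F Q - 3 * c ^ 2) +
        n * (4 * c ^ 3 + n * F Q ^ 2 - 6 * b * c * F Q) := by rw [hD]; ring
    rw [h2]
    exact dvd_add (h.mul_right _) (((pow_dvd_pow _ hδα).trans hn).mul_right _))
  obtain ⟨b0, b1⟩ := disc_val h1
  have b2 : b ≠ 0 := left_ne_zero_of_mul b0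
  rw [padicValInt.mul b2 b2] at b1
  obtain ⟨g0, g1⟩ := disc_val (a := 3) (k := γ) fun h => hγ (h.trans (by norm_num))
  have g2 := padicValInt.mul (p := p) g0 b2
  obtain ⟨t0, t1⟩ := disc_val hd2
  rcases le_or_gt d (padicValInt p (3 * b)) with h | h
  · right; omega
  left
  have h3 : (p : ℤ) ^ (padicValInt p (3 * b) + 1) ∣ t := (pow_dvd_pow _ h).trans hd1
  have h4 : ¬ (p : ℤ) ∣ s := fun h' => hπ.not_dvd_one (by
    have h5 : (1 : ℤ) = s * dot e' P + t * dot e' Q := by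
      rw [← he']
      simp only [dot, hb]
      ring
    rw [h5]
    exact dvd_add (h'.mul_right _)
      (((dvd_pow_self _ (Nat.succ_ne_zero _)).trans h3).mul_right _))
  have h5 : ¬ (p : ℤ) ^ (padicValInt p (3 * b) + 1) ∣
      3 * b * s ^ 2 + t * (3 * c * s + F Q * t) := fun h' => by
    have h6 := (dvd_add_left (h3.mul_right _)).1 h'
    have h7 := hπ.pow_dvd_of_dvd_mul_right _ (fun h8 => h4 (hπ.dvd_of_dvd_pow h8)) h6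
    rw [padicValInt_dvd_iff] at h7
    rcases h7 with h7 | h7
    · exact mul_ne_zero g0 b2 h7
    · omega
  obtain ⟨q0, q1⟩ := disc_val h5
  have h6 : t * (3 * b * s ^ 2 + t * (3 * c * s + F Q * t)) = n * (1 - s ^ 3) := by
    have h7 : F P' = s ^ 3 * F P + t * (3 * b * s ^ 2 + t * (3 * c * s + F Q * t)) := by
      simp only [F, hb, hb', hc]
      ring
    rw [hPn, hPn'] at h7
    linarith
  have h7 := hn.mul_right (1 - s ^ 3)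
  rw [← h6, padicValInt_dvd_iff, padicValInt.mul t0 q0] at h7
  rcases h7 with h7 | h7
  · exact absurd h7 (mul_ne_zero t0 q0)
  · omega

end Pool.Agent.Lib.MP_9c5702_nt.Q4
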