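import Pool.Agent.Lib.MP_9c5702_nt.Q4.Lag
import Pool.Agent.Lib.MP_9c5702_nt.Q4.Disc
import Pool.Agent.Lib.MP_9c5702_nt.Q4.Cov

/-! Clusters of solutions in a plane through the origin. -/

set_option autoImplicit false

namespace Pool.Agent.Lib.MP_9c5702_nt.Q4

theorem cluster_prime (ψ w : V) (hw : dot w ψ = 1) (n : ℤ) (p α δ γ β : ℕ) (hp : p.Prime)
    (hn : (p : ℤ) ^ α ∣ n) (hδ : ¬ (p : ℤ) ^ (δ + 1) ∣ Dd ψ) (hγ : ¬ (p : ℤ) ^ (γ + 1) ∣ 6)
    (hβ : 3 * β + γ ≤ α + 2 ∨ β + 3 * γ + δ ≤ α) :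
    Cov (ZL ψ n) (fun P P' => ((p ^ β : ℕ) : ℤ) ∣ dl w P P') 3 := by
  refine cov_no 3 (fun P _ => ?_) (fun P hP Q hQ R hR h1 h2 =>
    dl_trans ψ w P Q R hw hP.1 hQ.1 hR.1 hR.2.2 _ h1 h2) fun P hP => ?_
  · have : dl w P P = 0 := by simp only [dot, dl, crs_0, crs_1, crs_2]; ring
    rw [this]; exact dvd_zero _
  by_contra hc
  push Not at hc
  simp only [Nat.cast_pow] at hc
  have hβ1 : β ≠ 0 := by
    rintro rfl
    exact hc 0 1 (by decide) (by simp)
  have hex : ∃ m, ∀ i j, i ≠ j → ¬ (p : ℤ) ^ (m + 1) ∣ dl w (P i) (P j) :=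
    ⟨β - 1, by rw [Nat.sub_add_cancel (by omega)]; exact hc⟩
  classical
  have hm := Nat.find_spec hex
  have hmβ : Nat.find hex ≤ β - 1 :=
    Nat.find_min' hex (by rw [Nat.sub_add_cancel (by omega)]; exact hc)
  have hpair : ∃ i j, i ≠ j ∧ (p : ℤ) ^ Nat.find hex ∣ dl w (P i) (P j) := by
    rcases h0 : Nat.find hex with _ | m
    · exact ⟨0, 1, by decide, by simp⟩
    · have := Nat.find_min hex (m := m) (by omega)
      push Not at this
      exact this
  generalize Nat.find hex = m at hm hmβ hpair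
  have h6 : (p : ℤ) ^ (α - 3 * m) ∣ 6 := content ψ w hw _ fun v hv =>
    lag_dvd ψ w hw p α m hp P (fun i => (hP i).1) (hP 0).2.2
      (fun i => by rw [(hP i).2.1]; exact hn) hm v hv
  have hα : α - 3 * m ≤ γ := by
    by_contra h
    exact hγ ((pow_dvd_pow _ (by omega)).trans h6)
  rcases hβ with h | h
  · omega
  · obtain ⟨i, j, hij, hd⟩ := hpair
    have := disc_step ψ w hw n p α δ γ m hp hn hδ (by omega) hγ _ _ (hP i) (hP j) hd (hm i j hij)
    omega

theorem cluster (ψ w : V) (hw : dot w ψ = 1) (hD : Dd ψ ≠ 0) (n : ℕ) (hn : 1 ≤ n) :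
    ∃ m : ℕ, 1 ≤ m ∧ m ∣ n ∧ n ≤ 6 * m ^ 3 ∧ (n : ℤ) ≤ 216 * |Dd ψ| * m ∧
      Cov (ZL ψ n) (fun P P' => (m : ℤ) ∣ dl w P P') (n.divisors.card ^ 2) := by
  have hn0 : n ≠ 0 := by omega
  have hD0 : (Dd ψ).natAbs ≠ 0 := Int.natAbs_ne_zero.2 hD
  set β : ℕ → ℕ := fun p => max ((n.factorization p - (6 : ℕ).factorization p + 2) / 3)
    (n.factorization p - 3 * (6 : ℕ).factorization p - (Dd ψ).natAbs.factorization p) with hβ
  set m := ∏ p ∈ n.primeFactors, p ^ β p with hm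
  have hm0 : 0 < m := Finset.prod_pos fun p hp => pow_pos (Nat.prime_of_mem_primeFactors hp).pos _
  have hpm : ∀ p ∈ n.primeFactors, p ^ β p ∣ m := fun p hp => Finset.dvd_prod_of_mem _ hp
  have key : ∀ X : ℕ, (∀ p ∈ n.primeFactors, p ^ n.factorization p ∣ X) → n ∣ X := by
    intro X hX
    rw [Nat.dvd_iff_prime_pow_dvd_dvd]
    intro p k hp hk
    rcases k with _ | k
    · simp
    · exact (pow_dvd_pow _ ((hp.pow_dvd_iff_le_factorization hn0).1 hk)).trans
        (hX p (Nat.mem_primeFactors.2 ⟨hp, (dvd_pow_self p (by omega)).trans hk, hn0⟩))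
  have h1 : m ∣ n := by
    conv_rhs => rw [← Nat.prod_factorization_pow_eq_self hn0]
    refine Finset.prod_dvd_prod_of_dvd _ _ fun p hp => pow_dvd_pow _ ?_
    have := (Nat.prime_of_mem_primeFactors hp).factorization_pos_of_dvd hn0
      (Nat.dvd_of_mem_primeFactors hp)
    simp only [hβ]
    omega
  have h2 : n ∣ 6 * m ^ 3 := key _ fun p hp => by
    refine (pow_dvd_pow p (n := (6 : ℕ).factorization p + β p * 3) ?_).trans ?_
    · simp only [hβ]; omega
    · rw [pow_add, pow_mul]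
      exact mul_dvd_mul (Nat.ordProj_dvd _ _) (pow_dvd_pow_of_dvd (hpm p hp) _)
  have h3 : n ∣ 6 ^ 3 * (Dd ψ).natAbs * m := key _ fun p hp => by
    refine (pow_dvd_pow p
      (n := (6 : ℕ).factorization p * 3 + (Dd ψ).natAbs.factorization p + β p) ?_).trans ?_
    · simp only [hβ]; omega
    · rw [pow_add, pow_add, pow_mul]
      exact mul_dvd_mul (mul_dvd_mul (pow_dvd_pow_of_dvd (Nat.ordProj_dvd _ _) _)
        (Nat.ordProj_dvd _ _)) (hpm p hp)
  refine ⟨m, hm0, h1, Nat.le_of_dvd (by positivity) h2, ?_, ?_⟩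
  · have := Nat.le_of_dvd (by positivity) h3
    rw [← Int.natCast_natAbs]
    exact_mod_cast this
  have hc := cov_prod (Z := ZL ψ n) (fun m P P' => (m : ℤ) ∣ dl w P P') (fun P P' => by simp)
    (fun m m' h P P' a b => by
      rw [Nat.cast_mul]
      exact (Nat.isCoprime_iff_coprime.2 h).mul_dvd a b)
    n.primeFactors (fun p hp => Nat.prime_of_mem_primeFactors hp) β (fun _ => 3) fun p hp => by
      have hpp := Nat.prime_of_mem_primeFactors hp
      have h6 : (6 : ℕ).factorization p ≤ 2 := by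
        by_contra h
        have a1 : p ^ 3 ∣ 6 := (pow_dvd_pow _ (by omega)).trans (Nat.ordProj_dvd 6 p)
        have a2 := Nat.le_of_dvd (by norm_num) a1
        have a3 := Nat.pow_le_pow_left hpp.two_le 3
        omega
      refine cluster_prime ψ w hw n p (n.factorization p) ((Dd ψ).natAbs.factorization p)
        ((6 : ℕ).factorization p) (β p) hpp (by exact_mod_cast Nat.ordProj_dvd n p) ?_ ?_ ?_
      · rw [← Int.dvd_natAbs]
        exact_mod_cast Nat.pow_succ_factorization_not_dvd hD0 hpp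
      · exact_mod_cast Nat.pow_succ_factorization_not_dvd (n := 6) (by norm_num) hpp
      · simp only [hβ]; omega
  refine cov_mono hc (fun _ h => h) (fun _ _ _ _ h => h) ?_
  rw [Finset.prod_const]
  refine le_trans ?_ (Nat.pow_le_pow_left (omega_le n hn0) 2)
  rw [← pow_mul, mul_comm, pow_mul]
  exact Nat.pow_le_pow_left (by norm_num) _

end Pool.Agent.Lib.MP_9c5702_nt.Q4
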