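import Pool.Agent.Lib.MP_9c5702_nt.Q4.Defs

/-! Size of one class of solutions of a binary quadratic equation. -/

set_option autoImplicit false

namespace Pool.Agent.Lib.MP_9c5702_nt.Q4

lemma conc_neg (δ M : ℤ) (hδ : δ < 0) (hM : M ≠ 0) (W : Finset (ℤ × ℤ))
    (hW : ∀ ξ ∈ W, ξ.1 ^ 2 - δ * ξ.2 ^ 2 = M) (hp : Pw (fun ξ ξ' => M ∣ Tr δ ξ ξ') W) :
    W.card ≤ 10 := by
  rcases W.eq_empty_or_nonempty with rfl | ⟨z, hz⟩
  · simp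
  have hz0 := hW z hz
  have key : ∀ ξ ∈ W, (ξ.1 * z.1 - δ * ξ.2 * z.2) ^ 2 - δ * (ξ.1 * z.2 - z.1 * ξ.2) ^ 2 = M ^ 2 :=
    fun ξ h => by linear_combination (z.1 ^ 2 - δ * z.2 ^ 2) * hW ξ h + M * hz0
  have hx : ∀ ξ ∈ W, 2 * (ξ.1 * z.1 - δ * ξ.2 * z.2) = M * (Tr δ ξ z / M) := fun ξ h =>
    (Int.mul_ediv_cancel' (hp ξ h z hz)).symm
  have h := Finset.card_le_card_of_injOn (s := W)
    (t := Finset.Icc (-2 : ℤ) 2 ×ˢ (Finset.univ : Finset Bool))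
    (fun ξ => (Tr δ ξ z / M, decide (0 < ξ.1 * z.2 - z.1 * ξ.2))) (fun ξ h => ?_)
    fun ξ h ξ' h' e => ?_
  · simpa using h
  · have k1 := key ξ h
    have k2 := hx ξ h
    have k3 : 0 < M ^ 2 := by positivity
    have k4 : M ^ 2 * (Tr δ ξ z / M) ^ 2 ≤ M ^ 2 * 2 ^ 2 := by
      rw [← mul_pow, ← k2]
      nlinarith [sq_nonneg (ξ.1 * z.2 - z.1 * ξ.2)]
    have k5 := abs_le_of_sq_le_sq' (le_of_mul_le_mul_left k4 k3) (by norm_num)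
    exact Finset.mem_coe.2 (Finset.mem_product.2 ⟨Finset.mem_Icc.2 k5, Finset.mem_univ _⟩)
  · obtain ⟨e1, e2⟩ := Prod.mk.inj e
    have k1 : ξ.1 * z.1 - δ * ξ.2 * z.2 = ξ'.1 * z.1 - δ * ξ'.2 * z.2 := by
      have := hx ξ h
      rw [e1, ← hx ξ' h'] at this
      linarith
    have k2 : (ξ.1 * z.2 - z.1 * ξ.2) ^ 2 = (ξ'.1 * z.2 - z.1 * ξ'.2) ^ 2 := by
      have := key ξ h
      rw [k1, ← key ξ' h'] at this
      exact mul_left_cancel₀ hδ.ne (by linarith)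
    have k3 : ξ.1 * z.2 - z.1 * ξ.2 = ξ'.1 * z.2 - z.1 * ξ'.2 := by
      rw [decide_eq_decide] at e2
      rcases sq_eq_sq_iff_eq_or_eq_neg.1 k2 with k | k
      · exact k
      · by_cases h0 : 0 < ξ.1 * z.2 - z.1 * ξ.2
        · linarith [e2.1 h0]
        · linarith [not_lt.1 h0, not_lt.1 (mt e2.2 h0)]
    refine Prod.ext (mul_left_cancel₀ hM ?_) (mul_left_cancel₀ hM ?_)
    · linear_combination z.1 * k1 - δ * z.2 * k3 - (ξ.1 - ξ'.1) * hz0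
    · linear_combination z.2 * k1 - z.1 * k3 - (ξ.2 - ξ'.2) * hz0

lemma conc_eq {a b : ℝ} {x : ℤ} (hs : 0 < a * b) (h1 : |a| < 2 * |b|) (h2 : |b| < 2 * |a|)
    (h : a ^ 2 + b ^ 2 = x * (a * b)) : a = b := by
  have e : |a| * |b| = a * b := by rw [← abs_mul, abs_of_pos hs]
  have k1 : (1 : ℝ) < x := by
    refine lt_of_mul_lt_mul_right ?_ hs.le
    nlinarith [sq_nonneg (a - b)]
  have k2 : (x : ℝ) < 3 := by
    refine lt_of_mul_lt_mul_right ?_ hs.le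
    nlinarith [mul_pos (sub_pos.2 h1) (sub_pos.2 h2), sq_abs a, sq_abs b]
  have k3 : x = 2 := by
    have : (1 : ℤ) < x := by exact_mod_cast k1
    have : x < 3 := by exact_mod_cast k2
    omega
  rw [k3] at h
  push_cast at h
  exact sub_eq_zero.1 (pow_eq_zero_iff two_ne_zero |>.1 (by linarith))

lemma conc_pos (δ M : ℤ) (hδ : 0 < δ) (hM : M ≠ 0) (H j : ℕ) (hH : |δ| ≤ H) (hj : H < 2 ^ j)
    (W : Finset (ℤ × ℤ)) (hW : ∀ ξ ∈ W, ξ.1 ^ 2 - δ * ξ.2 ^ 2 = M ∧ |ξ.1| ≤ H ∧ |ξ.2| ≤ H)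
    (hp : Pw (fun ξ ξ' => M ∣ Tr δ ξ ξ') W) : W.card ≤ (4 * j + 2) * 2 := by
  have hd : (1 : ℝ) ≤ δ := by exact_mod_cast hδ
  obtain ⟨r, hr0, hr, hrd⟩ : ∃ r : ℝ, 0 < r ∧ r ^ 2 = δ ∧ r ≤ δ :=
    ⟨√δ, Real.sqrt_pos.2 (by linarith), Real.sq_sqrt (by linarith),
      Real.sqrt_le_iff.2 ⟨by linarith, by nlinarith⟩⟩
  have hM' : (M : ℝ) ≠ 0 := by exact_mod_cast hM
  have hM1 : (1 : ℝ) ≤ |(M : ℝ)| := by exact_mod_cast Int.one_le_abs hM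
  have hj' : (H : ℝ) < 2 ^ j := by exact_mod_cast hj
  have hj1 : (1 : ℝ) ≤ 2 ^ j := one_le_pow₀ one_le_two
  have hrH : r ≤ 2 ^ j := by
    have : (δ : ℝ) ≤ H := by exact_mod_cast (le_abs_self δ).trans hH
    linarith
  have prod : ∀ ξ ∈ W, ((ξ.1 : ℝ) + ξ.2 * r) * (ξ.1 - ξ.2 * r) = M := fun ξ h => by
    have : (ξ.1 : ℝ) ^ 2 - δ * ξ.2 ^ 2 = M := by exact_mod_cast (hW ξ h).1
    linear_combination this - (ξ.2 : ℝ) ^ 2 * hr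
  have bd : ∀ ξ ∈ W, |(ξ.1 : ℝ)| + |ξ.2 * r| < 2 ^ (2 * j + 1) := fun ξ h => by
    have h1 : |(ξ.1 : ℝ)| ≤ H := by exact_mod_cast (hW ξ h).2.1
    have h2 : |(ξ.2 : ℝ)| ≤ H := by exact_mod_cast (hW ξ h).2.2
    have h3 : |(ξ.2 : ℝ)| * r ≤ 2 ^ j * 2 ^ j :=
      mul_le_mul (h2.trans hj'.le) hrH hr0.le (by positivity)
    rw [abs_mul, abs_of_pos hr0, pow_succ, two_mul, pow_add]
    nlinarith
  have ne : ∀ ξ ∈ W, (ξ.1 : ℝ) + ξ.2 * r ≠ 0 := fun ξ h =>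
    left_ne_zero_of_mul ((prod ξ h).symm ▸ hM')
  have h := Finset.card_le_card_of_injOn (s := W)
    (t := Finset.Ico (-((2 * j + 1 : ℕ) : ℤ)) ((2 * j + 1 : ℕ) : ℤ) ×ˢ (Finset.univ : Finset Bool))
    (fun ξ => (Int.log 2 |(ξ.1 : ℝ) + ξ.2 * r|, decide (0 < (ξ.1 : ℝ) + ξ.2 * r)))
    (fun ξ h => ?_) fun ξ h ξ' h' e => ?_
  · rw [Finset.card_product, Int.card_Ico, Finset.card_univ, Fintype.card_bool] at h
    exact h.trans (le_of_eq (by congr 1; omega))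
  · have p0 := abs_pos.2 (ne ξ h)
    simp only [Finset.coe_product, Set.mem_prod, Finset.mem_coe, Finset.mem_Ico, Finset.mem_univ,
      and_true]
    rw [← Int.zpow_le_iff_le_log one_lt_two p0, ← Int.lt_zpow_iff_log_lt one_lt_two p0,
      zpow_neg, zpow_natCast, Nat.cast_ofNat, inv_le_iff_one_le_mul₀ (by positivity)]
    refine ⟨hM1.trans ?_, (abs_add_le _ _).trans_lt (bd ξ h)⟩
    rw [← prod ξ h, abs_mul]
    exact mul_le_mul_of_nonneg_left ((abs_sub _ _).trans (bd ξ h).le) p0.le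
  · obtain ⟨e1, e2⟩ := Prod.mk.inj e
    rw [decide_eq_decide] at e2
    have p1 := prod ξ h
    have p2 := prod ξ' h'
    obtain ⟨x, hx⟩ := hp ξ h ξ' h'
    have hx' : 2 * ((ξ.1 : ℝ) * ξ'.1 - δ * ξ.2 * ξ'.2) = M * x := by
      unfold Tr at hx
      exact_mod_cast hx
    have lt : ∀ {a b : ℝ}, a ≠ 0 → b ≠ 0 → Int.log 2 |a| = Int.log 2 |b| → |a| < 2 * |b| :=
      fun {a b} ha hb e => by
        have k1 := Int.lt_zpow_succ_log_self one_lt_two |a|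
        have k2 := Int.zpow_log_le_self one_lt_two (abs_pos.2 hb)
        rw [e, Nat.cast_ofNat, zpow_add_one₀ two_ne_zero] at k1
        rw [Nat.cast_ofNat] at k2
        linarith
    have hs : 0 < ((ξ.1 : ℝ) + ξ.2 * r) * (ξ'.1 + ξ'.2 * r) := by
      rcases lt_or_gt_of_ne (ne ξ h) with k | k
      · exact mul_pos_of_neg_of_neg k
          (lt_of_le_of_ne (not_lt.1 (mt e2.2 (not_lt.2 k.le))) (ne ξ' h'))
      · exact mul_pos k (e2.1 k)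
    have q1 := conc_eq (x := x) hs (lt (ne ξ h) (ne ξ' h') e1) (lt (ne ξ' h') (ne ξ h) e1.symm)
      (mul_left_cancel₀ hM' (by
        linear_combination (((ξ.1 : ℝ) + ξ.2 * r) * (ξ'.1 + ξ'.2 * r)) * hx' -
          ((ξ.1 : ℝ) + ξ.2 * r) ^ 2 * p2 - ((ξ'.1 : ℝ) + ξ'.2 * r) ^ 2 * p1 -
          2 * ξ.2 * ξ'.2 * (((ξ.1 : ℝ) + ξ.2 * r) * (ξ'.1 + ξ'.2 * r)) * hr))
    have q2 : (ξ.1 : ℝ) - ξ.2 * r = ξ'.1 - ξ'.2 * r :=
      mul_left_cancel₀ (ne ξ h) (by rw [p1, q1, p2])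
    have q3 : (ξ.1 : ℝ) = ξ'.1 := by linarith
    have q4 : (ξ.2 : ℝ) = ξ'.2 := mul_right_cancel₀ hr0.ne' (by linarith)
    exact Prod.ext (by exact_mod_cast q3) (by exact_mod_cast q4)

theorem conic_class (δ M : ℤ) (hδ : δ ≠ 0) (hM : M ≠ 0) (H j : ℕ) (hH : |δ| ≤ H) (hj : H < 2 ^ j)
    (W : Finset (ℤ × ℤ)) (hW : ∀ ξ ∈ W, ξ.1 ^ 2 - δ * ξ.2 ^ 2 = M ∧ |ξ.1| ≤ H ∧ |ξ.2| ≤ H)
    (hp : Pw (fun ξ ξ' => M ∣ Tr δ ξ ξ') W) : W.card ≤ 10 * (j + 1) := by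
  rcases lt_or_gt_of_ne hδ with h | h
  · have := conc_neg δ M h hM W (fun ξ k => (hW ξ k).1) hp
    omega
  · have := conc_pos δ M h hM H j hH hj W hW hp
    omega

end Pool.Agent.Lib.MP_9c5702_nt.Q4
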