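import Pool.Agent.Lib.MP_9c5702_nt.Q4.Cov

/-! Classes of solutions of a binary quadratic equation at one prime. -/

set_option autoImplicit false

namespace Pool.Agent.Lib.MP_9c5702_nt.Q4

/-- `x` has valuation exactly `k` -/
def ConPEx (p : ℤ) (k : ℕ) (x : ℤ) : Prop := ∃ u, x = p ^ k * u ∧ ¬ p ∣ u

lemma ConPEx.mul {p : ℤ} (hp : Prime p) {k l : ℕ} {x y : ℤ} (hx : ConPEx p k x)
    (hy : ConPEx p l y) : ConPEx p (k + l) (x * y) := by
  obtain ⟨u, rfl, hu⟩ := hx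
  obtain ⟨v, rfl, hv⟩ := hy
  exact ⟨u * v, by ring, fun h => (hp.dvd_or_dvd h).elim hu hv⟩

lemma ConPEx.dvd {p : ℤ} {k l : ℕ} {x : ℤ} (hx : ConPEx p k x) (h : l ≤ k) : p ^ l ∣ x := by
  obtain ⟨u, rfl, -⟩ := hx
  exact (pow_dvd_pow p h).mul_right u

lemma ConPEx.not {p : ℤ} (hp : Prime p) {k : ℕ} {x : ℤ} (hx : ConPEx p k x) :
    ¬ p ^ (k + 1) ∣ x := by
  obtain ⟨u, rfl, hu⟩ := hx
  rw [pow_succ]
  exact fun h => hu ((mul_dvd_mul_iff_left (pow_ne_zero k hp.ne_zero)).1 h)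

lemma conP_mk {p : ℤ} {k : ℕ} {x : ℤ} (h1 : p ^ k ∣ x) (h2 : ¬ p ^ (k + 1) ∣ x) :
    ConPEx p k x := by
  obtain ⟨u, rfl⟩ := h1
  exact ⟨u, rfl, fun h => h2 (by rw [pow_succ]; exact mul_dvd_mul_left _ h)⟩

lemma conP_ex {p : ℤ} {x : ℤ} : ∀ a : ℕ, ¬ p ^ a ∣ x → ∃ c < a, ConPEx p c x
  | 0, h => absurd (by simp) h
  | a + 1, h => by
    by_cases h' : p ^ a ∣ x
    · exact ⟨a, Nat.lt_succ_self a, conP_mk h' h⟩
    · obtain ⟨c, hc, hx⟩ := conP_ex a h'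
      exact ⟨c, hc.trans (Nat.lt_succ_self a), hx⟩

lemma conP_dvd3 {p : ℤ} {a b c n : ℕ} {x y z : ℤ} (hx : p ^ a ∣ x) (hy : p ^ b ∣ y)
    (hz : p ^ c ∣ z) (h : n ≤ a + b + c) : p ^ n ∣ x * y * z := by
  refine (pow_dvd_pow p h).trans ?_
  rw [pow_add, pow_add]
  exact mul_dvd_mul (mul_dvd_mul hx hy) hz

/-- the term `M z z` cannot have the strictly smallest valuation -/
lemma conP_sq {p M x y z : ℤ} (hp : Prime p) {a i j c : ℕ}
    (g : M * (x ^ 2 + y ^ 2 + z ^ 2) - x * y * z = 4 * M ^ 3) (hM : ConPEx p a M)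
    (hx : p ^ i ∣ x) (hy : p ^ j ∣ y) (hz : ConPEx p c z) (h1 : c < a) (h2 : c < i) (h3 : c < j)
    (h4 : a + c < i + j) : False := by
  refine ((hM.mul hp hz).mul hp hz).not hp ?_
  have e : M * z * z = 4 * (M * M * M) + x * y * z - M * x * x - M * y * y := by
    linear_combination g
  have m := hM.dvd le_rfl
  rw [e]
  exact (((conP_dvd3 m m m (by omega)).mul_left 4).add
    (conP_dvd3 hx hy (hz.dvd le_rfl) (by omega))).sub (conP_dvd3 m hx hx (by omega)) |>.sub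
    (conP_dvd3 m hy hy (by omega))

/-- the term `x y z` cannot have the strictly smallest valuation -/
lemma conP_tr {p M x y z : ℤ} (hp : Prime p) {a i j c : ℕ}
    (g : M * (x ^ 2 + y ^ 2 + z ^ 2) - x * y * z = 4 * M ^ 3) (hM : ConPEx p a M)
    (hx : ConPEx p i x) (hy : ConPEx p j y) (hz : ConPEx p c z) (h1 : i + j + c < 3 * a)
    (h2 : j + c < a + i) (h3 : i + c < a + j) (h4 : i + j < a + c) : False := by
  refine ((hx.mul hp hy).mul hp hz).not hp ?_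
  have e : x * y * z = M * x * x + M * y * y + M * z * z - 4 * (M * M * M) := by
    linear_combination -g
  have m := hM.dvd le_rfl
  have hx' := hx.dvd le_rfl
  have hy' := hy.dvd le_rfl
  have hz' := hz.dvd le_rfl
  rw [e]
  exact (((conP_dvd3 m hx' hx' (by omega)).add (conP_dvd3 m hy' hy' (by omega))).add
    (conP_dvd3 m hz' hz' (by omega))).sub ((conP_dvd3 m m m (by omega)).mul_left 4)

lemma conP_symm (δ : ℤ) (a b : ℤ × ℤ) : Tr δ a b = Tr δ b a := by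
  simp only [Tr]
  ring

theorem conic_prime (δ M : ℤ) (p α : ℕ) (hp : p.Prime) (h1 : (p : ℤ) ^ α ∣ M)
    (h2 : ¬ (p : ℤ) ^ (α + 1) ∣ M) :
    Cov {ξ : ℤ × ℤ | ξ.1 ^ 2 - δ * ξ.2 ^ 2 = M} (fun ξ ξ' => ((p ^ α : ℕ) : ℤ) ∣ Tr δ ξ ξ')
      (2 * (α + 1)) := by
  have hq : Prime (p : ℤ) := Nat.prime_iff_prime_int.1 hp
  have hM := conP_mk h1 h2
  simp only [Nat.cast_pow]
  have heuc : ∀ P Q R : ℤ × ℤ, P.1 ^ 2 - δ * P.2 ^ 2 = M → Q.1 ^ 2 - δ * Q.2 ^ 2 = M →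
      R.1 ^ 2 - δ * R.2 ^ 2 = M → (p : ℤ) ^ α ∣ Tr δ R P → (p : ℤ) ^ α ∣ Tr δ R Q →
      (p : ℤ) ^ α ∣ Tr δ P Q := by
    intro P Q R hP hQ hR a b
    by_contra hn
    obtain ⟨c, hc, hz⟩ := conP_ex α hn
    exact conP_sq hq (gram δ M R P Q hR hP hQ) hM a b hz hc hc hc (by omega)
  by_cases hZ : ∃ ξ0 : ℤ × ℤ, ξ0.1 ^ 2 - δ * ξ0.2 ^ 2 = M
  swap
  · exact cov_mono (cov_one fun P hP _ _ => absurd ⟨P, hP⟩ hZ) (fun _ h => h)
      (fun _ _ _ _ h => h) (by omega)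
  obtain ⟨O, hO⟩ := hZ
  have key := cov_union (Z := {ξ : ℤ × ℤ | ξ.1 ^ 2 - δ * ξ.2 ^ 2 = M})
    (r := fun ξ ξ' => (p : ℤ) ^ α ∣ Tr δ ξ ξ') (N := 2) (Finset.range (α + 1))
    (fun j => {ξ : ℤ × ℤ | ξ.1 ^ 2 - δ * ξ.2 ^ 2 = M ∧
      ((p : ℤ) ^ α ∣ Tr δ O ξ ∧ j = α ∨ j < α ∧ ConPEx p j (Tr δ O ξ))}) ?_ ?_
  · rwa [Finset.card_range, mul_comm] at key
  · intro P hP
    by_cases h : (p : ℤ) ^ α ∣ Tr δ O P
    · exact ⟨α, Finset.self_mem_range_succ α, hP, Or.inl ⟨h, rfl⟩⟩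
    · obtain ⟨c, hc, hz⟩ := conP_ex α h
      exact ⟨c, Finset.mem_range.2 (by omega), hP, Or.inr ⟨hc, hz⟩⟩
  · intro j _
    refine cov_no 2 (fun P hP => ?_) (fun P hP Q hQ R hR a b => ?_) fun q hq' => ?_
    · have e : Tr δ P P = 2 * M := by
        rw [← hP.1]
        simp only [Tr]
        ring
      rw [e]
      exact h1.mul_left 2
    · exact heuc P Q R hP.1 hQ.1 hR.1 (conP_symm δ P R ▸ a) (conP_symm δ Q R ▸ b)
    · by_contra hn
      have hn' : ∀ i k, i ≠ k → ¬ (p : ℤ) ^ α ∣ Tr δ (q i) (q k) := fun i k hik h =>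
        hn ⟨i, k, hik, h⟩
      rcases lt_or_ge j α with hj | hj
      · have hx : ∀ i, ConPEx p j (Tr δ O (q i)) := fun i =>
          (hq' i).2.elim (fun h => absurd h.2 hj.ne) fun h => h.2
        have hv : ∀ i k, i ≠ k → ∃ c < α, α + c = j + j ∧ ConPEx p c (Tr δ (q i) (q k)) := by
          intro i k hik
          obtain ⟨c, hc, hz⟩ := conP_ex α (hn' i k hik)
          have g := gram δ M O (q i) (q k) hO (hq' i).1 (hq' k).1
          refine ⟨c, hc, ?_, hz⟩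
          rcases lt_trichotomy (α + c) (j + j) with h | h | h
          · exact (conP_sq hq g hM ((hx i).dvd le_rfl) ((hx k).dvd le_rfl) hz hc (by omega)
              (by omega) h).elim
          · exact h
          · exact (conP_tr hq g hM (hx i) (hx k) hz (by omega) (by omega) (by omega) h).elim
        obtain ⟨c1, a1, b1, z1⟩ := hv 0 1 (by decide)
        obtain ⟨c2, a2, b2, z2⟩ := hv 0 2 (by decide)
        obtain ⟨c3, a3, b3, z3⟩ := hv 1 2 (by decide)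
        exact conP_tr hq (gram δ M (q 0) (q 1) (q 2) (hq' 0).1 (hq' 1).1 (hq' 2).1) hM z1 z2 z3
          (by omega) (by omega) (by omega) (by omega)
      · have hx : ∀ i, (p : ℤ) ^ α ∣ Tr δ O (q i) := fun i =>
          (hq' i).2.elim (fun h => h.1) fun h => absurd h.1 (not_lt.2 hj)
        exact hn' 0 1 (by decide) (heuc _ _ O (hq' 0).1 (hq' 1).1 hO (hx 0) (hx 1))

end Pool.Agent.Lib.MP_9c5702_nt.Q4
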