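import Pool.Agent.Lib.MP_9c5702_nt.Q4.ConP
import Pool.Agent.Lib.MP_9c5702_nt.Q4.ConC

/-! Integer points on a conic; a divisor bound for special planes. -/

set_option autoImplicit false

namespace Pool.Agent.Lib.MP_9c5702_nt.Q4

theorem conic (δ M : ℤ) (hδ : δ ≠ 0) (hM : M ≠ 0) (H j : ℕ) (hH : |δ| ≤ H) (hj : H < 2 ^ j)
    (W : Finset (ℤ × ℤ)) (hW : ∀ ξ ∈ W, ξ.1 ^ 2 - δ * ξ.2 ^ 2 = M ∧ |ξ.1| ≤ H ∧ |ξ.2| ≤ H) :
    W.card ≤ M.natAbs.divisors.card ^ 2 * (10 * (j + 1)) := by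
  have hm : M.natAbs ≠ 0 := Int.natAbs_ne_zero.2 hM
  have hc := cov_prod (Z := {ξ : ℤ × ℤ | ξ.1 ^ 2 - δ * ξ.2 ^ 2 = M})
    (fun (m : ℕ) ξ ξ' => (m : ℤ) ∣ Tr δ ξ ξ') (fun P P' => by simp)
    (fun m m' h P P' h1 h2 => by
      push_cast
      exact IsCoprime.mul_dvd (Nat.isCoprime_iff_coprime.2 h) h1 h2)
    M.natAbs.primeFactors (fun p hp => Nat.prime_of_mem_primeFactors hp)
    (fun p => M.natAbs.factorization p) (fun p => 2 * (M.natAbs.factorization p + 1))
    (fun p hp => by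
      have hpp := Nat.prime_of_mem_primeFactors hp
      refine conic_prime δ M p _ hpp ?_ ?_
      · rw [← Int.dvd_natAbs]
        exact_mod_cast Nat.ordProj_dvd M.natAbs p
      · rw [← Int.dvd_natAbs]
        exact_mod_cast Nat.pow_succ_factorization_not_dvd hm hpp)
  have hprod : ∏ p ∈ M.natAbs.primeFactors, p ^ M.natAbs.factorization p = M.natAbs :=
    Nat.prod_factorization_pow_eq_self hm
  rw [hprod] at hc
  have h1 := hc W (10 * (j + 1)) (fun P hP => (hW P hP).1) fun W' hs hp =>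
    conic_class δ M hδ hM H j hH hj W' (fun ξ hξ => hW ξ (hs hξ))
      fun P hP P' hP' => Int.natAbs_dvd.1 (hp P hP P' hP')
  refine h1.trans (Nat.mul_le_mul_right _ ?_)
  rw [Nat.card_divisors hm, ← Finset.prod_pow]
  refine Finset.prod_le_prod' fun p hp => ?_
  have := (Nat.Prime.factorization_pos_of_dvd (Nat.prime_of_mem_primeFactors hp) hm
    (Nat.dvd_of_mem_primeFactors hp))
  nlinarith

theorem sp_div (n B : ℕ) (W : Finset V) (hW : ∀ P ∈ W, P ∈ Sol n B) (i j k : Fin 3) (hij : i ≠ j)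
    (hik : i ≠ k) (hjk : j ≠ k) (α β c : ℤ) (hβ : β ≠ 0)
    (hpl : ∀ P ∈ W, α * (P i + P j) + β * P k = c) (hR : β ^ 3 * n - c ^ 3 ≠ 0) :
    W.card ≤ 2 * (β ^ 3 * n - c ^ 3).natAbs.divisors.card := by
  classical
  have hF : ∀ P ∈ W, P i ^ 3 + P j ^ 3 + P k ^ 3 = n := fun P hP => by
    rw [← F_perm P hij hik hjk]; exact (hW P hP).2.1
  have hpos : ∀ P ∈ W, 0 < P i + P j := fun P hP =>
    add_pos ((hW P hP).1 i).1 ((hW P hP).1 j).1
  refine Finset.card_le_mul_card_image_of_maps_to (f := fun P : V => (P i + P j).natAbs)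
    (fun P hP => ?_) 2 fun s _ => ?_
  · refine Nat.mem_divisors.2 ⟨Int.natAbs_dvd_natAbs.2 ?_, Int.natAbs_ne_zero.2 hR⟩
    refine ⟨β ^ 3 * (P i ^ 2 - P i * P j + P j ^ 2) -
      α * (c ^ 2 + c * (β * P k) + (β * P k) ^ 2), ?_⟩
    rw [← hF P hP, ← hpl P hP]
    ring
  · rcases (W.filter fun P : V => (P i + P j).natAbs = s).eq_empty_or_nonempty with h0 | ⟨Q, hQ⟩
    · simp [h0]
    have key : ∀ P ∈ W.filter fun P : V => (P i + P j).natAbs = s,
        P i + P j = s ∧ β * P k = c - α * s := fun P hP => by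
      obtain ⟨h1, h2⟩ := Finset.mem_filter.1 hP
      have h3 : P i + P j = s := by
        rw [← h2, Int.natAbs_of_nonneg (hpos P h1).le]
      exact ⟨h3, by rw [← hpl P h1, h3]; ring⟩
    have hz : ∀ P ∈ W.filter fun P : V => (P i + P j).natAbs = s, P k = Q k := fun P hP =>
      mul_left_cancel₀ hβ ((key P hP).2.trans (key Q hQ).2.symm)
    refine le_trans (Finset.card_le_card_of_injOn (t := {Q i, Q j}) (fun P : V => P i)
      (fun P hP => ?_) fun P hP P' hP' h => ?_) Finset.card_le_two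
    · have hP' := Finset.mem_coe.1 hP
      have h1 := hF P (Finset.mem_filter.1 hP').1
      have h2 := hF Q (Finset.mem_filter.1 hQ).1
      have h3 := (key P hP').1
      have h4 := (key Q hQ).1
      have h5 := hpos Q (Finset.mem_filter.1 hQ).1
      rw [hz P hP'] at h1
      have h6 : P j = Q i + Q j - P i := by linarith
      have h7 : 3 * (Q i + Q j) * ((P i - Q i) * (P i - Q j)) = 0 := by
        rw [h6] at h1
        linear_combination h1 - h2
      have h8 := (mul_eq_zero.1 h7).resolve_left (by positivity)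
      simp only [Finset.coe_insert, Finset.coe_singleton, Set.mem_insert_iff,
        Set.mem_singleton_iff]
      exact (mul_eq_zero.1 h8).imp sub_eq_zero.1 sub_eq_zero.1
    · have h1 := Finset.mem_coe.1 hP
      have h2 := Finset.mem_coe.1 hP'
      have h3 : P i = P' i := h
      refine vec_ext_perm hij hik hjk h3 ?_ ((hz P h1).trans (hz P' h2).symm)
      linarith [(key P h1).1, (key P' h2).1]

end Pool.Agent.Lib.MP_9c5702_nt.Q4
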