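import Pool.Agent.Lib.MP_9c5702_nt.Q4.Apx

/-! The chart on a projective class modulo a prime; second order form of a chart. -/

set_option autoImplicit false

namespace Pool.Agent.Lib.MP_9c5702_nt.Q4

open MvPolynomial

lemma l1chart_unit {p : ℤ} (hp : Prime p) {P : V} (hP : Prim P) : ∃ k, ¬ p ∣ P k := by
  by_contra hc
  push Not at hc
  obtain ⟨e, he⟩ := hP
  have : p ∣ dot e P := by
    unfold dot
    exact dvd_add (dvd_add ((hc 0).mul_left _) ((hc 1).mul_left _)) ((hc 2).mul_left _)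
  rw [he] at this
  exact hp.not_dvd_one this

lemma l1chart_inv {p x : ℤ} (hp : Prime p) (hx : ¬ p ∣ x) (N : ℕ) :
    ∃ y : ℤ, p ^ N ∣ 1 - x * y := by
  have h1 : IsCoprime p x := (hp.irreducible.coprime_iff_not_dvd).2 hx
  obtain ⟨a, b, hab⟩ := (IsCoprime.pow_left (m := N) h1)
  exact ⟨b, a, by linear_combination -hab⟩

theorem l1chart (l : ℕ) (hl : l.Prime) (W : Finset V) (hW : ∀ P ∈ W, Prim P)
    (hp : Pw (Crs (l : ℤ)) W) : Chart (l : ℤ) 1 W := by
  classical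
  intro N
  have hl' : Prime (l : ℤ) := Nat.prime_iff_prime_int.1 hl
  rcases W.eq_empty_or_nonempty with rfl | ⟨P0, hP0⟩
  · exact ⟨fun _ => 0, fun _ => 0, fun _ => 0, fun _ _ => 0, by simp, fun _ => apx_const 0⟩
  obtain ⟨k, hk⟩ := l1chart_unit hl' (hW P0 hP0)
  obtain ⟨i, j, hij, hik, hjk⟩ := other_two k
  have hu : ∀ P ∈ W, ¬ (l : ℤ) ∣ P k := by
    intro P hP hd
    obtain ⟨r, hr⟩ := l1chart_unit hl' (hW P hP)
    have h1 : (l : ℤ) ∣ P r * P0 k - P k * P0 r := hp P hP P0 hP0 r k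
    have h2 : (l : ℤ) ∣ P r * P0 k := by
      have := dvd_add h1 (hd.mul_right (P0 r))
      simpa using this
    rcases hl'.dvd_or_dvd h2 with h | h
    · exact hr h
    · exact hk h
  have hex : ∀ P : V, ∃ y : ℤ, P ∈ W → (l : ℤ) ^ (N + 1) ∣ 1 - P k * y := by
    intro P
    by_cases hP : P ∈ W
    · obtain ⟨y, hy⟩ := l1chart_inv hl' (hu P hP) (N + 1)
      exact ⟨y, fun _ => hy⟩
    · exact ⟨0, fun h => absurd h hP⟩
  choose iv hiv using hex
  have h1 : ∀ P ∈ W, (l : ℤ) ∣ 1 - P k * iv P := fun P hP =>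
    (dvd_pow_self _ (Nat.succ_ne_zero N)).trans (hiv P hP)
  have hN : ∀ P ∈ W, (l : ℤ) ^ N ∣ 1 - P k * iv P := fun P hP =>
    (pow_dvd_pow _ (Nat.le_succ N)).trans (hiv P hP)
  have hd : ∀ r, ∀ P ∈ W, (l : ℤ) ∣ P r * iv P - P0 r * iv P0 := by
    intro r P hP
    have e : P r * iv P - P0 r * iv P0 = iv P * iv P0 * (P r * P0 k - P k * P0 r) +
        P r * iv P * (1 - P0 k * iv P0) - P0 r * iv P0 * (1 - P k * iv P) := by ring
    rw [e]
    exact dvd_sub (dvd_add ((hp P hP P0 hP0 r k).mul_left _) ((h1 P0 hP0).mul_left _))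
      ((h1 P hP).mul_left _)
  refine ⟨fun P => P i * iv P - P0 i * iv P0, fun P => P j * iv P - P0 j * iv P0, fun P => P k,
    fun P r => if r = k then 1 else P r * iv P, ?_, ?_⟩
  · intro P hP
    refine ⟨hd i P hP, by rw [pow_one]; exact hd j P hP, fun r => ?_⟩
    by_cases hr : r = k
    · simp [hr]
    · have e : P r - P k * (P r * iv P) = P r * (1 - P k * iv P) := by ring
      simp only [hr, if_false]
      rw [e]
      exact (hN P hP).mul_left _
  · intro r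
    have hr : r = i ∨ r = j ∨ r = k :=
      (by decide : ∀ i j k m : Fin 3, i ≠ j → i ≠ k → j ≠ k → m = i ∨ m = j ∨ m = k) i j k r
        hij hik hjk
    rcases hr with hr | hr | hr
    · refine ((apx_const (P0 i * iv P0)).add apx_u).congr fun P _ => ?_
      simp [hr, hik]
    · refine ((apx_const (P0 j * iv P0)).add apx_t).congr fun P _ => ?_
      simp [hr, hjk]
    · refine (apx_const 1).congr fun P _ => ?_
      simp [hr]

lemma l1chart_jet (q : ℤ) (g : MvPolynomial (Fin 2) ℤ) :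
    ∃ g0 g1 g2 : ℤ, ∀ u t : ℤ, q ∣ u → q ^ 4 ∣ t →
      q ^ 3 ∣ eval ![u, t] g - (g0 + u * g1 + u ^ 2 * g2) := by
  induction g using MvPolynomial.induction_on with
  | C a => exact ⟨a, 0, 0, fun u t _ _ => by simp⟩
  | add p p' hp hp' =>
    obtain ⟨a0, a1, a2, ha⟩ := hp
    obtain ⟨b0, b1, b2, hb⟩ := hp'
    refine ⟨a0 + b0, a1 + b1, a2 + b2, fun u t hu ht => ?_⟩
    have e : eval ![u, t] (p + p') - (a0 + b0 + u * (a1 + b1) + u ^ 2 * (a2 + b2)) =
        (eval ![u, t] p - (a0 + u * a1 + u ^ 2 * a2)) +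
          (eval ![u, t] p' - (b0 + u * b1 + u ^ 2 * b2)) := by
      rw [map_add]; ring
    rw [e]
    exact dvd_add (ha u t hu ht) (hb u t hu ht)
  | mul_X p n hp =>
    obtain ⟨a0, a1, a2, ha⟩ := hp
    have hn : n = 0 ∨ n = 1 := by revert n; decide
    rcases hn with rfl | rfl
    · refine ⟨0, a0, a1, fun u t hu ht => ?_⟩
      have e : eval ![u, t] (p * X 0) - (0 + u * a0 + u ^ 2 * a1) =
          u * (eval ![u, t] p - (a0 + u * a1 + u ^ 2 * a2)) + u ^ 3 * a2 := by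
        rw [map_mul, eval_X, Matrix.cons_val_zero]; ring
      rw [e]
      exact dvd_add ((ha u t hu ht).mul_left _) ((pow_dvd_pow_of_dvd hu 3).mul_right _)
    · refine ⟨0, 0, 0, fun u t _ ht => ?_⟩
      have e : eval ![u, t] (p * X 1) - (0 + u * 0 + u ^ 2 * 0) = eval ![u, t] p * t := by
        rw [map_mul, eval_X, Matrix.cons_val_one, Matrix.cons_val_zero]; ring
      rw [e]
      exact ((pow_dvd_pow q (by norm_num)).trans ht).mul_left _

theorem q3_of_chart (q : ℤ) (W : Finset V) (h : Chart q 4 W) : Q3 q W := by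
  obtain ⟨u, t, c, Pt, h1, h2⟩ := h 3
  choose g hg using h2
  choose g0 g1 g2 hj using fun k => l1chart_jet q (g k)
  refine ⟨g0, g1, g2, fun P hP => ⟨c P, u P, (h1 P hP).1, fun k => ?_⟩⟩
  have e : P k - c P * (g0 k + u P * g1 k + u P ^ 2 * g2 k) = (P k - c P * Pt P k) +
      c P * ((Pt P k - eval ![u P, t P] (g k)) +
        (eval ![u P, t P] (g k) - (g0 k + u P * g1 k + u P ^ 2 * g2 k))) := by ring
  rw [e]
  exact dvd_add ((h1 P hP).2.2 k)
    ((dvd_add (hg k P hP) (hj k _ _ (h1 P hP).1 (h1 P hP).2.1)).mul_left _)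

lemma l1chart_dl_cong {M : ℤ} {P Q R P' Q' R' : V} (hP : ∀ k, M ∣ P k - P' k)
    (hQ : ∀ k, M ∣ Q k - Q' k) (hR : ∀ k, M ∣ R k - R' k) : M ∣ dl P Q R - dl P' Q' R' := by
  have e : dl P Q R - dl P' Q' R' =
      ((P 0 - P' 0) * crs Q R 0 + (P 1 - P' 1) * crs Q R 1 + (P 2 - P' 2) * crs Q R 2) +
      ((Q 0 - Q' 0) * crs R P' 0 + (Q 1 - Q' 1) * crs R P' 1 + (Q 2 - Q' 2) * crs R P' 2) +
      ((R 0 - R' 0) * crs P' Q' 0 + (R 1 - R' 1) * crs P' Q' 1 + (R 2 - R' 2) * crs P' Q' 2) := by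
    simp only [dot, dl, crs_0, crs_1, crs_2]; ring
  rw [e]
  exact dvd_add (dvd_add
    (dvd_add (dvd_add ((hP 0).mul_right _) ((hP 1).mul_right _)) ((hP 2).mul_right _))
    (dvd_add (dvd_add ((hQ 0).mul_right _) ((hQ 1).mul_right _)) ((hQ 2).mul_right _)))
    (dvd_add (dvd_add ((hR 0).mul_right _) ((hR 1).mul_right _)) ((hR 2).mul_right _))

theorem q3_det (q : ℤ) (W : Finset V) (h : Q3 q W) (P Q R : V) (hP : P ∈ W) (hQ : Q ∈ W)
    (hR : R ∈ W) : q ^ 3 ∣ dl P Q R := by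
  obtain ⟨g0, g1, g2, h⟩ := h
  obtain ⟨c, u, hu, h1⟩ := h P hP
  obtain ⟨c', u', hu', h2⟩ := h Q hQ
  obtain ⟨c'', u'', hu'', h3⟩ := h R hR
  have h4 := l1chart_dl_cong (P' := fun k => c * (g0 k + u * g1 k + u ^ 2 * g2 k))
    (Q' := fun k => c' * (g0 k + u' * g1 k + u' ^ 2 * g2 k))
    (R' := fun k => c'' * (g0 k + u'' * g1 k + u'' ^ 2 * g2 k)) h1 h2 h3
  have e : dl (fun k => c * (g0 k + u * g1 k + u ^ 2 * g2 k))
      (fun k => c' * (g0 k + u' * g1 k + u' ^ 2 * g2 k))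
      (fun k => c'' * (g0 k + u'' * g1 k + u'' ^ 2 * g2 k)) =
      ((u' - u) * (u'' - u) * (u'' - u')) * (c * c' * c'' * dl g0 g1 g2) := by
    simp only [dot, dl, crs_0, crs_1, crs_2]; ring
  rw [e] at h4
  have h5 : q ^ 3 ∣ (u' - u) * (u'' - u) * (u'' - u') := by
    rw [show q ^ 3 = q * q * q by ring]
    exact mul_dvd_mul (mul_dvd_mul (dvd_sub hu' hu) (dvd_sub hu'' hu)) (dvd_sub hu'' hu')
  have h6 := dvd_add h4 (h5.mul_right (c * c' * c'' * dl g0 g1 g2))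
  simpa using h6

end Pool.Agent.Lib.MP_9c5702_nt.Q4
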