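import Pool.Agent.Lib.MP_9c5702_nt.Q4.Apx

/-! The chart with weights one and four on a class modulo `3 q`. -/

set_option autoImplicit false

namespace Pool.Agent.Lib.MP_9c5702_nt.Q4

open MvPolynomial

lemma qchart_U (e P0 : V) (he : dot e P0 = 1) :
    ∃ U : V, U 0 * P0 0 ^ 2 + U 1 * P0 1 ^ 2 + U 2 * P0 2 ^ 2 = 1 := by
  obtain ⟨a, ha⟩ : ∃ a, a = e 0 * P0 0 := ⟨_, rfl⟩
  obtain ⟨b, hb⟩ : ∃ b, b = e 1 * P0 1 := ⟨_, rfl⟩
  obtain ⟨c, hc⟩ : ∃ c, c = e 2 * P0 2 := ⟨_, rfl⟩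
  have h1 : (a + b + c) ^ 4 = 1 := by
    rw [ha, hb, hc]; unfold dot at he; rw [he, one_pow]
  refine ⟨![e 0 ^ 2 * (a ^ 2 + 4 * a * b + 4 * a * c + 6 * b ^ 2 + 6 * c ^ 2 + 12 * b * c),
    e 1 ^ 2 * (b ^ 2 + 4 * a * b + 4 * b * c + 6 * c ^ 2 + 12 * a * c),
    e 2 ^ 2 * (c ^ 2 + 4 * a * c + 4 * b * c + 12 * a * b)], ?_⟩
  simp only [Matrix.cons_val_zero, Matrix.cons_val_one, Matrix.cons_val]
  rw [← h1, ha, hb, hc]
  ring

/-- the second local coordinate -/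
def qchartT (P0 z : V) : ℤ := (P0 0 ^ 2 * z 0 + P0 1 ^ 2 * z 1 + P0 2 ^ 2 * z 2) +
  3 * (P0 0 * (z 0 * z 0) + P0 1 * (z 1 * z 1) + P0 2 * (z 2 * z 2)) +
  3 * (z 0 * (z 0 * z 0) + z 1 * (z 1 * z 1) + z 2 * (z 2 * z 2))

lemma qchart_pt (n a q N : ℕ) (hn : n = a * q ^ 4) (h3 : 3 ∣ q → 9 ∣ a) (e P0 P : V)
    (he : dot e P0 = 1) (h0 : F P0 = n) (hF : F P = n) (hP : Prim P)
    (hc : Crs (3 * (q : ℤ)) P P0) :
    ∃ z : V, (∀ k, (q : ℤ) ∣ z k) ∧ (q : ℤ) ^ (N + 1) ∣ dot e z ∧ (q : ℤ) ^ 4 ∣ qchartT P0 z ∧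
      ∀ k, (q : ℤ) ^ N ∣ P k - dot e P * (P0 k + 3 * z k) := by
  obtain ⟨e', he'⟩ := hP
  have hb := crs_base hc he
  obtain ⟨l, hl⟩ : ∃ l, l = dot e P := ⟨_, rfl⟩
  rw [← hl] at hb ⊢
  have hco : IsCoprime l (3 * (q : ℤ)) := by
    obtain ⟨x0, hx0⟩ := hb 0
    obtain ⟨x1, hx1⟩ := hb 1
    obtain ⟨x2, hx2⟩ := hb 2
    refine ⟨dot e' P0, e' 0 * x0 + e' 1 * x1 + e' 2 * x2, ?_⟩
    unfold dot at he' ⊢
    linear_combination he' - e' 0 * hx0 - e' 1 * hx1 - e' 2 * hx2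
  obtain ⟨l', y, hy⟩ := hco.pow_right (n := N + 1)
  have hz : ∀ k, ∃ w : ℤ, l' * P k - P0 k = 3 * (q * w) := by
    intro k
    obtain ⟨x, hx⟩ := hb k
    refine ⟨l' * x - y * (3 * q) ^ N * P0 k, ?_⟩
    linear_combination l' * hx + P0 k * hy
  choose w hw using hz
  refine ⟨fun k => q * w k, fun k => dvd_mul_right _ _, ⟨-(y * 3 ^ N), ?_⟩, ?_, fun k => ?_⟩
  · refine mul_left_cancel₀ (by norm_num : (3 : ℤ) ≠ 0) ?_
    unfold dot at he hl ⊢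
    linear_combination hy - he - l' * hl - e 0 * hw 0 - e 1 * hw 1 - e 2 * hw 2
  · have h9 : 9 * qchartT P0 (fun k => q * w k) = (l' ^ 3 - 1) * (a * (q : ℤ) ^ 4) := by
      have hn' : (n : ℤ) = a * (q : ℤ) ^ 4 := by rw [hn]; push_cast; rfl
      have e0 : l' * P 0 = P0 0 + 3 * (q * w 0) := by linear_combination hw 0
      have e1 : l' * P 1 = P0 1 + 3 * (q * w 1) := by linear_combination hw 1
      have e2 : l' * P 2 = P0 2 + 3 * (q * w 2) := by linear_combination hw 2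
      have h4 : (l' * P 0) ^ 3 + (l' * P 1) ^ 3 + (l' * P 2) ^ 3 = l' ^ 3 * n := by
        unfold F at hF
        linear_combination l' ^ 3 * hF
      rw [e0, e1, e2] at h4
      unfold F at h0
      unfold qchartT
      linear_combination h4 - h0 + (l' ^ 3 - 1) * hn'
    by_cases hq : 3 ∣ q
    · obtain ⟨a', ha'⟩ := h3 hq
      have ha'' : (a : ℤ) = 9 * a' := by rw [ha']; push_cast; rfl
      refine ⟨(l' ^ 3 - 1) * a', mul_left_cancel₀ (by norm_num : (9 : ℤ) ≠ 0) ?_⟩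
      rw [h9, ha'']; ring
    · have h5 : IsCoprime (q : ℤ) (3 : ℕ) :=
        Nat.isCoprime_iff_coprime.2 ((Nat.prime_three.coprime_iff_not_dvd.2 hq).symm)
      have h6 : IsCoprime ((q : ℤ) ^ 4) 9 := by
        have h7 := h5.pow (m := 4) (n := 2)
        norm_num at h7 ⊢
        exact h7
      refine h6.dvd_of_dvd_mul_left ?_
      rw [h9]
      exact ((dvd_mul_left _ _).mul_left _)
  · refine ⟨y * 3 ^ (N + 1) * q * P k, ?_⟩
    linear_combination l * hw k - P k * hy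

theorem qchart (n a q B : ℕ) (hn : n = a * q ^ 4) (h3 : 3 ∣ q → 9 ∣ a) (W : Finset V)
    (hW : ∀ P ∈ W, P ∈ Sol n B) (hp : Pw (Crs (3 * (q : ℤ))) W) : Chart (q : ℤ) 4 W := by
  intro N
  rcases W.eq_empty_or_nonempty with rfl | ⟨P0, hP0⟩
  · exact ⟨0, 0, 0, 0, fun P hP => absurd hP (Finset.notMem_empty P),
      fun k => ⟨0, fun P hP => absurd hP (Finset.notMem_empty P)⟩⟩
  obtain ⟨-, h0, e, he⟩ := hW P0 hP0
  obtain ⟨U, hU⟩ := qchart_U e P0 he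
  have hz : ∀ P : V, ∃ z : V, P ∈ W → (∀ k, (q : ℤ) ∣ z k) ∧ (q : ℤ) ^ (N + 1) ∣ dot e z ∧
      (q : ℤ) ^ 4 ∣ qchartT P0 z ∧ ∀ k, (q : ℤ) ^ N ∣ P k - dot e P * (P0 k + 3 * z k) := by
    intro P
    by_cases hP : P ∈ W
    · obtain ⟨z, hz⟩ := qchart_pt n a q N hn h3 e P0 P he h0 (hW P hP).2.1 (hW P hP).2.2
        (hp P hP P0 hP0)
      exact ⟨z, fun _ => hz⟩
    · exact ⟨0, fun h => absurd h hP⟩
  choose z hz using hz
  obtain ⟨N0, hN0⟩ : ∃ N0 : V, ∀ k, N0 k = P0 k ^ 2 := ⟨fun k => P0 k ^ 2, fun _ => rfl⟩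
  obtain ⟨ρ, hρ⟩ : ∃ ρ : V, ρ = crs P0 U := ⟨_, rfl⟩
  have hco : IsCoprime (dl e N0 ρ) (q : ℤ) := by
    have hn' : (n : ℤ) = a * (q : ℤ) ^ 4 := by rw [hn]; push_cast; rfl
    refine ⟨1, dot e U * a * q ^ 3, ?_⟩
    unfold F at h0
    simp only [hρ, dot, dl, crs_0, crs_1, crs_2, hN0] at he ⊢
    linear_combination (U 0 * P0 0 ^ 2 + U 1 * P0 1 ^ 2 + U 2 * P0 2 ^ 2) * he + hU -
      (e 0 * U 0 + e 1 * U 1 + e 2 * U 2) * (h0 + hn')
  have hd : ∀ k, ∀ P ∈ W, (q : ℤ) ∣ z P k := fun k P hP => (hz P hP).1 k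
  have key : ∀ m, 1 ≤ m → m ≤ N + 1 → ∀ k, Apx (q : ℤ) m W (fun P => dot ρ (z P))
      (fun P => qchartT P0 (z P)) (fun P => z P k) := by
    intro m hm
    induction m, hm using Nat.le_induction with
    | base => exact fun _ k => apx_of_dvd fun P hP => by rw [pow_one]; exact hd k P hP
    | succ m hm ih =>
      intro hle k
      have ih' := ih (by omega)
      have s2 := fun j => (ih' j).mul_succ hm (ih' j) (hd j) (hd j)
      have s3 := fun j => (ih' j).mul_succ hm ((ih' j).mul (ih' j)) (hd j)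
        fun P hP => (hd j P hP).mul_right _
      have a1 : Apx (q : ℤ) (m + 1) W (fun P => dot ρ (z P)) (fun P => qchartT P0 (z P))
          (fun P => dot e (z P)) :=
        apx_of_dvd fun P hP => (pow_dvd_pow _ hle).trans (hz P hP).2.1
      have a2 := (apx_t.sub ((apx_const 3).mul ((((apx_const (P0 0)).mul (s2 0)).add
        ((apx_const (P0 1)).mul (s2 1))).add ((apx_const (P0 2)).mul (s2 2))))).sub
        ((apx_const 3).mul (((s3 0).add (s3 1)).add (s3 2)))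
      have a3 := ((a1.mul (apx_const (crs N0 ρ k))).add (a2.mul (apx_const (crs ρ e k)))).add
        (apx_u.mul (apx_const (crs e N0 k)))
      refine Apx.cancel hco (a3.congr fun P hP => ?_)
      have h4 : dot N0 (z P) = P0 0 ^ 2 * z P 0 + P0 1 ^ 2 * z P 1 + P0 2 ^ 2 * z P 2 := by
        simp only [dot, hN0]
      rw [cramer, h4]
      refine (dvd_zero _).trans (dvd_of_eq (Eq.symm ?_))
      unfold qchartT
      ring
  refine ⟨fun P => dot ρ (z P), fun P => qchartT P0 (z P), fun P => dot e P,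
    fun P k => P0 k + 3 * z P k, fun P hP => ⟨?_, (hz P hP).2.2.1, (hz P hP).2.2.2⟩, fun k => ?_⟩
  · exact dvd_add (dvd_add ((hd 0 P hP).mul_left _) ((hd 1 P hP).mul_left _))
      ((hd 2 P hP).mul_left _)
  · exact (apx_const (P0 k)).add ((apx_const 3).mul
      ((key (N + 1) (by omega) le_rfl k).mono (Nat.le_succ N)))

end Pool.Agent.Lib.MP_9c5702_nt.Q4
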