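import Pool.Agent.Lib.MP_9c5702_nt.Q4.Hom
import Pool.Agent.Lib.MP_9c5702_nt.Q4.Ker
import Pool.Agent.Lib.MP_9c5702_nt.Q4.QChart
import Pool.Agent.Lib.MP_9c5702_nt.Q4.L1Chart

/-! A form of bounded degree vanishes on a class. -/

set_option autoImplicit false

namespace Pool.Agent.Lib.MP_9c5702_nt.Q4

open MvPolynomial

lemma form_num (n a q B l D s w v : ℕ) (hn : n = a * q ^ 4) (hq : 1 ≤ q) (hB : B ^ 3 ≤ n)
    (hs : 1 ≤ s) (hbig : s ^ 3 * a ^ D * q ^ 4 < l ^ (2 * D)) (hw : 4 * D * s ≤ 3 * w + 4 * s)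
    (hv : 3 * v = 2 * D * s) : s ^ s * (B ^ D) ^ s < q ^ w * l ^ v := by
  refine lt_of_pow_lt_pow_left₀ 3 (Nat.zero_le _) ?_
  have h1 : (B ^ 3) ^ (D * s) ≤ (a * q ^ 4) ^ (D * s) := Nat.pow_le_pow_left (hn ▸ hB) _
  have h2 : q ^ (4 * D * s) ≤ q ^ (3 * w + 4 * s) := Nat.pow_le_pow_right hq hw
  have h3 : (s ^ 3 * a ^ D * q ^ 4) ^ s < (l ^ (2 * D)) ^ s :=
    Nat.pow_lt_pow_left hbig (by omega)
  have h4 : 0 < q ^ (3 * w) := Nat.pow_pos hq
  calc (s ^ s * (B ^ D) ^ s) ^ 3 = s ^ (3 * s) * (B ^ 3) ^ (D * s) := by ring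
    _ ≤ s ^ (3 * s) * (a * q ^ 4) ^ (D * s) := Nat.mul_le_mul_left _ h1
    _ = s ^ (3 * s) * a ^ (D * s) * q ^ (4 * D * s) := by ring
    _ ≤ s ^ (3 * s) * a ^ (D * s) * q ^ (3 * w + 4 * s) := Nat.mul_le_mul_left _ h2
    _ = q ^ (3 * w) * (s ^ 3 * a ^ D * q ^ 4) ^ s := by ring
    _ < q ^ (3 * w) * (l ^ (2 * D)) ^ s := Nat.mul_lt_mul_of_pos_left h3 h4
    _ = (q ^ w * l ^ v) ^ 3 := by
        rw [mul_pow, ← pow_mul l v 3, mul_comm v 3, hv, ← pow_mul l, ← pow_mul q, mul_comm w 3]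

lemma form_card (D s : ℕ) (hs : 2 * s = (D + 1) * (D + 2)) :
    ((Finset.univ : Finset (Fin 3)).finsuppAntidiag D).card = s := by
  rw [Finset.card_finsuppAntidiag_nat_eq_choose]
  have h1 : (Finset.univ : Finset (Fin 3)).card + D - 1 = D + 2 := by
    rw [Finset.card_univ, Fintype.card_fin]; omega
  rw [h1, ← Nat.choose_symm (by omega : D ≤ D + 2), (by omega : D + 2 - D = 2),
    Nat.choose_two_right, (by omega : D + 2 - 1 = D + 1), mul_comm, ← hs]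
  omega

lemma form_deg (D : ℕ) (d : Fin 3 →₀ ℕ)
    (hd : d ∈ (Finset.univ : Finset (Fin 3)).finsuppAntidiag D) : d.degree = D := by
  rw [Finsupp.degree_eq_sum]
  exact (Finset.mem_finsuppAntidiag.1 hd).1

lemma form_mon_le (D B : ℕ) (d : Fin 3 →₀ ℕ)
    (hd : d ∈ (Finset.univ : Finset (Fin 3)).finsuppAntidiag D) (P : V)
    (hP : ∀ k, 0 < P k ∧ P k ≤ B) :
    |eval P (monomial d (1 : ℤ))| ≤ ((B ^ D : ℕ) : ℤ) := by
  have h1 : ∑ k, d k = D := (Finset.mem_finsuppAntidiag.1 hd).1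
  rw [eval_monomial, one_mul, Finsupp.prod_fintype _ _ (fun i => pow_zero _), Finset.abs_prod,
    ← h1, Nat.cast_pow, ← Finset.prod_pow_eq_pow_sum]
  refine Finset.prod_le_prod (fun _ _ => abs_nonneg _) (fun k _ => ?_)
  rw [abs_pow, abs_of_pos (hP k).1]
  exact pow_le_pow_left₀ (hP k).1.le (hP k).2 _

theorem form_exists (n a q B l D s : ℕ) (hn : n = a * q ^ 4) (hq : 1 ≤ q) (h3 : 3 ∣ q → 9 ∣ a)
    (hB : B ^ 3 ≤ n) (hl : l.Prime) (hlq : ¬ l ∣ q) (hD : 1 ≤ D)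
    (hs : 2 * s = (D + 1) * (D + 2)) (hbig : s ^ 3 * a ^ D * q ^ 4 < l ^ (2 * D))
    (W : Finset V) (hW : ∀ P ∈ W, P ∈ Sol n B) (hp : Pw (Crs (3 * (q : ℤ))) W)
    (hp' : Pw (Crs (l : ℤ)) W) :
    ∃ G : MvPolynomial (Fin 3) ℤ, G ≠ 0 ∧ G.IsHomogeneous D ∧ ∀ P ∈ W, eval P G = 0 := by
  classical
  have hs1 : 1 ≤ s := by nlinarith
  obtain ⟨w, hw1, hw2⟩ := w4 D s hs
  obtain ⟨v, hv1, hv2⟩ := w1 D s hs
  have hcard : Fintype.card ((Finset.univ : Finset (Fin 3)).finsuppAntidiag D) = s := by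
    rw [Fintype.card_coe]; exact form_card D s hs
  have : Nonempty ((Finset.univ : Finset (Fin 3)).finsuppAntidiag D) :=
    Fintype.card_pos_iff.1 (by omega)
  have hC4 := qchart n a q B hn h3 W hW hp
  have hC1 := l1chart l hl W (fun P hP => (hW P hP).2.2) hp'
  have hhom : ∀ r : (Finset.univ : Finset (Fin 3)).finsuppAntidiag D,
      (monomial r.1 (1 : ℤ)).IsHomogeneous D :=
    fun r => isHomogeneous_monomial 1 (form_deg D r.1 r.2)
  have hco : IsCoprime ((q : ℤ) ^ w) ((l : ℤ) ^ v) :=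
    (Nat.isCoprime_iff_coprime.2 ((hl.coprime_iff_not_dvd.2 hlq).symm)).pow
  obtain ⟨c, hc0, hc⟩ := ker_of_det (ι := (Finset.univ : Finset (Fin 3)).finsuppAntidiag D) W
    (fun P r => eval P (monomial r.1 (1 : ℤ))) (fun p hpW => by
      have d4 := homdet (q : ℤ) 4 (by norm_num) W hC4 D (fun r => monomial r.1 (1 : ℤ)) hhom p hpW
        w (2 * D) (by rw [hcard]; exact hw2)
      have d1 := homdet (l : ℤ) 1 le_rfl W hC1 D (fun r => monomial r.1 (1 : ℤ)) hhom p hpW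
        v D (by rw [hcard]; exact hv2)
      refine Int.eq_zero_of_abs_lt_dvd (hco.mul_dvd d4 d1) ?_
      refine lt_of_le_of_lt (det_le_rows _ (fun _ => B ^ D) (fun r i => ?_)) ?_
      · exact form_mon_le D B r.1 r.2 (p i) (hW _ (hpW i)).1
      · rw [Finset.prod_const, Finset.card_univ, hcard]
        exact_mod_cast form_num n a q B l D s w v hn hq hB hs1 hbig hw1 hv1)
  refine ⟨∑ r : (Finset.univ : Finset (Fin 3)).finsuppAntidiag D, C (c r) * monomial r.1 1,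
    fun h0 => hc0 (funext fun r => ?_), ?_, fun P hP => ?_⟩
  · have h1 := congrArg (coeff r.1) h0
    rw [coeff_sum, Finset.sum_eq_single r, coeff_C_mul, coeff_monomial, if_pos rfl, mul_one,
      coeff_zero] at h1
    · exact h1
    · intro r' _ hne
      rw [coeff_C_mul, coeff_monomial, if_neg (fun h => hne (Subtype.ext h)), mul_zero]
    · intro h; exact absurd (Finset.mem_univ r) h
  · exact IsHomogeneous.sum _ _ _ (fun r _ => (hhom r).C_mul _)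
  · rw [map_sum, ← hc P hP]
    exact Finset.sum_congr rfl (fun r _ => by rw [map_mul, eval_C])

end Pool.Agent.Lib.MP_9c5702_nt.Q4
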