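import Pool.Agent.Lib.MP_9c5702_nt.Q4.QCovP

/-! Projective classes modulo `3 q` and modulo a prime. -/

set_option autoImplicit false

namespace Pool.Agent.Lib.MP_9c5702_nt.Q4

theorem qcov (n a q B T : ℕ) (hn : n = a * q ^ 4) (ha : 1 ≤ a) (hq : 1 ≤ q)
    (h3 : 3 ∣ q → 9 ∣ a) (hT : TB n T) :
    Cov (Sol n B) (Crs (3 * (q : ℤ))) (3 * q * T ^ 4) := by
  have hm : 3 * q ≠ 0 := by omega
  have hqn : q ∣ n := by rw [hn]; exact Dvd.dvd.mul_left (dvd_pow_self q (by norm_num)) a
  have hn1 : 1 ≤ n := by rw [hn]; exact Nat.mul_pos ha (Nat.pow_pos hq)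
  have key := cov_prod (Z := Sol n B) (fun m => Crs (m : ℤ)) (fun P P' i j => by simp)
    (fun m m' hc P P' h h' i j => by
      push_cast
      exact (Nat.isCoprime_iff_coprime.2 hc).mul_dvd (h i j) (h' i j))
    (3 * q).primeFactors (fun p hp => Nat.prime_of_mem_primeFactors hp) (3 * q).factorization
    (fun p => 9 * p ^ (3 * q).factorization p) (by
      intro p hp
      have hpp := Nat.prime_of_mem_primeFactors hp
      have hd : p ^ (3 * q).factorization p ∣ 3 * q := Nat.ordProj_dvd _ _
      refine qcov_prime n B p _ hpp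
        (hpp.factorization_pos_of_dvd hm (Nat.dvd_of_mem_primeFactors hp)) ?_
      by_cases h : p = 3
      · subst h
        right
        by_cases h' : 3 ∣ q
        · left
          refine ⟨rfl, ?_⟩
          have h1 : 3 ^ ((3 * q).factorization 3 + 1) ∣ 9 * q := by
            rw [pow_succ, show 9 * q = 3 * q * 3 by ring]
            exact Nat.mul_dvd_mul_right hd 3
          rw [hn]
          exact h1.trans (Nat.mul_dvd_mul (h3 h') (dvd_pow_self q (by norm_num)))
        · right
          refine ⟨rfl, ?_⟩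
          rw [Nat.factorization_mul (by norm_num) (by omega), Finsupp.add_apply,
            Nat.prime_three.factorization_self, Nat.factorization_eq_zero_of_not_dvd h']
      · left
        refine ⟨h, dvd_trans ?_ hqn⟩
        exact (Nat.Coprime.pow_left _ ((Nat.coprime_primes hpp Nat.prime_three).2 h)).dvd_of_dvd_mul_left hd)
  have e1 : ∏ p ∈ (3 * q).primeFactors, p ^ (3 * q).factorization p = 3 * q :=
    Nat.prod_factorization_pow_eq_self hm
  rw [Finset.prod_mul_distrib, Finset.prod_const, e1] at key
  refine cov_mono key (fun _ h => h) (fun P _ P' _ h => by exact_mod_cast h) ?_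
  have h1 := omega_le (3 * q) hm
  have h2 : (3 * q).divisors.card ≤ T := by
    refine hT _ (by omega) ?_
    have := Nat.le_of_dvd hn1 hqn
    exact le_trans (by omega) (Nat.le_self_pow (by norm_num) (4 * n))
  rw [mul_comm]
  refine Nat.mul_le_mul_left _ ?_
  calc 9 ^ (3 * q).primeFactors.card ≤ (2 ^ 4) ^ (3 * q).primeFactors.card :=
        Nat.pow_le_pow_left (by norm_num) _
    _ = (2 ^ (3 * q).primeFactors.card) ^ 4 := by rw [← pow_mul, ← pow_mul, mul_comm]
    _ ≤ T ^ 4 := Nat.pow_le_pow_left (h1.trans h2) 4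

theorem l1cov (l : ℕ) (hl : l.Prime) : Cov {P : V | Prim P} (Crs (l : ℤ)) (3 * l ^ 2) := by
  haveI : Fact l.Prime := ⟨hl⟩
  have key := cov_union (Z := {P : V | Prim P}) (r := Crs (l : ℤ)) (N := l ^ 2)
    (Finset.univ : Finset (Fin 3)) (fun k => {P : V | ((P k : ℤ) : ZMod l) ≠ 0}) (by
      rintro P ⟨e, he⟩
      by_contra h
      push Not at h
      have h0 : ∀ k, ((P k : ℤ) : ZMod l) = 0 := fun k => by
        simpa using h k (Finset.mem_univ _)
      have := congrArg (Int.cast : ℤ → ZMod l) he
      simp [dot, h0] at this) (by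
      intro k _
      obtain ⟨i, j, hij, hik, hjk⟩ := other_two k
      have := cov_label (Z := {P : V | ((P k : ℤ) : ZMod l) ≠ 0}) (r := Crs (l : ℤ))
        (Finset.univ : Finset (ZMod l × ZMod l))
        (fun P => (((P i : ℤ) : ZMod l) / (P k : ℤ), ((P j : ℤ) : ZMod l) / (P k : ℤ)))
        (fun _ _ => Finset.mem_univ _) (by
          intro P hP P' hP' h a b
          have hk : ((P k : ℤ) : ZMod l) ≠ 0 := hP
          have hk' : ((P' k : ℤ) : ZMod l) ≠ 0 := hP'
          have e : (fun m => ((P m : ℤ) : ZMod l) / (P k : ℤ)) =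
              fun m => ((P' m : ℤ) : ZMod l) / (P' k : ℤ) :=
            vec_ext_perm hij hik hjk (congrArg Prod.fst h) (congrArg Prod.snd h)
              (by rw [div_self hk, div_self hk'])
          have ea := (div_eq_div_iff hk hk').1 (congrFun e a)
          have eb := (div_eq_div_iff hk hk').1 (congrFun e b)
          rw [← ZMod.intCast_zmod_eq_zero_iff_dvd]
          push_cast
          refine mul_left_cancel₀ hk' ?_
          linear_combination ((P' b : ℤ) : ZMod l) * ea - ((P' a : ℤ) : ZMod l) * eb)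
      simpa [ZMod.card, sq] using this)
  simpa using key

end Pool.Agent.Lib.MP_9c5702_nt.Q4
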