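import Pool.Agent.Lib.MP_9c5702_nt.Q4.Plane
import Pool.Agent.Lib.MP_9c5702_nt.Q4.Curve
import Pool.Agent.Lib.MP_9c5702_nt.Q4.Form
import Pool.Agent.Lib.MP_9c5702_nt.Q4.QCov

/-! The count of primitive solutions with all parameters explicit. -/

set_option autoImplicit false

namespace Pool.Agent.Lib.MP_9c5702_nt.Q4

private lemma core_lt {Y L K E R : ℕ} (hY : Y ≤ L ^ 2) (hR : R < Y ^ E) (hK : 2 * E ≤ K)
    (hL : 1 ≤ L) : R < L ^ K :=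
  calc R < Y ^ E := hR
    _ ≤ (L ^ 2) ^ E := Nat.pow_le_pow_left hY E
    _ = L ^ (2 * E) := by rw [← pow_mul]
    _ ≤ L ^ K := Nat.pow_le_pow_right hL hK

private lemma core_Hd {D B Y κ : ℕ} (hY : (D + 1) ^ 3 ≤ Y) (hB : B ≤ Y ^ κ) :
    Hd D B ≤ Y ^ ((κ * D + 1) * ((D + 1) ^ 3 + 2)) := by
  unfold Hd
  rw [pow_mul]
  refine Nat.pow_le_pow_left ?_ _
  calc (D + 1) ^ 3 * B ^ D ≤ Y * (Y ^ κ) ^ D := Nat.mul_le_mul hY (Nat.pow_le_pow_left hB D)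
    _ = Y ^ (κ * D + 1) := by rw [← pow_mul]; ring

theorem core (κ : ℕ) : ∃ C Y0 : ℕ, ∀ n a q B Y T L L1 : ℕ, n = a * q ^ 4 → 1 ≤ a → 1 ≤ q →
    (3 ∣ q → 9 ∣ a) → 1 ≤ B → B ^ 3 ≤ n → Y0 ≤ Y → n ≤ Y ^ κ → TB n T → a * Y ≤ L1 ^ 2 →
    256 * (a * q) * Y ^ 3 ≤ L ^ 6 → ∀ W : Finset V, (∀ P ∈ W, P ∈ Sol n B) →
    W.card ≤ C * q * L1 ^ 2 * L * T ^ 7 := by
  obtain ⟨D, hD⟩ : ∃ D, D = 4 * κ + 1 := ⟨_, rfl⟩
  obtain ⟨s, hs⟩ : ∃ s, 2 * s = (D + 1) * (D + 2) := by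
    obtain ⟨s, hs⟩ := Nat.even_mul_succ_self (D + 1)
    exact ⟨s, by rw [two_mul]; exact hs.symm⟩
  obtain ⟨E, hE⟩ : ∃ E, E = (κ * D + 1) * ((D + 1) ^ 3 + 2) + (κ + 1) := ⟨_, rfl⟩
  obtain ⟨K, hK⟩ : ∃ K, K = 2 * E := ⟨_, rfl⟩
  refine ⟨9 * (2 ^ K) ^ 2 * (D * (K * (6 * D * 2 ^ K * (36 * κ + 54)))),
    (6 * κ + 3) ^ 4 + s ^ 3 + (D + 1) ^ 3 + 4, ?_⟩
  intro n a q B Y T L L1 hn ha hq h3 hB1 hB hY hnY hT hL1 hL W hW
  have hpar : Par n B κ Y T := ⟨hB1, hB, hnY, by omega, hT⟩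
  have hn1 := hpar.n1
  have hY4 : 4 ≤ Y := by omega
  have haq : 1 ≤ a * q := Nat.mul_pos ha hq
  have hYL : Y ≤ L ^ 2 := by
    have h1 : Y ^ 3 ≤ (L ^ 2) ^ 3 := by
      calc Y ^ 3 = 1 * Y ^ 3 := (one_mul _).symm
        _ ≤ 256 * (a * q) * Y ^ 3 := Nat.mul_le_mul_right _ (by omega)
        _ ≤ L ^ 6 := hL
        _ = (L ^ 2) ^ 3 := by ring
    exact (Nat.pow_le_pow_iff_left (by norm_num)).1 h1
  have hYL1 : Y ≤ L1 ^ 2 := le_trans (Nat.le_mul_of_pos_left Y ha) hL1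
  have hLpos : 1 ≤ L := by
    rcases Nat.eq_zero_or_pos L with rfl | h
    · simp at hYL; omega
    · exact h
  have hL1pos : 1 ≤ L1 := by
    rcases Nat.eq_zero_or_pos L1 with rfl | h
    · simp at hYL1; omega
    · exact h
  have hYκ : 1 ≤ Y ^ κ := Nat.one_le_pow _ _ (by omega)
  have h3n : 3 * n < Y ^ (κ + 1) := by
    rw [pow_succ]
    nlinarith
  have hbigL : 3 * n * Hd D B < L ^ K := by
    refine core_lt hYL ?_ hK.ge hLpos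
    have h1 := core_Hd (D := D) (by omega : (D + 1) ^ 3 ≤ Y) hpar.BY
    have h2 : 0 < Y ^ ((κ * D + 1) * ((D + 1) ^ 3 + 2)) := Nat.pow_pos (by omega)
    calc 3 * n * Hd D B ≤ 3 * n * Y ^ ((κ * D + 1) * ((D + 1) ^ 3 + 2)) := Nat.mul_le_mul_left _ h1
      _ < Y ^ (κ + 1) * Y ^ ((κ * D + 1) * ((D + 1) ^ 3 + 2)) := Nat.mul_lt_mul_of_pos_right h3n h2
      _ = Y ^ E := by rw [hE, ← pow_add, add_comm]
  have hqn : q ≤ n := by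
    rw [hn]
    calc q ≤ q ^ 4 := Nat.le_self_pow (by norm_num) q
      _ ≤ a * q ^ 4 := Nat.le_mul_of_pos_left _ ha
  have hqL1 : q < L1 ^ K := by
    refine core_lt (E := κ + 1) hYL1 (by omega) (by omega) hL1pos
  obtain ⟨S1, hS1, hS1p⟩ := primes_list L1 K hL1pos
  obtain ⟨l1, hl1S, hl1q⟩ := avoid L1 K S1 hS1 (fun l hl => ⟨(hS1p l hl).1, (hS1p l hl).2.1⟩)
    (q : ℤ) (by exact_mod_cast (by omega : q ≠ 0)) (by rw [Nat.abs_cast]; exact_mod_cast hqL1)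
  obtain ⟨hl1p, hl1L, hl1U⟩ := hS1p l1 hl1S
  have hl1q' : ¬ l1 ∣ q := fun h => hl1q (Int.natCast_dvd_natCast.2 h)
  have hbig : s ^ 3 * a ^ D * q ^ 4 < l1 ^ (2 * D) := by
    have h1 : q ^ 4 ≤ (Y ^ κ) ^ 4 := Nat.pow_le_pow_left (hqn.trans hnY) 4
    have h2 : s ^ 3 < Y := by omega
    have h4 : 0 < a ^ D * (Y ^ κ) ^ 4 := by positivity
    calc s ^ 3 * a ^ D * q ^ 4 ≤ s ^ 3 * a ^ D * (Y ^ κ) ^ 4 := Nat.mul_le_mul_left _ h1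
      _ = s ^ 3 * (a ^ D * (Y ^ κ) ^ 4) := by ring
      _ < Y * (a ^ D * (Y ^ κ) ^ 4) := Nat.mul_lt_mul_of_pos_right h2 h4
      _ = (a * Y) ^ D := by rw [mul_pow, hD]; ring
      _ ≤ (L1 ^ 2) ^ D := Nat.pow_le_pow_left hL1 D
      _ ≤ (l1 ^ 2) ^ D := Nat.pow_le_pow_left (Nat.pow_le_pow_left hl1L.le 2) D
      _ = l1 ^ (2 * D) := by rw [← pow_mul]
  obtain ⟨S, hS, hSp⟩ := primes_list L K hLpos
  have hc1 := qcov n a q B T hn ha hq h3 hT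
  have hc2 : Cov (Sol n B) (Crs (l1 : ℤ)) (3 * l1 ^ 2) :=
    cov_mono (l1cov l1 hl1p) (fun P hP => hP.2.2) (fun _ _ _ _ h => h) le_rfl
  have hmain := cov_and hc1 hc2 W (D * (K * (6 * D * (2 ^ K * L) * ((36 * κ + 54) * T ^ 3)))) hW
    (by
      intro W' hW' hp
      have hWs : ∀ P ∈ W', P ∈ Sol n B := fun P hP => hW P (hW' hP)
      have hp1 : Pw (Crs (3 * (q : ℤ))) W' := fun P hP P' hP' => (hp P hP P' hP').1
      have hp2 : Pw (Crs (l1 : ℤ)) W' := fun P hP P' hP' => (hp P hP P' hP').2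
      obtain ⟨G, hG0, hG, h0⟩ :=
        form_exists n a q B l1 D s hn hq h3 hB hl1p hl1q' (by omega) hs hbig W' hWs hp1 hp2
      refine curve n B D L K _ (2 ^ K * L) S hS hSp hn1 hB1 hbigL W' hWs ?_ G hG0 hG h0
      intro l hl hln W'' hW'' hC
      refine plane n a q B κ Y T l hpar hn hq h3 (hSp l hl).1 hln ?_ W''
        (fun P hP => hWs P (hW'' hP)) (hp1.mono hW'') hC
      exact hL.trans (Nat.pow_le_pow_left (hSp l hl).2.1.le 6))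
  refine hmain.trans ?_
  have h5 : l1 ^ 2 ≤ (2 ^ K * L1) ^ 2 := Nat.pow_le_pow_left hl1U 2
  calc 3 * q * T ^ 4 * (3 * l1 ^ 2) * (D * (K * (6 * D * (2 ^ K * L) * ((36 * κ + 54) * T ^ 3))))
      ≤ 3 * q * T ^ 4 * (3 * (2 ^ K * L1) ^ 2) *
        (D * (K * (6 * D * (2 ^ K * L) * ((36 * κ + 54) * T ^ 3)))) := by gcongr
    _ = _ := by ring

end Pool.Agent.Lib.MP_9c5702_nt.Q4
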