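import Pool.Agent.Lib.MP_9c5702_nt.Q4.Core
import Pool.Agent.Lib.MP_9c5702_nt.Q4.Tau

/-! The count of primitive solutions. -/

set_option autoImplicit false

namespace Pool.Agent.Lib.MP_9c5702_nt.Q4

theorem core2 (ε : ℝ) (hε : 0 < ε) : ∃ C : ℝ, 0 < C ∧ ∀ a q B : ℕ, 1 ≤ a → 1 ≤ q →
    (3 ∣ q → 9 ∣ a) → B ^ 3 ≤ a * q ^ 4 → ∀ W : Finset V, (∀ P ∈ W, P ∈ Sol (a * q ^ 4) B) →
    (W.card : ℝ) ≤ C * ((a * q : ℕ) : ℝ) ^ ((7 : ℝ) / 6 + ε) := by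
  obtain ⟨δ, hδ, rfl⟩ : ∃ δ : ℝ, 0 < δ ∧ ε = 9 * δ := ⟨ε / 9, by positivity, by ring⟩
  obtain ⟨κ, hκ⟩ := exists_nat_ge (4 / δ)
  have hκ' : 4 ≤ δ * κ := by rwa [div_le_iff₀' hδ] at hκ
  obtain ⟨C, Y0, hC⟩ := core κ
  obtain ⟨Cd, hCd1, hCd⟩ := divisor_bound (show 0 < δ / 240 by positivity)
  set E : ℝ := Cd * 4 ^ (δ / 4) with hE
  have hE0 : 0 < E := by positivity
  refine ⟨16 * C * ((Y0 : ℝ) + 2) ^ 2 * (E + 1) ^ 7 + 1, by positivity, ?_⟩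
  intro a q B ha hq h3 hB W hW
  have haq : 1 ≤ a * q := Nat.mul_pos ha hq
  set X : ℝ := ((a * q : ℕ) : ℝ) with hX
  have hX1 : 1 ≤ X := by rw [hX]; exact_mod_cast haq
  have hX0 : 0 < X := by linarith
  rcases W.eq_empty_or_nonempty with rfl | ⟨P, hP⟩
  · simp only [Finset.card_empty, Nat.cast_zero]; positivity
  have hB1 : 1 ≤ B := by
    have h1 := ((hW P hP).1 0).1
    have h2 := ((hW P hP).1 0).2
    omega
  have hn : ((a * q ^ 4 : ℕ) : ℝ) ≤ X ^ 4 := by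
    rw [hX]
    exact_mod_cast (by
      rw [mul_pow]
      exact Nat.mul_le_mul_right _ (Nat.le_self_pow (by norm_num) a) : a * q ^ 4 ≤ (a * q) ^ 4)
  set Z : ℝ := X ^ δ with hZ
  have hZ1 : 1 ≤ Z := Real.one_le_rpow hX1 hδ.le
  set S : ℝ := X ^ ((1 : ℝ) / 6) with hS
  have hS1 : 1 ≤ S := Real.one_le_rpow hX1 (by norm_num)
  have hS6 : S ^ 6 = X := by
    rw [hS, ← Real.rpow_natCast, ← Real.rpow_mul hX0.le]; norm_num
  set Y : ℕ := Y0 + ⌈Z⌉₊ with hY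
  have hY0 : (0 : ℝ) ≤ Y0 := Nat.cast_nonneg _
  have hYZ : Z ≤ Y := by
    rw [hY]; push_cast; linarith [Nat.le_ceil Z]
  have hYle : (Y : ℝ) ≤ (Y0 + 2) * Z := by
    rw [hY]; push_cast
    have := Nat.ceil_lt_add_one (show 0 ≤ Z by linarith)
    nlinarith
  have hY1 : (1 : ℝ) ≤ Y := hZ1.trans hYZ
  have hY1' : 1 ≤ Y := by exact_mod_cast hY1
  have hnY : a * q ^ 4 ≤ Y ^ κ := by
    have h1 : X ^ 4 ≤ Z ^ κ := by
      rw [hZ, ← Real.rpow_natCast, ← Real.rpow_natCast, ← Real.rpow_mul hX0.le]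
      exact Real.rpow_le_rpow_of_exponent_le hX1 (by exact_mod_cast hκ')
    have h2 : Z ^ κ ≤ (Y : ℝ) ^ κ := pow_le_pow_left₀ (by linarith) hYZ κ
    exact_mod_cast (hn.trans h1).trans h2
  set T : ℕ := ⌈E * Z⌉₊ with hT
  have hTle : (T : ℝ) ≤ (E + 1) * Z := by
    have := Nat.ceil_lt_add_one (show 0 ≤ E * Z by positivity)
    rw [hT]; nlinarith
  have hTB : TB (a * q ^ 4) T := by
    intro R hR1 hR
    have h1 : (R : ℝ) ≤ (4 * X ^ 4) ^ 60 := by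
      have h2 : (R : ℝ) ≤ (4 * ((a * q ^ 4 : ℕ) : ℝ)) ^ 60 := by exact_mod_cast hR
      exact h2.trans (pow_le_pow_left₀ (by positivity) (by linarith) 60)
    have h2 : (R : ℝ) ^ (δ / 240) ≤ 4 ^ (δ / 4) * Z := by
      refine (Real.rpow_le_rpow (Nat.cast_nonneg _) h1 (by positivity)).trans (le_of_eq ?_)
      rw [← Real.rpow_natCast, ← Real.rpow_mul (by positivity), Real.mul_rpow (by norm_num)
        (by positivity), ← Real.rpow_natCast X, ← Real.rpow_mul hX0.le, hZ]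
      congr 2 <;> push_cast <;> ring
    have h4 : (R.divisors.card : ℝ) ≤ E * Z := by
      refine (hCd R (by omega)).trans ?_
      rw [hE, mul_assoc]
      exact mul_le_mul_of_nonneg_left h2 (by linarith)
    exact_mod_cast h4.trans (Nat.le_ceil _)
  set L1 : ℕ := Nat.sqrt (a * Y) + 1 with hL1
  have hL1a : a * Y ≤ L1 ^ 2 := (Nat.lt_succ_sqrt' _).le
  have hL1b : L1 ^ 2 ≤ 4 * (a * Y) := by
    have h1 := Nat.sqrt_le' (a * Y)
    have h2 : 1 ≤ Nat.sqrt (a * Y) := Nat.sqrt_pos.2 (Nat.mul_pos ha hY1')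
    rw [hL1]; nlinarith
  set L : ℕ := ⌈3 * S * Y⌉₊ with hL
  have hSY : 1 ≤ S * Y := one_le_mul_of_one_le_of_one_le hS1 hY1
  have hLle : (L : ℝ) ≤ 4 * S * Y := by
    have := Nat.ceil_lt_add_one (show 0 ≤ 3 * S * Y by positivity)
    rw [hL]; nlinarith
  have hL6 : 256 * (a * q) * Y ^ 3 ≤ L ^ 6 := by
    have h1 : (3 * S * Y) ^ 6 ≤ (L : ℝ) ^ 6 := pow_le_pow_left₀ (by positivity) (Nat.le_ceil _) 6
    have h2 : (Y : ℝ) ^ 3 ≤ (Y : ℝ) ^ 6 := pow_le_pow_right₀ hY1 (by norm_num)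
    have h4 : 256 * X * (Y : ℝ) ^ 3 ≤ (3 * S * Y) ^ 6 := by
      rw [mul_pow, mul_pow, hS6]
      gcongr
      norm_num
    have h5 := h4.trans h1
    rw [hX] at h5
    exact_mod_cast h5
  have hmain := hC _ a q B Y T L L1 rfl ha hq h3 hB1 hB (Nat.le_add_right _ _) hnY hTB hL1a hL6
    W hW
  have h1 : (W.card : ℝ) ≤ C * q * ((L1 ^ 2 : ℕ) : ℝ) * L * (T : ℝ) ^ 7 := by exact_mod_cast hmain
  have h2 : ((L1 ^ 2 : ℕ) : ℝ) ≤ 4 * (a * Y) := by exact_mod_cast hL1b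
  have h4 : X ^ ((7 : ℝ) / 6 + 9 * δ) = X * S * Z ^ 9 := by
    rw [hS, hZ, ← Real.rpow_natCast, ← Real.rpow_mul hX0.le,
      show (7 : ℝ) / 6 + 9 * δ = 1 + 1 / 6 + δ * (9 : ℕ) by push_cast; ring,
      Real.rpow_add hX0, Real.rpow_add hX0, Real.rpow_one]
  have hXe : X = a * q := by rw [hX]; push_cast; ring
  calc (W.card : ℝ) ≤ C * q * (4 * (a * ((Y0 + 2) * Z))) * (4 * S * ((Y0 + 2) * Z)) *
        ((E + 1) * Z) ^ 7 := by
        refine h1.trans ?_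
        gcongr
        · exact h2.trans (by gcongr)
        · exact hLle.trans (by gcongr)
    _ = 16 * C * ((Y0 : ℝ) + 2) ^ 2 * (E + 1) ^ 7 * (X * S * Z ^ 9) := by
        conv_rhs => rw [hXe]
        ring
    _ ≤ _ := by
        rw [h4]
        gcongr
        linarith

end Pool.Agent.Lib.MP_9c5702_nt.Q4
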