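import Mathlib

/-! Determinant method for `x^3 + y^3 + z^3 = a q^4`: basic notions. -/

set_option autoImplicit false

namespace Pool.Agent.Lib.MP_9c5702_nt.Q4

open MvPolynomial

abbrev V := Fin 3 → ℤ

def dot (a b : V) : ℤ := a 0 * b 0 + a 1 * b 1 + a 2 * b 2

def crs (a b : V) : V := ![a 1 * b 2 - a 2 * b 1, a 2 * b 0 - a 0 * b 2, a 0 * b 1 - a 1 * b 0]

@[simp] lemma crs_0 (a b : V) : crs a b 0 = a 1 * b 2 - a 2 * b 1 := rfl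
@[simp] lemma crs_1 (a b : V) : crs a b 1 = a 2 * b 0 - a 0 * b 2 := rfl
@[simp] lemma crs_2 (a b : V) : crs a b 2 = a 0 * b 1 - a 1 * b 0 := rfl

/-- the determinant with rows `w, P, Q` -/
def dl (w P Q : V) : ℤ := dot w (crs P Q)

def F (P : V) : ℤ := P 0 ^ 3 + P 1 ^ 3 + P 2 ^ 3

def Prim (P : V) : Prop := ∃ e : V, dot e P = 1

/-- primitive solutions with coordinates in `[1, B]` -/
def Sol (n B : ℕ) : Set V := {P | (∀ k, 0 < P k ∧ P k ≤ B) ∧ F P = n ∧ Prim P}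

/-- the same projective point modulo `m` -/
def Crs (m : ℤ) (P P' : V) : Prop := ∀ i j, m ∣ P i * P' j - P j * P' i

/-- the same affine point modulo `m` -/
def Cong (m : ℤ) (P P' : V) : Prop := ∀ k, m ∣ P k - P' k

def Pw {α : Type} (r : α → α → Prop) (W : Finset α) : Prop := ∀ P ∈ W, ∀ P' ∈ W, r P P'

/-- counting form of: `Z` is covered by `N` sets of pairwise related points -/
def Cov {α : Type} (Z : Set α) (r : α → α → Prop) (N : ℕ) : Prop :=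
  ∀ (W : Finset α) (K : ℕ), (∀ P ∈ W, P ∈ Z) →
    (∀ W' : Finset α, W' ⊆ W → Pw r W' → W'.card ≤ K) → W.card ≤ N * K

/-- on `W`, `f` is a fixed integer polynomial in `u, t` modulo `π ^ m` -/
def Apx {α : Type} (π : ℤ) (m : ℕ) (W : Finset α) (u t f : α → ℤ) : Prop :=
  ∃ g : MvPolynomial (Fin 2) ℤ, ∀ P ∈ W, π ^ m ∣ f P - eval ![u P, t P] g

/-- projective chart with local coordinates of weights `1` and `b` -/
def Chart (π : ℤ) (b : ℕ) (W : Finset V) : Prop :=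
  ∀ N : ℕ, ∃ u t c : V → ℤ, ∃ Pt : V → V,
    (∀ P ∈ W, π ∣ u P ∧ π ^ b ∣ t P ∧ ∀ k, π ^ N ∣ P k - c P * Pt P k) ∧
      ∀ k, Apx π N W u t (fun P => Pt P k)

/-- affine chart with one local coordinate -/
def AChart (π : ℤ) (W : Finset V) : Prop :=
  ∀ N : ℕ, ∃ u : V → ℤ, (∀ P ∈ W, π ∣ u P) ∧ ∀ k, Apx π N W u (fun _ => 0) (fun P => P k)

/-- on `W`, `f` is an integer polynomial in the coordinates modulo every power of `π` -/
def PolyMod (π : ℤ) (W : Finset V) (f : V → ℤ) : Prop :=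
  ∀ N : ℕ, ∃ G : MvPolynomial (Fin 3) ℤ, ∀ P ∈ W, π ^ N ∣ f P - eval P G

def Q3 (q : ℤ) (W : Finset V) : Prop :=
  ∃ g0 g1 g2 : V, ∀ P ∈ W, ∃ c u : ℤ, q ∣ u ∧
    ∀ k, q ^ 3 ∣ P k - c * (g0 k + u * g1 k + u ^ 2 * g2 k)

/-- number of pairs `(i, j)` with `i + b j < k` (for `b ≥ 1`) -/
def Nb (b k : ℕ) : ℕ :=
  ((Finset.range k ×ˢ Finset.range k).filter (fun p : ℕ × ℕ => p.1 + b * p.2 < k)).card

def TB (n T : ℕ) : Prop := ∀ R : ℕ, 1 ≤ R → R ≤ (4 * n) ^ 60 → R.divisors.card ≤ T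

/-- normal vector of a non-special plane -/
def NS (ψ : V) : Prop := ∀ i j, i ≠ j → ψ i ≠ ψ j

/-- the dual curve of the cubic -/
def Dd (ψ : V) : ℤ := ψ 0 ^ 6 + ψ 1 ^ 6 + ψ 2 ^ 6 -
  2 * (ψ 0 ^ 3 * ψ 1 ^ 3 + ψ 0 ^ 3 * ψ 2 ^ 3 + ψ 1 ^ 3 * ψ 2 ^ 3)

/-- primitive solutions of any sign in the plane through the origin with normal `ψ` -/
def ZL (ψ : V) (n : ℤ) : Set V := {P | dot ψ P = 0 ∧ F P = n ∧ Prim P}

def Hd (D B : ℕ) : ℕ := ((D + 1) ^ 3 * B ^ D) ^ ((D + 1) ^ 3 + 2)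

/-- twice the bilinear form of `U^2 - δ v^2` -/
def Tr (δ : ℤ) (ξ ξ' : ℤ × ℤ) : ℤ := 2 * (ξ.1 * ξ'.1 - δ * ξ.2 * ξ'.2)

structure Par (n B κ Y T : ℕ) : Prop where
  B1 : 1 ≤ B
  B3 : B ^ 3 ≤ n
  nY : n ≤ Y ^ κ
  Y0 : (6 * κ + 3) ^ 4 < Y
  tb : TB n T

lemma F_perm (P : V) {i j k : Fin 3} (hij : i ≠ j) (hik : i ≠ k) (hjk : j ≠ k) :
    F P = P i ^ 3 + P j ^ 3 + P k ^ 3 := by
  unfold F
  fin_cases i <;> fin_cases j <;> fin_cases k <;> simp_all <;> ring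

lemma dot_perm (a b : V) {i j k : Fin 3} (hij : i ≠ j) (hik : i ≠ k) (hjk : j ≠ k) :
    dot a b = a i * b i + a j * b j + a k * b k := by
  unfold dot
  fin_cases i <;> fin_cases j <;> fin_cases k <;> simp_all <;> ring

lemma third (i j : Fin 3) (hij : i ≠ j) : ∃ k : Fin 3, i ≠ k ∧ j ≠ k := by
  revert i j; decide

lemma other_two (k : Fin 3) : ∃ i j : Fin 3, i ≠ j ∧ i ≠ k ∧ j ≠ k := by
  revert k; decide

lemma vec_ext {R : Type} {a b : Fin 3 → R} (h0 : a 0 = b 0) (h1 : a 1 = b 1) (h2 : a 2 = b 2) :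
    a = b := by
  funext k; fin_cases k <;> assumption

lemma vec_ext_perm {R : Type} {a b : Fin 3 → R} {i j k : Fin 3} (hij : i ≠ j) (hik : i ≠ k)
    (hjk : j ≠ k) (h0 : a i = b i) (h1 : a j = b j) (h2 : a k = b k) : a = b := by
  funext m
  have : m = i ∨ m = j ∨ m = k :=
    (by decide : ∀ i j k m : Fin 3, i ≠ j → i ≠ k → j ≠ k → m = i ∨ m = j ∨ m = k) i j k m
      hij hik hjk
  rcases this with rfl | rfl | rfl <;> assumption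

lemma cramer (a b c z : V) (k : Fin 3) :
    dl a b c * z k = dot a z * crs b c k + dot b z * crs c a k + dot c z * crs a b k := by
  fin_cases k <;> simp [dl, dot] <;> ring

lemma crs_base {m : ℤ} {P P0 e : V} (h : Crs m P P0) (he : dot e P0 = 1) (k : Fin 3) :
    m ∣ P k - dot e P * P0 k := by
  have : P k - dot e P * P0 k = e 0 * (P k * P0 0 - P 0 * P0 k) + e 1 * (P k * P0 1 - P 1 * P0 k) +
      e 2 * (P k * P0 2 - P 2 * P0 k) := by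
    unfold dot at he ⊢
    linear_combination (-(P k)) * he
  rw [this]
  exact dvd_add (dvd_add ((h k 0).mul_left _) ((h k 1).mul_left _)) ((h k 2).mul_left _)

lemma gram (δ M : ℤ) (a b c : ℤ × ℤ) (ha : a.1 ^ 2 - δ * a.2 ^ 2 = M)
    (hb : b.1 ^ 2 - δ * b.2 ^ 2 = M) (hc : c.1 ^ 2 - δ * c.2 ^ 2 = M) :
    M * (Tr δ a b ^ 2 + Tr δ a c ^ 2 + Tr δ b c ^ 2) - Tr δ a b * Tr δ a c * Tr δ b c =
      4 * M ^ 3 := by
  have key : 2 * (a.1 ^ 2 - δ * a.2 ^ 2) * Tr δ b c ^ 2 + 2 * (b.1 ^ 2 - δ * b.2 ^ 2) * Tr δ a c ^ 2 +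
      2 * (c.1 ^ 2 - δ * c.2 ^ 2) * Tr δ a b ^ 2 - 2 * (Tr δ a b * Tr δ a c * Tr δ b c) =
      8 * (a.1 ^ 2 - δ * a.2 ^ 2) * (b.1 ^ 2 - δ * b.2 ^ 2) * (c.1 ^ 2 - δ * c.2 ^ 2) := by
    simp only [Tr]; ring
  rw [ha, hb, hc] at key
  linarith

lemma dd_crs (P Q : V) (n b c d : ℤ) (hn : n = F P)
    (hb : b = P 0 ^ 2 * Q 0 + P 1 ^ 2 * Q 1 + P 2 ^ 2 * Q 2)
    (hc : c = P 0 * Q 0 ^ 2 + P 1 * Q 1 ^ 2 + P 2 * Q 2 ^ 2) (hd : d = F Q) :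
    Dd (crs P Q) =
      -(3 * b ^ 2 * c ^ 2 + 6 * n * b * c * d - 4 * n * c ^ 3 - 4 * b ^ 3 * d - n ^ 2 * d ^ 2) := by
  subst hn hb hc hd
  simp only [Dd, F, crs_0, crs_1, crs_2]
  ring

lemma Pw.mono {α : Type} {r : α → α → Prop} {W W' : Finset α} (h : Pw r W) (hs : W' ⊆ W) :
    Pw r W' := fun P hP P' hP' => h P (hs hP) P' (hs hP')

lemma Apx.sub_set {α : Type} {π : ℤ} {m : ℕ} {W W' : Finset α} {u t f : α → ℤ}
    (h : Apx π m W u t f) (hs : W' ⊆ W) : Apx π m W' u t f := by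
  obtain ⟨g, hg⟩ := h
  exact ⟨g, fun P hP => hg P (hs hP)⟩

lemma AChart.mono {π : ℤ} {W W' : Finset V} (h : AChart π W) (hs : W' ⊆ W) : AChart π W' := by
  intro N
  obtain ⟨u, h1, h2⟩ := h N
  exact ⟨u, fun P hP => h1 P (hs hP), fun k => (h2 k).sub_set hs⟩

lemma Par.n1 {n B κ Y T : ℕ} (h : Par n B κ Y T) : 1 ≤ n :=
  le_trans (Nat.one_le_pow _ _ h.B1) h.B3

lemma Par.Bn {n B κ Y T : ℕ} (h : Par n B κ Y T) : B ≤ n :=
  le_trans (Nat.le_self_pow (by norm_num) B) h.B3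

lemma Par.BY {n B κ Y T : ℕ} (h : Par n B κ Y T) : B ≤ Y ^ κ := h.Bn.trans h.nY

lemma TB.one_le {n T : ℕ} (h : TB n T) (hn : 1 ≤ n) : 1 ≤ T := by
  have := h 1 le_rfl (Nat.one_le_pow _ _ (by omega))
  simpa using this

end Pool.Agent.Lib.MP_9c5702_nt.Q4
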