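import Pool.Agent.Lib.MP_9c5702_nt.Q4.Ker

/-! A vanishing form may be taken of bounded height. -/

set_option autoImplicit false

namespace Pool.Agent.Lib.MP_9c5702_nt.Q4

open MvPolynomial

lemma formB_mono {D B : ℕ} (hB : 1 ≤ B) {P : V} (hP : ∀ k, |P k| ≤ B) (d : Fin 3 →₀ ℕ)
    (hd : d 0 + d 1 + d 2 ≤ D) : |eval P (monomial d (1 : ℤ))| ≤ ((B ^ D : ℕ) : ℤ) := by
  rw [eval_monomial, one_mul, Finsupp.prod_fintype _ _ (fun _ => pow_zero _), Fin.prod_univ_three,
    abs_mul, abs_mul, abs_pow, abs_pow, abs_pow]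
  have h : ∀ k, |P k| ^ d k ≤ (B : ℤ) ^ d k := fun k => pow_le_pow_left₀ (abs_nonneg _) (hP k) _
  have hB' : (1 : ℤ) ≤ B := by exact_mod_cast hB
  calc |P 0| ^ d 0 * |P 1| ^ d 1 * |P 2| ^ d 2 ≤ (B : ℤ) ^ d 0 * (B : ℤ) ^ d 1 * (B : ℤ) ^ d 2 :=
        mul_le_mul (mul_le_mul (h 0) (h 1) (by positivity) (by positivity)) (h 2) (by positivity)
          (by positivity)
    _ = (B : ℤ) ^ (d 0 + d 1 + d 2) := by rw [pow_add, pow_add]
    _ ≤ (B : ℤ) ^ D := pow_le_pow_right₀ hB' hd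
    _ = ((B ^ D : ℕ) : ℤ) := by push_cast; rfl

lemma formB_scale (P : V) (d : Fin 3 →₀ ℕ) (c : ℤ) :
    eval P (monomial d c) = c * eval P (monomial d (1 : ℤ)) := by
  rw [eval_monomial, eval_monomial, one_mul]

theorem form_bdd (e D B : ℕ) (he : e ≤ D) (hB : 1 ≤ B) (W : Finset V)
    (hW : ∀ P ∈ W, ∀ k, |P k| ≤ B) (G : MvPolynomial (Fin 3) ℤ) (hG0 : G ≠ 0)
    (hG : G.IsHomogeneous e) (h0 : ∀ P ∈ W, eval P G = 0) :
    ∃ G' : MvPolynomial (Fin 3) ℤ, G' ≠ 0 ∧ G'.IsHomogeneous e ∧ (∀ P ∈ W, eval P G' = 0) ∧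
      ∀ i, ∀ P ∈ W, |eval P (pderiv i G')| ≤ (Hd D B : ℤ) := by
  classical
  have hdeg : ∀ r : G.support, r.1.degree = e := fun r => by
    by_contra hne
    exact (mem_support_iff.1 r.2) (hG.coeff_eq_zero hne)
  have hsum : ∀ r : G.support, r.1 0 + r.1 1 + r.1 2 = e := fun r => by
    rw [← hdeg r, Finsupp.degree_eq_sum, Fin.sum_univ_three]
  have hle : ∀ (r : G.support) (k : Fin 3), r.1 k ≤ D := fun r k => by
    have := hsum r
    fin_cases k <;> simp <;> omega
  have hcard : Fintype.card G.support ≤ (D + 1) ^ 3 := by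
    have h := Fintype.card_le_of_injective
      (fun (r : G.support) (k : Fin 3) => (⟨r.1 k, Nat.lt_succ_of_le (hle r k)⟩ : Fin (D + 1)))
      (fun r r' h => Subtype.ext (Finsupp.ext fun k => congrArg Fin.val (congrFun h k)))
    simpa using h
  have hBD : 1 ≤ B ^ D := Nat.one_le_pow _ _ hB
  obtain ⟨c, hc0, hc1, hc2⟩ := ker_bdd (ι := G.support) W
    (fun P r => eval P (monomial r.1 (1 : ℤ))) (B ^ D) hBD
    (fun P hP r => formB_mono hB (hW P hP) r.1 (by rw [hsum r]; exact he))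
    (fun r => coeff r.1 G) (by
      obtain ⟨d, hd⟩ := support_nonempty.2 hG0
      intro h
      exact (mem_support_iff.1 hd) (congrFun h ⟨d, hd⟩)) (by
      intro P hP
      rw [← h0 P hP]
      conv_rhs => rw [G.as_sum, map_sum, ← Finset.sum_coe_sort]
      exact Finset.sum_congr rfl fun r _ => (formB_scale P r.1 _).symm)
  refine ⟨∑ r : G.support, monomial r.1 (c r), ?_, ?_, ?_, ?_⟩
  · intro h
    apply hc0
    funext r
    have h1 := congrArg (coeff r.1) h
    rw [coeff_sum, Finset.sum_eq_single r, coeff_monomial, if_pos rfl, coeff_zero] at h1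
    · exact h1
    · intro r' _ hr
      rw [coeff_monomial, if_neg fun h2 => hr (Subtype.ext h2)]
    · intro h2
      exact absurd (Finset.mem_univ r) h2
  · exact IsHomogeneous.sum _ _ _ fun r _ => isHomogeneous_monomial _ (hdeg r)
  · intro P hP
    rw [map_sum, ← hc1 P hP]
    exact Finset.sum_congr rfl fun r _ => formB_scale P r.1 _
  · intro i P hP
    obtain ⟨S, hS⟩ : ∃ S, S = (D + 1) ^ 3 := ⟨_, rfl⟩
    obtain ⟨s, hs⟩ : ∃ s, s = Fintype.card G.support := ⟨_, rfl⟩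
    have hDS : D + 1 ≤ S := by rw [hS]; exact Nat.le_self_pow (by norm_num) _
    rw [← hS] at hcard
    rw [← hs] at hcard hc2
    have hterm : ∀ r : G.support, |eval P (pderiv i (monomial r.1 (c r)))| ≤
        (((S * B ^ D) ^ S * (S * B ^ D) : ℕ) : ℤ) := by
      intro r
      rw [pderiv_monomial, formB_scale, abs_mul, abs_mul]
      have h1 : |eval P (monomial (r.1 - Finsupp.single i 1) (1 : ℤ))| ≤ ((B ^ D : ℕ) : ℤ) := by
        refine formB_mono hB (hW P hP) _ ?_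
        have := hsum r
        simp only [Finsupp.tsub_apply]
        omega
      have h2 : |c r| ≤ (((S * B ^ D) ^ S : ℕ) : ℤ) := by
        refine (hc2 r).trans ?_
        have a1 : (s * B ^ D) ^ s ≤ (S * B ^ D) ^ s :=
          Nat.pow_le_pow_left (Nat.mul_le_mul_right _ hcard) _
        have a2 : (S * B ^ D) ^ s ≤ (S * B ^ D) ^ S :=
          Nat.pow_le_pow_right (Nat.mul_pos (by omega) hBD) hcard
        exact_mod_cast a1.trans a2
      have h3 : |((r.1 i : ℕ) : ℤ)| ≤ (S : ℤ) := by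
        rw [abs_of_nonneg (by positivity)]
        have := hle r i
        exact_mod_cast (by omega : r.1 i ≤ S)
      calc |c r| * |((r.1 i : ℕ) : ℤ)| * |eval P (monomial (r.1 - Finsupp.single i 1) (1 : ℤ))|
          ≤ (((S * B ^ D) ^ S : ℕ) : ℤ) * (S : ℤ) * ((B ^ D : ℕ) : ℤ) :=
            mul_le_mul (mul_le_mul h2 h3 (abs_nonneg _) (by positivity)) h1 (abs_nonneg _)
              (by positivity)
        _ = _ := by push_cast; ring
    rw [map_sum, map_sum]
    refine (Finset.abs_sum_le_sum_abs _ _).trans ((Finset.sum_le_sum fun r _ => hterm r).trans ?_)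
    rw [Finset.sum_const, Finset.card_univ, ← hs, nsmul_eq_mul, Hd, ← hS]
    have a3 : s ≤ S * B ^ D := hcard.trans (Nat.le_mul_of_pos_right _ hBD)
    have a4 : s * ((S * B ^ D) ^ S * (S * B ^ D)) ≤ (S * B ^ D) ^ (S + 2) := by
      calc s * ((S * B ^ D) ^ S * (S * B ^ D)) ≤ (S * B ^ D) * ((S * B ^ D) ^ S * (S * B ^ D)) :=
            Nat.mul_le_mul_right _ a3
        _ = (S * B ^ D) ^ (S + 2) := by ring
    exact_mod_cast a4

end Pool.Agent.Lib.MP_9c5702_nt.Q4
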