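import Pool.Agent.Lib.MP_9c5702_nt.Q4.Defs

/-! Non-special planes hold no rational isotropic direction. -/

set_option autoImplicit false

namespace Pool.Agent.Lib.MP_9c5702_nt.Q4

open Polynomial

theorem iso_two {x y : ℚ} {p q : ℤ} (hpq : p ≠ q) (h : x ^ 3 + y ^ 3 = 0)
    (hd : (p : ℚ) * x + q * y = 0) : x = 0 ∧ y = 0 := by
  have h1 : x = -y := (show Odd 3 by decide).strictMono_pow.injective (by linear_combination h)
  have h2 : ((q : ℚ) - p) * y = 0 := by rw [h1] at hd; linear_combination hd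
  have h3 : (q : ℚ) - p ≠ 0 := sub_ne_zero.2 (by exact_mod_cast hpq.symm)
  have h4 := (mul_eq_zero.1 h2).resolve_left h3
  exact ⟨by rw [h1, h4, neg_zero], h4⟩

theorem isotropic (ψ : V) (hψ : NS ψ) (v : Fin 3 → ℚ) (hv : v ≠ 0)
    (hd : (ψ 0 : ℚ) * v 0 + ψ 1 * v 1 + ψ 2 * v 2 = 0) : v 0 ^ 3 + v 1 ^ 3 + v 2 ^ 3 ≠ 0 := by
  intro h
  by_cases h0 : v 0 = 0
  · rw [h0] at h hd
    have := iso_two (hψ 1 2 (by decide)) (x := v 1) (y := v 2) (by linarith) (by linarith)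
    exact hv (vec_ext h0 this.1 this.2)
  by_cases h1 : v 1 = 0
  · rw [h1] at h hd
    exact h0 (iso_two (hψ 0 2 (by decide)) (x := v 0) (y := v 2) (by linarith) (by linarith)).1
  by_cases h2 : v 2 = 0
  · rw [h2] at h hd
    exact h0 (iso_two (hψ 0 1 (by decide)) (x := v 0) (y := v 1) (by linarith) (by linarith)).1
  exact fermatLastTheoremFor_iff_rat.1 fermatLastTheoremThree (v 0) (v 1) (-v 2) h0 h1
    (neg_ne_zero.2 h2) (by linear_combination h)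

theorem no_graph (ψ : V) (hψ : NS ψ) (p a b : Fin 3 → ℚ)
    (ha : (ψ 0 : ℚ) * a 0 + ψ 1 * a 1 + ψ 2 * a 2 = 0)
    (hb : (ψ 0 : ℚ) * b 0 + ψ 1 * b 1 + ψ 2 * b 2 = 0) (hb0 : b ≠ 0)
    (hab : ∀ x : ℚ, a + x • b ≠ 0) (n : ℚ) (N : ℚ[X]) :
    (C (p 0) + C (a 0) * X + C (b 0) * N) ^ 3 + (C (p 1) + C (a 1) * X + C (b 1) * N) ^ 3 +
      (C (p 2) + C (a 2) * X + C (b 2) * N) ^ 3 ≠ C n := by
  intro h
  obtain ⟨d, hd1, hd, hv⟩ : ∃ d, 1 ≤ d ∧ N.natDegree ≤ d ∧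
      (if d = 1 then a else 0) + N.coeff d • b ≠ 0 := by
    rcases le_or_gt N.natDegree 1 with h1 | h1
    · exact ⟨1, le_rfl, h1, hab _⟩
    · refine ⟨N.natDegree, h1.le, le_rfl, ?_⟩
      rw [if_neg h1.ne', zero_add]
      refine smul_ne_zero (leadingCoeff_ne_zero.2 fun e => ?_) hb0
      simp [e] at h1
  have h1 : ∀ k, ((C (p k) + C (a k) * X + C (b k) * N) ^ 3).coeff (3 * d) =
      (((if d = 1 then a else 0) + N.coeff d • b) k) ^ 3 := fun k => by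
    rw [coeff_pow_of_natDegree_le]
    · congr 1
      rw [coeff_add, coeff_add, coeff_C_of_ne_zero (by omega), coeff_C_mul, coeff_C_mul, coeff_X]
      by_cases e : d = 1
      · simp [e, mul_comm]
      · simp [e, Ne.symm e, mul_comm]
    · refine natDegree_add_le_of_degree_le (natDegree_add_le_of_degree_le ?_ ?_)
        ((natDegree_C_mul_le _ _).trans hd)
      · simp
      · exact (natDegree_C_mul_le _ _).trans (natDegree_X_le.trans hd1)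
  have h2 := congrArg (fun f => coeff f (3 * d)) h
  simp only [coeff_add, h1] at h2
  rw [coeff_C_of_ne_zero (by omega)] at h2
  refine isotropic ψ hψ _ hv ?_ h2
  by_cases e : d = 1
  · simp only [e, if_true, Pi.add_apply, Pi.smul_apply, smul_eq_mul]
    linear_combination ha + N.coeff 1 * hb
  · simp only [e, if_false, Pi.add_apply, Pi.smul_apply, smul_eq_mul, Pi.zero_apply]
    linear_combination N.coeff d * hb

theorem dd_ne (ψ : V) (hψ : NS ψ) : Dd ψ ≠ 0 := by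
  intro h
  have inj : ∀ x y : ℤ, (x ^ 3 - y ^ 3) ^ 2 = 0 → x = y := fun x y e =>
    (show Odd 3 by decide).strictMono_pow.injective (sub_eq_zero.1 (pow_eq_zero_iff two_ne_zero |>.1 e))
  unfold Dd at h
  by_cases h0 : ψ 0 = 0
  · rw [h0] at h
    exact hψ 1 2 (by decide) (inj _ _ (by linear_combination h))
  by_cases h1 : ψ 1 = 0
  · rw [h1] at h
    exact hψ 0 2 (by decide) (inj _ _ (by linear_combination h))
  by_cases h2 : ψ 2 = 0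
  · rw [h2] at h
    exact hψ 0 1 (by decide) (inj _ _ (by linear_combination h))
  have k0 : (ψ 0 : ℚ) ≠ 0 := by exact_mod_cast h0
  have k1 : (ψ 1 : ℚ) ≠ 0 := by exact_mod_cast h1
  have k2 : (ψ 2 : ℚ) ≠ 0 := by exact_mod_cast h2
  have k : (ψ 0 : ℚ) ^ 6 + ψ 1 ^ 6 + ψ 2 ^ 6 -
      2 * (ψ 0 ^ 3 * ψ 1 ^ 3 + ψ 0 ^ 3 * ψ 2 ^ 3 + ψ 1 ^ 3 * ψ 2 ^ 3) = 0 := by exact_mod_cast h
  obtain ⟨w, hw⟩ : ∃ w : ℚ, 2 * ψ 0 * ψ 1 * w = ψ 0 ^ 3 + ψ 1 ^ 3 - ψ 2 ^ 3 :=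
    ⟨_, mul_div_cancel₀ _ (by positivity)⟩
  obtain ⟨z, hz⟩ : ∃ z : ℚ, 2 * ψ 0 * ψ 2 * z = ψ 0 ^ 3 + ψ 2 ^ 3 - ψ 1 ^ 3 :=
    ⟨_, mul_div_cancel₀ _ (by positivity)⟩
  have e1 : w ^ 2 = ψ 0 * ψ 1 := by
    refine mul_left_cancel₀ (show (2 * ψ 0 * ψ 1 : ℚ) ^ 2 ≠ 0 by positivity) ?_
    rw [← mul_pow, hw]
    linear_combination k
  have e2 : z ^ 2 = ψ 0 * ψ 2 := by
    refine mul_left_cancel₀ (show (2 * ψ 0 * ψ 2 : ℚ) ^ 2 ≠ 0 by positivity) ?_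
    rw [← mul_pow, hz]
    linear_combination k
  have e3 : (ψ 0 : ℚ) * ψ 0 + ψ 1 * -w + ψ 2 * -z = 0 := by
    refine mul_left_cancel₀ (show (2 * ψ 0 : ℚ) ≠ 0 by positivity) ?_
    linear_combination -hw - hz
  refine isotropic ψ hψ ![ψ 0, -w, -z] (fun e => k0 (congrFun e 0)) e3 ?_
  change (ψ 0 : ℚ) ^ 3 + (-w) ^ 3 + (-z) ^ 3 = 0
  linear_combination ψ 0 * e3 - w * e1 - z * e2

theorem dd_le (ψ : V) (Ψ : ℤ) (h : ∀ i, |ψ i| ≤ Ψ) : |Dd ψ| ≤ 9 * Ψ ^ 6 := by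
  have h3 : ∀ i, |ψ i ^ 3| ≤ Ψ ^ 3 := fun i => by
    rw [abs_pow]
    exact pow_le_pow_left₀ (abs_nonneg _) (h i) 3
  have h6 : ∀ i j, |ψ i ^ 3 * ψ j ^ 3| ≤ Ψ ^ 6 := fun i j => by
    rw [abs_mul, show Ψ ^ 6 = Ψ ^ 3 * Ψ ^ 3 by ring]
    exact mul_le_mul (h3 i) (h3 j) (abs_nonneg _) ((abs_nonneg _).trans (h3 i))
  have e00 := abs_le.1 (h6 0 0)
  have e11 := abs_le.1 (h6 1 1)
  have e22 := abs_le.1 (h6 2 2)
  have e01 := abs_le.1 (h6 0 1)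
  have e02 := abs_le.1 (h6 0 2)
  have e12 := abs_le.1 (h6 1 2)
  unfold Dd
  rw [abs_le]
  constructor <;> linarith [e00.1, e00.2, e11.1, e11.2, e22.1, e22.2, e01.1, e01.2, e02.1, e02.2,
    e12.1, e12.2]

end Pool.Agent.Lib.MP_9c5702_nt.Q4
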