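import Pool.Agent.Lib.MP_9c5702_nt.Q4.Vec

/-! Interpolation of the binary cubic at four points. -/

set_option autoImplicit false

namespace Pool.Agent.Lib.MP_9c5702_nt.Q4

theorem lag_split {π d : ℤ} (hπ : Prime π) {m : ℕ} (h : ¬ π ^ (m + 1) ∣ d) :
    ∃ k ≤ m, ∃ u, ¬ π ∣ u ∧ d = π ^ k * u := by
  have h0 : d ≠ 0 := fun e => h (e ▸ dvd_zero _)
  obtain ⟨k, u, h1, h2⟩ := WfDvdMonoid.max_power_factor h0 hπ.irreducible
  refine ⟨k, ?_, u, h1, h2⟩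
  by_contra hk
  exact h (h2 ▸ (pow_dvd_pow π (by omega)).mul_right u)

theorem lag_term {π A : ℤ} {α N k k' k'' : ℕ} (hA : π ^ α ∣ A) (hN : N ≤ α + k + k' + k'')
    (u u' u'' : ℤ) : π ^ N ∣ A * (π ^ k * u * (π ^ k' * u') * (π ^ k'' * u'')) := by
  obtain ⟨c, rfl⟩ := hA
  exact (pow_dvd_pow π hN).trans ⟨c * u * u' * u'', by ring⟩

theorem lag_aux {π x d01 d02 d03 d12 d13 d23 A0 A1 A2 A3 : ℤ} (hπ : Prime π) {α m : ℕ}
    (h0 : π ^ α ∣ A0) (h1 : π ^ α ∣ A1) (h2 : π ^ α ∣ A2) (h3 : π ^ α ∣ A3)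
    (h01 : ¬ π ^ (m + 1) ∣ d01) (h02 : ¬ π ^ (m + 1) ∣ d02) (h03 : ¬ π ^ (m + 1) ∣ d03)
    (h12 : ¬ π ^ (m + 1) ∣ d12) (h13 : ¬ π ^ (m + 1) ∣ d13) (h23 : ¬ π ^ (m + 1) ∣ d23)
    (e : x * (d01 * d02 * d03 * d12 * d13 * d23) = A0 * (d12 * d13 * d23) -
      A1 * (d02 * d03 * d23) + A2 * (d01 * d03 * d13) - A3 * (d01 * d02 * d12)) :
    π ^ (α - 3 * m) ∣ x := by
  rcases le_total α (3 * m) with hα | hα
  · rw [Nat.sub_eq_zero_of_le hα, pow_zero]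
    exact one_dvd _
  obtain ⟨k01, l01, u01, n01, rfl⟩ := lag_split hπ h01
  obtain ⟨k02, l02, u02, n02, rfl⟩ := lag_split hπ h02
  obtain ⟨k03, l03, u03, n03, rfl⟩ := lag_split hπ h03
  obtain ⟨k12, l12, u12, n12, rfl⟩ := lag_split hπ h12
  obtain ⟨k13, l13, u13, n13, rfl⟩ := lag_split hπ h13
  obtain ⟨k23, l23, u23, n23, rfl⟩ := lag_split hπ h23
  have h : π ^ (α - 3 * m + (k01 + k02 + k03 + k12 + k13 + k23)) ∣
      x * (u01 * u02 * u03 * u12 * u13 * u23) * π ^ (k01 + k02 + k03 + k12 + k13 + k23) := by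
    rw [show x * (u01 * u02 * u03 * u12 * u13 * u23) * π ^ (k01 + k02 + k03 + k12 + k13 + k23) =
      x * (π ^ k01 * u01 * (π ^ k02 * u02) * (π ^ k03 * u03) * (π ^ k12 * u12) *
        (π ^ k13 * u13) * (π ^ k23 * u23)) by ring, e]
    exact dvd_sub (dvd_add (dvd_sub (lag_term h0 (by omega) _ _ _) (lag_term h1 (by omega) _ _ _))
      (lag_term h2 (by omega) _ _ _)) (lag_term h3 (by omega) _ _ _)
  rw [pow_add, mul_dvd_mul_iff_right (pow_ne_zero _ hπ.ne_zero)] at h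
  refine hπ.pow_dvd_of_dvd_mul_right _ ?_ h
  simp only [hπ.dvd_mul, n01, n02, n03, n12, n13, n23, or_self, not_false_eq_true]

theorem lag_dvd (ψ w : V) (hw : dot w ψ = 1) (p α m : ℕ) (hp : p.Prime) (P : Fin 4 → V)
    (hP : ∀ i, dot ψ (P i) = 0) (h0 : Prim (P 0)) (hF : ∀ i, (p : ℤ) ^ α ∣ F (P i))
    (hd : ∀ i j, i ≠ j → ¬ (p : ℤ) ^ (m + 1) ∣ dl w (P i) (P j)) (v : V) (hv : dot ψ v = 0) :
    (p : ℤ) ^ (α - 3 * m) ∣ F v := by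
  obtain ⟨e, he⟩ := h0
  obtain ⟨Q, hQ⟩ : ∃ Q, Q = crs ψ e := ⟨_, rfl⟩
  obtain ⟨s, hs⟩ : ∃ s : V → ℤ, s = fun R => dot e R := ⟨_, rfl⟩
  obtain ⟨t, ht⟩ : ∃ t : V → ℤ, t = fun R => dl w (P 0) R := ⟨_, rfl⟩
  have hb : ∀ R, dot ψ R = 0 → ∀ k, R k = s R * P 0 k + t R * Q k := fun R hR k => by
    rw [hQ, hs, ht]
    exact basis_L ψ w (P 0) e R hw he (hP 0) hR k
  have h1 : dl w (P 0) Q = 1 := by rw [dl, hQ, (basis_crs ψ (P 0) e he (hP 0)).1, hw]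
  have hdl : ∀ R R', dot ψ R = 0 → dot ψ R' = 0 → dl w R R' = s R * t R' - s R' * t R := by
    intro R R' hR hR'
    simp only [dl, dot, crs_0, crs_1, crs_2] at h1 ⊢
    rw [hb R hR 0, hb R hR 1, hb R hR 2, hb R' hR' 0, hb R' hR' 1, hb R' hR' 2]
    linear_combination (s R * t R' - s R' * t R) * h1
  obtain ⟨a, b, c, d, hf⟩ : ∃ a b c d : ℤ, ∀ R, dot ψ R = 0 →
      F R = a * s R ^ 3 + b * s R ^ 2 * t R + c * s R * t R ^ 2 + d * t R ^ 3 := by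
    refine ⟨F (P 0), 3 * (P 0 0 ^ 2 * Q 0 + P 0 1 ^ 2 * Q 1 + P 0 2 ^ 2 * Q 2),
      3 * (P 0 0 * Q 0 ^ 2 + P 0 1 * Q 1 ^ 2 + P 0 2 * Q 2 ^ 2), F Q, fun R hR => ?_⟩
    unfold F
    rw [hb R hR 0, hb R hR 1, hb R hR 2]
    ring
  refine lag_aux (Nat.prime_iff_prime_int.1 hp)
    ((hF 0).mul_right (dl w v (P 1) * dl w v (P 2) * dl w v (P 3)))
    ((hF 1).mul_right (dl w v (P 0) * dl w v (P 2) * dl w v (P 3)))
    ((hF 2).mul_right (dl w v (P 0) * dl w v (P 1) * dl w v (P 3)))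
    ((hF 3).mul_right (dl w v (P 0) * dl w v (P 1) * dl w v (P 2)))
    (hd 0 1 (by decide)) (hd 0 2 (by decide)) (hd 0 3 (by decide)) (hd 1 2 (by decide))
    (hd 1 3 (by decide)) (hd 2 3 (by decide)) ?_
  simp only [hf v hv, hf _ (hP _), hdl v _ hv (hP _), hdl _ _ (hP _) (hP _)]
  ring

end Pool.Agent.Lib.MP_9c5702_nt.Q4
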