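import Pool.Agent.Lib.MP_9c5702_nt.Q4.Core2
import Pool.Agent.Lib.MP_9c5702_nt.Q4.Red

/-! The bound for all representations. -/

set_option autoImplicit false

namespace Pool.Agent.Lib.MP_9c5702_nt.Q4

theorem main (ε : ℝ) (hε : 0 < ε) : ∃ C : ℝ, ∀ a q : ℕ, 1 ≤ a → 1 ≤ q →
    (r33 (a * q ^ 4) : ℝ) ≤ C * ((a : ℝ) * q) ^ ((7 : ℝ) / 6 + ε) := by
  obtain ⟨C1, hC1, h1⟩ := core2 (ε / 2) (by positivity)
  obtain ⟨C2, hC2, h2⟩ := divisor_bound (ε := ε / 8) (by positivity)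
  refine ⟨C2 * (C1 * (27 : ℝ) ^ ((7 : ℝ) / 6 + ε / 2)), fun a q ha hq => ?_⟩
  have hX1 : (1 : ℝ) ≤ (a : ℝ) * q := by exact_mod_cast Nat.mul_pos ha hq
  have hX0 : (0 : ℝ) < (a : ℝ) * q := by linarith
  have hn : 1 ≤ a * q ^ 4 := Nat.mul_pos ha (by positivity)
  have hred := red (a * q ^ 4) hn (C1 * (27 * ((a : ℝ) * q)) ^ ((7 : ℝ) / 6 + ε / 2)) (by
    intro d m B hd hm hB W hW
    obtain ⟨a1, q1, ha1, hq1, hm1, hle1⟩ := red1 d hd a q m ha hq hm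
    obtain ⟨a2, q2, ha2, hq2, hm2, hle2, h3⟩ := red2 a1 q1 ha1 hq1
    have hm3 : m = a2 * q2 ^ 4 := hm1.trans hm2
    subst hm3
    refine (h1 a2 q2 B ha2 hq2 h3 hB W hW).trans ?_
    have hle : ((a2 * q2 : ℕ) : ℝ) ≤ 27 * ((a : ℝ) * q) := by
      have : a2 * q2 ≤ 27 * (a * q) := hle2.trans (Nat.mul_le_mul_left _ hle1)
      exact_mod_cast this
    exact mul_le_mul_of_nonneg_left
      (Real.rpow_le_rpow (Nat.cast_nonneg _) hle (by positivity)) hC1.le)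
  refine hred.trans ?_
  have hτ := h2 (a * q ^ 4) (by omega)
  have hn4 : ((a * q ^ 4 : ℕ) : ℝ) ≤ ((a : ℝ) * q) ^ (4 : ℝ) := by
    have : a * q ^ 4 ≤ (a * q) ^ 4 := by
      rw [mul_pow]
      exact Nat.mul_le_mul_right _ (Nat.le_self_pow (by norm_num) a)
    rw [show (4 : ℝ) = ((4 : ℕ) : ℝ) by norm_num, Real.rpow_natCast]
    exact_mod_cast this
  have hτ2 : (((a * q ^ 4).divisors.card : ℕ) : ℝ) ≤ C2 * ((a : ℝ) * q) ^ (ε / 2) := by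
    refine hτ.trans (mul_le_mul_of_nonneg_left ?_ (by linarith))
    calc ((a * q ^ 4 : ℕ) : ℝ) ^ (ε / 8) ≤ (((a : ℝ) * q) ^ (4 : ℝ)) ^ (ε / 8) :=
          Real.rpow_le_rpow (Nat.cast_nonneg _) hn4 (by positivity)
      _ = ((a : ℝ) * q) ^ (ε / 2) := by
          rw [← Real.rpow_mul hX0.le]; congr 1; ring
  calc (((a * q ^ 4).divisors.card : ℕ) : ℝ) * (C1 * (27 * ((a : ℝ) * q)) ^ ((7 : ℝ) / 6 + ε / 2))
      ≤ C2 * ((a : ℝ) * q) ^ (ε / 2) * (C1 * (27 * ((a : ℝ) * q)) ^ ((7 : ℝ) / 6 + ε / 2)) :=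
        mul_le_mul_of_nonneg_right hτ2 (by positivity)
    _ = C2 * (C1 * (27 : ℝ) ^ ((7 : ℝ) / 6 + ε / 2)) * ((a : ℝ) * q) ^ ((7 : ℝ) / 6 + ε) := by
        rw [Real.mul_rpow (by norm_num) hX0.le,
          show (7 : ℝ) / 6 + ε = ε / 2 + (7 / 6 + ε / 2) by ring, Real.rpow_add hX0 (ε / 2)]
        ring

end Pool.Agent.Lib.MP_9c5702_nt.Q4
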