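import Pool.Agent.Lib.MP_9c5702_nt.Q4.Alg
import Pool.Agent.Lib.MP_9c5702_nt.Q4.Iso

/-! Common zeros of the plane cubic and a relation of degree two. -/

set_option autoImplicit false

namespace Pool.Agent.Lib.MP_9c5702_nt.Q4

open Polynomial

theorem planeQ_roots (ρ : ℚ[X]) (hρ : ρ ≠ 0) (S : Finset ℚ) (h : ∀ s ∈ S, ρ.eval s = 0) :
    S.card ≤ ρ.natDegree := by
  refine Polynomial.card_le_degree_of_subset_roots fun s hs => ?_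
  exact (mem_roots hρ).2 (h s hs)

theorem planeQ_cubic (c c2 c1 c0 : ℚ) (hc : c ≠ 0) (S : Finset ℚ)
    (h : ∀ t ∈ S, c * t ^ 3 + c2 * t ^ 2 + c1 * t + c0 = 0) : S.card ≤ 3 := by
  have hd : (C c * X ^ 3 + C c2 * X ^ 2 + C c1 * X + C c0 : ℚ[X]).natDegree = 3 :=
    natDegree_cubic hc
  have hne : (C c * X ^ 3 + C c2 * X ^ 2 + C c1 * X + C c0 : ℚ[X]) ≠ 0 := by
    intro h0
    rw [h0, natDegree_zero] at hd
    omega
  refine (planeQ_roots _ hne S fun t ht => ?_).trans hd.le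
  simp only [eval_add, eval_mul, eval_C, eval_pow, eval_X]
  exact h t ht

theorem plane_count (ψ : V) (hψ : NS ψ) (p a b : Fin 3 → ℚ)
    (ha : (ψ 0 : ℚ) * a 0 + ψ 1 * a 1 + ψ 2 * a 2 = 0)
    (hb : (ψ 0 : ℚ) * b 0 + ψ 1 * b 1 + ψ 2 * b 2 = 0) (hb0 : b ≠ 0)
    (hab : ∀ x : ℚ, a + x • b ≠ 0) (n : ℚ) (I : ℕ) (A0 A1 A2 : ℚ[X])
    (hne : A0 ≠ 0 ∨ A1 ≠ 0 ∨ A2 ≠ 0) (d0 : A0.natDegree ≤ I) (d1 : A1.natDegree ≤ I)
    (d2 : A2.natDegree ≤ I) (Z : Finset (ℚ × ℚ))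
    (hF : ∀ z ∈ Z, (p 0 + a 0 * z.1 + b 0 * z.2) ^ 3 + (p 1 + a 1 * z.1 + b 1 * z.2) ^ 3 +
      (p 2 + a 2 * z.1 + b 2 * z.2) ^ 3 = n)
    (hR : ∀ z ∈ Z, A0.eval z.1 + A1.eval z.1 * z.2 + A2.eval z.1 * z.2 ^ 2 = 0) :
    Z.card ≤ 18 * I + 36 := by
  classical
  have hc : b 0 ^ 3 + b 1 ^ 3 + b 2 ^ 3 ≠ 0 := isotropic ψ hψ b hb0 hb
  obtain ⟨ρ, hρ, hdeg, hz⟩ := alg_elim (b 0 ^ 3 + b 1 ^ 3 + b 2 ^ 3) hc
    (3 * ((C (p 0) + C (a 0) * X) * C (b 0) ^ 2 + (C (p 1) + C (a 1) * X) * C (b 1) ^ 2 +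
      (C (p 2) + C (a 2) * X) * C (b 2) ^ 2))
    (3 * ((C (p 0) + C (a 0) * X) ^ 2 * C (b 0) + (C (p 1) + C (a 1) * X) ^ 2 * C (b 1) +
      (C (p 2) + C (a 2) * X) ^ 2 * C (b 2)))
    ((C (p 0) + C (a 0) * X) ^ 3 + (C (p 1) + C (a 1) * X) ^ 3 + (C (p 2) + C (a 2) * X) ^ 3 - C n)
    (by compute_degree!) (by compute_degree!) (by compute_degree!)
    (fun N hN => no_graph ψ hψ p a b ha hb hb0 hab n N (by
      simp only [map_add, map_pow] at hN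
      linear_combination hN)) I A0 A1 A2 hne d0 d1 d2
  have h1 : (Z.image Prod.fst).card ≤ 6 * I + 12 := by
    refine (planeQ_roots ρ hρ _ fun s hs => ?_).trans hdeg
    obtain ⟨z, hzZ, rfl⟩ := Finset.mem_image.1 hs
    refine hz z.1 z.2 ?_ (hR z hzZ)
    have h := hF z hzZ
    simp only [eval_add, eval_mul, eval_C, eval_pow, eval_X, eval_sub, eval_ofNat]
    linear_combination h
  have h2 : ∀ s ∈ Z.image Prod.fst, (Z.filter fun z => z.1 = s).card ≤ 3 := by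
    intro s _
    have hinj : Set.InjOn Prod.snd (↑(Z.filter fun z => z.1 = s) : Set (ℚ × ℚ)) := by
      intro z hz1 z' hz2 he
      have e1 := (Finset.mem_filter.1 (Finset.mem_coe.1 hz1)).2
      have e2 := (Finset.mem_filter.1 (Finset.mem_coe.1 hz2)).2
      exact Prod.ext (e1.trans e2.symm) he
    rw [← Finset.card_image_of_injOn hinj]
    refine planeQ_cubic (b 0 ^ 3 + b 1 ^ 3 + b 2 ^ 3)
      (3 * ((p 0 + a 0 * s) * b 0 ^ 2 + (p 1 + a 1 * s) * b 1 ^ 2 + (p 2 + a 2 * s) * b 2 ^ 2))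
      (3 * ((p 0 + a 0 * s) ^ 2 * b 0 + (p 1 + a 1 * s) ^ 2 * b 1 + (p 2 + a 2 * s) ^ 2 * b 2))
      ((p 0 + a 0 * s) ^ 3 + (p 1 + a 1 * s) ^ 3 + (p 2 + a 2 * s) ^ 3 - n) hc _ fun t ht => ?_
    obtain ⟨z, hz1, rfl⟩ := Finset.mem_image.1 ht
    obtain ⟨hzZ, e1⟩ := Finset.mem_filter.1 hz1
    have h := hF z hzZ
    rw [e1] at h
    linear_combination h
  have h3 := Finset.card_le_mul_card_image Z 3 h2
  omega

end Pool.Agent.Lib.MP_9c5702_nt.Q4
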