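import Pool.Agent.Lib.MP_9c5702_nt.Q4.BP
import Pool.Agent.Lib.MP_9c5702_nt.Q4.PlaneQ

/-! Points of a class in a non-special plane with a short functional. -/

set_option autoImplicit false

namespace Pool.Agent.Lib.MP_9c5702_nt.Q4

lemma nonsp_unit (k : Fin 3) : ∃ e : V, (∀ P : V, dot e P = P k) ∧
    ∀ a b : V, dl a b e = crs a b k := by
  refine ⟨Pi.single k 1, ?_, ?_⟩
  · intro P
    fin_cases k <;> simp [dot]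
  · intro a b
    fin_cases k <;> simp [dl, dot] <;> ring

/-- rational parametrisation of the plane by the two coordinates -/
lemma nonsp_param (ψ φ : V) (k : Fin 3) (hk : crs ψ φ k ≠ 0) (c0 c1 M : ℤ) (hM0 : M ≠ 0) :
    ∃ p a b : Fin 3 → ℚ, ((ψ 0 : ℚ) * a 0 + ψ 1 * a 1 + ψ 2 * a 2 = 0) ∧
      ((ψ 0 : ℚ) * b 0 + ψ 1 * b 1 + ψ 2 * b 2 = 0) ∧ b ≠ 0 ∧ (∀ x : ℚ, a + x • b ≠ 0) ∧
      ∀ (P : V) (s : ℤ), dot ψ P = c0 → dot φ P = M * s + c1 →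
        ∀ m, (P m : ℚ) = p m + a m * s + b m * P k := by
  obtain ⟨e, he, hd⟩ := nonsp_unit k
  have hD : ((crs ψ φ k : ℤ) : ℚ) ≠ 0 := by exact_mod_cast hk
  have hMq : (M : ℚ) ≠ 0 := by exact_mod_cast hM0
  have e1 : ψ 0 * crs e ψ 0 + ψ 1 * crs e ψ 1 + ψ 2 * crs e ψ 2 = 0 := by simp; ring
  have e2 : ψ 0 * crs ψ φ 0 + ψ 1 * crs ψ φ 1 + ψ 2 * crs ψ φ 2 = 0 := by simp; ring
  have e3 : φ 0 * crs ψ φ 0 + φ 1 * crs ψ φ 1 + φ 2 * crs ψ φ 2 = 0 := by simp; ring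
  have e4 : φ 0 * crs e ψ 0 + φ 1 * crs e ψ 1 + φ 2 * crs e ψ 2 = crs ψ φ k := by
    rw [← hd ψ φ]; simp [dl, dot]; ring
  have q1 : (ψ 0 : ℚ) * (crs e ψ 0 : ℤ) + ψ 1 * (crs e ψ 1 : ℤ) + ψ 2 * (crs e ψ 2 : ℤ) = 0 := by
    exact_mod_cast e1
  have q2 : (ψ 0 : ℚ) * (crs ψ φ 0 : ℤ) + ψ 1 * (crs ψ φ 1 : ℤ) + ψ 2 * (crs ψ φ 2 : ℤ) = 0 := by
    exact_mod_cast e2
  have q3 : (φ 0 : ℚ) * (crs ψ φ 0 : ℤ) + φ 1 * (crs ψ φ 1 : ℤ) + φ 2 * (crs ψ φ 2 : ℤ) = 0 := by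
    exact_mod_cast e3
  have q4 : (φ 0 : ℚ) * (crs e ψ 0 : ℤ) + φ 1 * (crs e ψ 1 : ℤ) + φ 2 * (crs e ψ 2 : ℤ) =
      (crs ψ φ k : ℤ) := by
    exact_mod_cast e4
  obtain ⟨i, hi⟩ : ∃ i : ℚ, ((crs ψ φ k : ℤ) : ℚ) * i = 1 := ⟨_, mul_inv_cancel₀ hD⟩
  refine ⟨fun m => ((c0 : ℚ) * (crs φ e m : ℤ) + c1 * (crs e ψ m : ℤ)) * i,
    fun m => (M : ℚ) * (crs e ψ m : ℤ) * i, fun m => ((crs ψ φ m : ℤ) : ℚ) * i,
    ?_, ?_, ?_, ?_, ?_⟩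
  · show (ψ 0 : ℚ) * ((M : ℚ) * (crs e ψ 0 : ℤ) * i) + ψ 1 * ((M : ℚ) * (crs e ψ 1 : ℤ) * i) +
      ψ 2 * ((M : ℚ) * (crs e ψ 2 : ℤ) * i) = 0
    linear_combination (M : ℚ) * i * q1
  · show (ψ 0 : ℚ) * (((crs ψ φ 0 : ℤ) : ℚ) * i) + ψ 1 * (((crs ψ φ 1 : ℤ) : ℚ) * i) +
      ψ 2 * (((crs ψ φ 2 : ℤ) : ℚ) * i) = 0
    linear_combination i * q2
  · intro h0
    have h1 : ((crs ψ φ k : ℤ) : ℚ) * i = 0 := congrFun h0 k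
    rw [hi] at h1
    exact one_ne_zero h1
  · intro x h0
    have h1 : ∀ m, (M : ℚ) * (crs e ψ m : ℤ) * i + x * (((crs ψ φ m : ℤ) : ℚ) * i) = 0 :=
      fun m => congrFun h0 m
    apply hMq
    linear_combination (φ 0 : ℚ) * h1 0 + (φ 1 : ℚ) * h1 1 + (φ 2 : ℚ) * h1 2 -
      (M : ℚ) * i * q4 - x * i * q3 - (M : ℚ) * hi
  · intro P s h1 h2 m
    have h3 := cramer ψ φ e P m
    rw [hd, he, h1, h2] at h3
    have h4 : ((crs ψ φ k : ℤ) : ℚ) * P m = (c0 : ℚ) * (crs φ e m : ℤ) +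
        ((M : ℚ) * s + c1) * (crs e ψ m : ℤ) + (P k : ℚ) * (crs ψ φ m : ℤ) := by
      exact_mod_cast h3
    show (P m : ℚ) = ((c0 : ℚ) * (crs φ e m : ℤ) + c1 * (crs e ψ m : ℤ)) * i +
      (M : ℚ) * (crs e ψ m : ℤ) * i * s + ((crs ψ φ m : ℤ) : ℚ) * i * P k
    linear_combination i * h4 - (P m : ℚ) * hi

theorem nonspecial (n B κ Y T l : ℕ) (h : Par n B κ Y T) (W : Finset V)
    (hW : ∀ P ∈ W, P ∈ Sol n B) (hC : AChart (l : ℤ) W) (ψ : V) (hψ : NS ψ) (c0 : ℤ)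
    (hpl : ∀ P ∈ W, dot ψ P = c0) (φ : V) (hφ : crs ψ φ ≠ 0) (M c1 : ℤ) (hM0 : M ≠ 0)
    (hM : IsCoprime M (l : ℤ)) (s : V → ℤ) (hs : ∀ P ∈ W, dot φ P = M * s P + c1)
    (hYl : Y ≤ l ^ 3) (hsl : ∀ P ∈ W, |s P| * Y ≤ (l : ℤ) ^ 3) : W.card ≤ 36 * κ + 54 := by
  classical
  obtain ⟨k, hk⟩ : ∃ k, crs ψ φ k ≠ 0 := by
    by_contra hc
    apply hφ
    funext k
    by_contra h1
    exact hc ⟨k, h1⟩
  obtain ⟨p, a, b, ha, hb, hb0, hab, hP⟩ := nonsp_param ψ φ k hk c0 c1 M hM0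
  have htB : ∀ P ∈ W, |P k| ≤ (B : ℤ) := by
    intro P hPW
    have h1 := (hW P hPW).1 k
    rw [abs_of_pos h1.1]
    exact h1.2
  obtain ⟨A, hA0, hAd, hA⟩ := bp_rel κ 3 Y B l (Or.inr rfl) h.Y0 h.B1 h.BY hYl W hC s
    (fun P => P k) (polyMod_lin _ W φ M c1 hM s hs) (polyMod_coord _ W k) hsl htB
  have hinj : Function.Injective (Polynomial.map (Int.castRingHom ℚ)) :=
    Polynomial.map_injective _ (RingHom.injective_int _)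
  have hne : ∀ j, A j ≠ 0 → (A j).map (Int.castRingHom ℚ) ≠ 0 := by
    intro j hj h0
    apply hj
    apply hinj
    rw [h0, Polynomial.map_zero]
  have hdeg : ∀ j, ((A j).map (Int.castRingHom ℚ)).natDegree ≤ 2 * κ + 1 :=
    fun j => Polynomial.natDegree_map_le.trans (hAd j)
  have hev : ∀ j (x : ℤ), ((A j).map (Int.castRingHom ℚ)).eval (x : ℚ) =
      (((A j).eval x : ℤ) : ℚ) := by
    intro j x
    simp
  have hne3 : (A 0).map (Int.castRingHom ℚ) ≠ 0 ∨ (A 1).map (Int.castRingHom ℚ) ≠ 0 ∨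
      (A 2).map (Int.castRingHom ℚ) ≠ 0 := by
    obtain ⟨j, hj⟩ := hA0
    have hj' := hne j hj
    have hc : j = 0 ∨ j = 1 ∨ j = 2 := by
      revert j
      exact fun j _ _ => (by decide : ∀ j : Fin 3, j = 0 ∨ j = 1 ∨ j = 2) j
    rcases hc with rfl | rfl | rfl
    · exact Or.inl hj'
    · exact Or.inr (Or.inl hj')
    · exact Or.inr (Or.inr hj')
  have hcount := plane_count ψ hψ p a b ha hb hb0 hab (n : ℚ) (2 * κ + 1) _ _ _ hne3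
    (hdeg 0) (hdeg 1) (hdeg 2) (W.image (fun P => (((s P : ℤ) : ℚ), ((P k : ℤ) : ℚ))))
    (by
      intro z hz
      obtain ⟨P, hPW, rfl⟩ := Finset.mem_image.mp hz
      have h1 := hP P (s P) (hpl P hPW) (hs P hPW)
      have h2 : P 0 ^ 3 + P 1 ^ 3 + P 2 ^ 3 = (n : ℤ) := (hW P hPW).2.1
      have h3 : (P 0 : ℚ) ^ 3 + (P 1 : ℚ) ^ 3 + (P 2 : ℚ) ^ 3 = (n : ℚ) := by exact_mod_cast h2
      show (p 0 + a 0 * (s P : ℚ) + b 0 * (P k : ℚ)) ^ 3 +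
        (p 1 + a 1 * (s P : ℚ) + b 1 * (P k : ℚ)) ^ 3 +
        (p 2 + a 2 * (s P : ℚ) + b 2 * (P k : ℚ)) ^ 3 = n
      rw [← h1 0, ← h1 1, ← h1 2]
      exact h3)
    (by
      intro z hz
      obtain ⟨P, hPW, rfl⟩ := Finset.mem_image.mp hz
      have h1 := hA P hPW
      rw [Fin.sum_univ_three] at h1
      have h2 : (A 0).eval (s P) + (A 1).eval (s P) * P k + (A 2).eval (s P) * P k ^ 2 = 0 := by
        simpa using h1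
      show ((A 0).map (Int.castRingHom ℚ)).eval ((s P : ℤ) : ℚ) +
        ((A 1).map (Int.castRingHom ℚ)).eval ((s P : ℤ) : ℚ) * ((P k : ℤ) : ℚ) +
        ((A 2).map (Int.castRingHom ℚ)).eval ((s P : ℤ) : ℚ) * ((P k : ℤ) : ℚ) ^ 2 = 0
      rw [hev, hev, hev]
      exact_mod_cast h2)
  rw [Finset.card_image_of_injOn] at hcount
  · omega
  · intro P hPW Q hQW hPQ
    have h1 := hP P (s P) (hpl P hPW) (hs P hPW)
    have h2 := hP Q (s Q) (hpl Q hQW) (hs Q hQW)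
    have h3 : ((s P : ℤ) : ℚ) = ((s Q : ℤ) : ℚ) := congrArg Prod.fst hPQ
    have h4 : ((P k : ℤ) : ℚ) = ((Q k : ℤ) : ℚ) := congrArg Prod.snd hPQ
    funext m
    have h5 : ((P m : ℤ) : ℚ) = ((Q m : ℤ) : ℚ) := by rw [h1 m, h2 m, h3, h4]
    exact_mod_cast h5

end Pool.Agent.Lib.MP_9c5702_nt.Q4
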