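import Pool.Agent.Lib.MP_9c5702_nt.Q4.Clus
import Pool.Agent.Lib.MP_9c5702_nt.Q4.Iso

/-! Short functionals in a plane through the origin. -/

set_option autoImplicit false

namespace Pool.Agent.Lib.MP_9c5702_nt.Q4

lemma orig_num (s B m Ψ : ℤ) (hB : 0 < B) (hm : 0 < m) (h1 : s ^ 2 * m * Ψ ≤ 24 * B ^ 2)
    (hΨ : 0 < Ψ) (h2 : B ^ 3 ≤ 1944 * Ψ ^ 6 * m) (h3 : B ^ 3 ≤ 6 * m ^ 3) :
    |s| ^ 3 ≤ 4000 * B := by
  have h4 : B ≤ 2 * m := by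
    refine le_of_pow_le_pow_left₀ (n := 3) (by norm_num) (by positivity) ?_
    have : 0 < m ^ 3 := by positivity
    nlinarith
  have h5 : B ^ 5 ≤ (2 * m) ^ 5 := pow_le_pow_left₀ hB.le h4 5
  have h6 : (s ^ 2 * m * Ψ) ^ 6 ≤ (24 * B ^ 2) ^ 6 := pow_le_pow_left₀ (by positivity) h1 6
  have h7 : B ^ 5 * B ^ 3 ≤ (2 * m) ^ 5 * (1944 * Ψ ^ 6 * m) :=
    mul_le_mul h5 h2 (by positivity) (by positivity)
  have h8 : s ^ 12 * B ^ 8 ≤ (62208 * 24 ^ 6 * B ^ 4) * B ^ 8 := by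
    calc s ^ 12 * B ^ 8 = s ^ 12 * (B ^ 5 * B ^ 3) := by ring
      _ ≤ s ^ 12 * ((2 * m) ^ 5 * (1944 * Ψ ^ 6 * m)) :=
          mul_le_mul_of_nonneg_left h7 (by positivity)
      _ = 62208 * (s ^ 2 * m * Ψ) ^ 6 := by ring
      _ ≤ 62208 * (24 * B ^ 2) ^ 6 := mul_le_mul_of_nonneg_left h6 (by norm_num)
      _ = (62208 * 24 ^ 6 * B ^ 4) * B ^ 8 := by ring
  have h9 := le_of_mul_le_mul_right h8 (by positivity)
  refine le_of_pow_le_pow_left₀ (n := 4) (by norm_num) (by positivity) ?_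
  have h10 : (|s| ^ 3) ^ 4 = s ^ 12 := by
    rw [← pow_mul]
    exact Even.pow_abs (by decide) s
  have h11 : 0 < B ^ 4 := by positivity
  rw [h10]
  nlinarith

lemma orig_minor (a a' b b' B R : ℤ) (ha : 0 < a ∧ a ≤ B) (ha' : 0 < a' ∧ a' ≤ B) (hb : b ^ 2 ≤ R)
    (hb' : b' ^ 2 ≤ R) : (a * b - a' * b') ^ 2 ≤ 4 * B ^ 2 * R := by
  have h1 : a ^ 2 * b ^ 2 ≤ B ^ 2 * R :=
    mul_le_mul (pow_le_pow_left₀ ha.1.le ha.2 2) hb (by positivity) (by positivity)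
  have h2 : a' ^ 2 * b' ^ 2 ≤ B ^ 2 * R :=
    mul_le_mul (pow_le_pow_left₀ ha'.1.le ha'.2 2) hb' (by positivity) (by positivity)
  nlinarith [sq_nonneg (a * b + a' * b')]

lemma orig_crs (P v : V) (B R : ℤ) (hP : ∀ k, 0 < P k ∧ P k ≤ B) (hv : ∀ k, v k ^ 2 ≤ R)
    (k : Fin 3) : crs P v k ^ 2 ≤ 4 * B ^ 2 * R := by
  fin_cases k
  · exact orig_minor _ _ _ _ B R (hP 1) (hP 2) (hv 2) (hv 1)
  · exact orig_minor _ _ _ _ B R (hP 2) (hP 0) (hv 0) (hv 2)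
  · exact orig_minor _ _ _ _ B R (hP 0) (hP 1) (hv 1) (hv 0)

theorem origin_cover (n B : ℕ) (hB : B ^ 3 ≤ n) (hn : 1 ≤ n) (ψ w : V) (hw : dot w ψ = 1)
    (hψ : NS ψ) (W : Finset V) (hW : ∀ P ∈ W, P ∈ Sol n B) (hpl : ∀ P ∈ W, dot ψ P = 0) (K : ℕ)
    (hK : ∀ W' : Finset V, W' ⊆ W → ∀ (φ : V) (M : ℕ) (s : V → ℤ), crs ψ φ ≠ 0 → M ∣ n →
      (∀ P ∈ W', dot φ P = M * s P ∧ |s P| ^ 3 ≤ 4000 * (B : ℤ)) → W'.card ≤ K) :
    W.card ≤ n.divisors.card ^ 2 * K := by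
  obtain ⟨m, hm, hmn, h1, h2, hc⟩ := cluster ψ w hw (dd_ne ψ hψ) n hn
  refine hc W K (fun P hP => ⟨hpl P hP, (hW P hP).2⟩) fun W' hW' hp => ?_
  rcases W'.eq_empty_or_nonempty with rfl | ⟨P0, hP0⟩
  · simp
  obtain ⟨k, -, hk⟩ := Finset.exists_max_image Finset.univ (fun i => (ψ i).natAbs)
    Finset.univ_nonempty
  obtain ⟨Ψ, hΨ⟩ : ∃ Ψ : ℕ, Ψ = (ψ k).natAbs := ⟨_, rfl⟩
  have hle : ∀ i, |ψ i| ≤ (Ψ : ℤ) := fun i => by
    have := hk i (Finset.mem_univ i)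
    rw [← Int.natCast_natAbs, hΨ]
    exact_mod_cast this
  have hΨ1 : 1 ≤ Ψ := by
    by_contra h0
    have h3 : ∀ i, ψ i = 0 := fun i => by
      have := hle i
      have h4 : Ψ = 0 := by omega
      rw [h4] at this
      exact abs_nonpos_iff.1 this
    simp [dot, h3] at hw
  obtain ⟨v, hv0, hv, hvm, hvb⟩ := thue_short ψ w P0 Ψ m hΨ1 hm hle
  have hφ : crs ψ (crs v w) = v := by
    unfold dot at hw hv
    refine vec_ext ?_ ?_ ?_ <;> simp only [crs_0, crs_1, crs_2]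
    · linear_combination v 0 * hw - w 0 * hv
    · linear_combination v 1 * hw - w 1 * hv
    · linear_combination v 2 * hw - w 2 * hv
  refine hK W' hW' (crs v w) m (fun P => dl w P v / m) (hφ.symm ▸ hv0) hmn fun P hP => ?_
  have hd : (m : ℤ) ∣ dl w P v := dl_trans ψ w P v P0 hw (hpl P (hW' hP)) hv (hpl P0 (hW' hP0))
    (hW P0 (hW' hP0)).2.2 m (hp P hP P0 hP0) hvm
  obtain ⟨s, hs⟩ := hd
  have hm' : (0 : ℤ) < m := by exact_mod_cast hm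
  have hΨ' : (0 : ℤ) < Ψ := by exact_mod_cast hΨ1
  have hq : dl w P v / m = s := by rw [hs]; exact Int.mul_ediv_cancel_left s hm'.ne'
  have hb := (hW P (hW' hP)).1
  rw [hq]
  refine ⟨?_, orig_num s B m Ψ ((hb 0).1.trans_le (hb 0).2) hm' ?_ hΨ' ?_ ?_⟩
  · rw [← hs]
    simp only [dot, dl, crs_0, crs_1, crs_2]
    ring
  · have h3 := orig_crs P v B _ hb hvb k
    have h4 : ψ k ^ 2 = (Ψ : ℤ) ^ 2 := by rw [hΨ, Int.natCast_natAbs, sq_abs]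
    rw [crs_eq ψ w P v hw (hpl P (hW' hP)) hv k, hs, mul_pow, h4] at h3
    refine le_of_mul_le_mul_right (a := (m : ℤ) * Ψ) ?_ (by positivity)
    nlinarith
  · have h3 : (B : ℤ) ^ 3 ≤ n := by exact_mod_cast hB
    have h4 := mul_le_mul_of_nonneg_right (dd_le ψ Ψ hle) hm'.le
    nlinarith
  · exact_mod_cast hB.trans h1

end Pool.Agent.Lib.MP_9c5702_nt.Q4
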