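import Pool.Agent.Lib.MP_9c5702_nt.Q4.Defs

/-! A short functional on a plane that misses the origin. -/

set_option autoImplicit false

namespace Pool.Agent.Lib.MP_9c5702_nt.Q4

lemma short_rem {a a' p R : ℤ} {r r' : ℕ} (hp : p ≠ 0) (hr : (r : ℤ) < R) (hr' : (r' : ℤ) < R) :
    |p * ((a / p + r) - (a' / p + r')) - (a - a')| ≤ |p| * R := by
  have h1 := Int.emod_nonneg a hp
  have h2 := Int.emod_lt_abs a hp
  have h3 := Int.emod_nonneg a' hp
  have h4 := Int.emod_lt_abs a' hp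
  have e : p * ((a / p + r) - (a' / p + r')) - (a - a') = (a' % p - a % p) + p * (r - r') := by
    rw [Int.emod_def, Int.emod_def]; ring
  have h5 : |(r : ℤ) - r'| ≤ R - 1 := by rw [abs_le]; constructor <;> omega
  have h6 : |a' % p - a % p| ≤ |p| := by rw [abs_le]; constructor <;> linarith
  rw [e]
  refine (abs_add_le _ _).trans ?_
  rw [abs_mul]
  nlinarith [abs_nonneg p]

lemma short_box (q H R : ℕ) (hq : 1 ≤ q) (hc : q ^ 3 * q ^ 3 < H * (R * R)) (ψ g0 g1 g2 : V)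
    {i j k : Fin 3} (hij : i ≠ j) (hik : i ≠ k) (hjk : j ≠ k) (hk : ψ k ≠ 0) :
    ∃ φ : V, φ ≠ 0 ∧ |φ k| < H ∧ |ψ k * φ i - φ k * ψ i| ≤ |ψ k| * R ∧
      |ψ k * φ j - φ k * ψ j| ≤ |ψ k| * R ∧ (q : ℤ) ^ 3 ∣ dot φ g0 ∧ (q : ℤ) ^ 2 ∣ dot φ g1 ∧
      (q : ℤ) ∣ dot φ g2 := by
  have : NeZero q := ⟨by omega⟩
  let v : ℕ × ℕ × ℕ → V := fun t m =>
    t.1 * ψ m / ψ k + (if m = i then (t.2.1 : ℤ) else 0) + (if m = j then (t.2.2 : ℤ) else 0)
  have vk : ∀ t, v t k = t.1 := fun t => by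
    simp [v, hik.symm, hjk.symm, Int.mul_ediv_cancel _ hk]
  have vi : ∀ t, v t i = t.1 * ψ i / ψ k + t.2.1 := fun t => by simp [v, hij]
  have vj : ∀ t, v t j = t.1 * ψ j / ψ k + t.2.2 := fun t => by simp [v, hij.symm]
  obtain ⟨t, ht, t', ht', hne, he⟩ := Finset.exists_ne_map_eq_of_card_lt_of_maps_to
    (s := Finset.range H ×ˢ Finset.range R ×ˢ Finset.range R)
    (t := (Finset.univ : Finset (ZMod (q ^ 3) × ZMod (q ^ 2) × ZMod q)))
    (by
      simp only [Finset.card_univ, Fintype.card_prod, ZMod.card, Finset.card_product,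
        Finset.card_range]
      refine lt_of_le_of_lt (le_of_eq ?_) hc
      ring)
    (f := fun t => ((dot (v t) g0 : ℤ), (dot (v t) g1 : ℤ), (dot (v t) g2 : ℤ)))
    fun _ _ => Finset.mem_coe.2 (Finset.mem_univ _)
  simp only [Finset.mem_product, Finset.mem_range] at ht ht'
  simp only [Prod.mk.injEq, ZMod.intCast_eq_intCast_iff_dvd_sub] at he
  have hd : ∀ g, dot (v t' - v t) g = dot (v t') g - dot (v t) g := fun g => by
    simp only [dot, Pi.sub_apply]; ring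
  refine ⟨v t' - v t, fun h0 => hne ?_, ?_, ?_, ?_, ?_, ?_, ?_⟩
  · have e := (sub_eq_zero.1 h0).symm
    have e1 : t.1 = t'.1 := by
      have := congrFun e k
      rw [vk, vk] at this
      exact_mod_cast this
    have e2 := congrFun e i
    have e3 := congrFun e j
    rw [vi, vi, e1] at e2
    rw [vj, vj, e1] at e3
    exact Prod.ext e1 (Prod.ext (by exact_mod_cast add_left_cancel e2)
      (by exact_mod_cast add_left_cancel e3))
  · rw [Pi.sub_apply, vk, vk, abs_lt]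
    constructor <;> omega
  · rw [Pi.sub_apply, Pi.sub_apply, vk, vk, vi, vi, sub_mul]
    exact short_rem hk (by exact_mod_cast ht'.2.1) (by exact_mod_cast ht.2.1)
  · rw [Pi.sub_apply, Pi.sub_apply, vk, vk, vj, vj, sub_mul]
    exact short_rem hk (by exact_mod_cast ht'.2.2) (by exact_mod_cast ht.2.2)
  · rw [hd]; exact_mod_cast he.1
  · rw [hd]; exact_mod_cast he.2.1
  · rw [hd]; exact he.2.2

lemma short_crs {ψ φ : V} (h : crs ψ φ = 0) (k m : Fin 3) : ψ k * φ m = φ k * ψ m := by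
  have h0 := congrFun h 0
  have h1 := congrFun h 1
  have h2 := congrFun h 2
  simp only [crs_0, crs_1, crs_2, Pi.zero_apply] at h0 h1 h2
  fin_cases k <;> fin_cases m <;> simp only [Fin.zero_eta, Fin.mk_one, Fin.reduceFinMk] <;>
    linarith

theorem short (q B : ℕ) (hq : 1 ≤ q) (hB : 1 ≤ B) (W : Finset V) (hQ : Q3 (q : ℤ) W)
    (hW : ∀ P ∈ W, ∀ k, 0 < P k ∧ P k ≤ B) (ψ : V) (c0 : ℤ) (hc : c0 ≠ 0)
    (hpl : ∀ P ∈ W, dot ψ P = c0) (P0 : V) (hP0 : P0 ∈ W) :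
    ∃ φ : V, crs ψ φ ≠ 0 ∧ ∀ P ∈ W, (q : ℤ) ^ 3 ∣ dot φ P ∧
      (dot φ P - dot φ P0) ^ 2 ≤ 216 * (B : ℤ) ^ 3 * (q : ℤ) ^ 3 := by
  obtain ⟨k, -, hmax⟩ := Finset.exists_max_image Finset.univ (fun m => |ψ m|) Finset.univ_nonempty
  obtain ⟨i, j, hij, hik, hjk⟩ := other_two k
  have hi := hmax i (Finset.mem_univ _)
  have hj := hmax j (Finset.mem_univ _)
  have hB0 : (0 : ℤ) < B := by exact_mod_cast hB
  have hq0 : (0 : ℤ) < (q : ℤ) ^ 3 := by positivity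
  have hdiff : ∀ P ∈ W, ∀ m, |P m - P0 m| ≤ B := fun P hP m => by
    have h1 := hW P hP m
    have h2 := hW P0 hP0 m
    rw [abs_le]; constructor <;> linarith [h1.1, h1.2, h2.1, h2.2]
  have hc0 : |c0| ≤ 3 * |ψ k| * B := by
    have key : ∀ m, |ψ m * P0 m| ≤ |ψ k| * B := fun m => by
      rw [abs_mul, abs_of_pos (hW P0 hP0 m).1]
      exact mul_le_mul (hmax m (Finset.mem_univ _)) (hW P0 hP0 m).2 (hW P0 hP0 m).1.le
        (abs_nonneg _)
    rw [← hpl P0 hP0, dot]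
    linarith [abs_add_three (ψ 0 * P0 0) (ψ 1 * P0 1) (ψ 2 * P0 2), key 0, key 1, key 2]
  have hk : ψ k ≠ 0 := fun h => hc (by rw [h] at hc0; simpa using hc0)
  have hk0 : 0 < |ψ k| := abs_pos.2 hk
  rcases le_or_gt (q ^ 3) (6 * B) with hs | hs
  · have hs' : (q : ℤ) ^ 3 ≤ 6 * B := by exact_mod_cast hs
    have e : ∀ P : V, dot (Pi.single i ((q : ℤ) ^ 3)) P = (q : ℤ) ^ 3 * P i := fun P => by
      rw [dot_perm _ _ hij hik hjk]; simp [hij.symm, hik.symm]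
    refine ⟨Pi.single i ((q : ℤ) ^ 3), fun h => ?_, fun P hP => ⟨e P ▸ Dvd.intro _ rfl, ?_⟩⟩
    · have := short_crs h k i
      rw [Pi.single_eq_same, Pi.single_eq_of_ne hik.symm, zero_mul] at this
      exact mul_ne_zero hk hq0.ne' this
    · have h1 : (P i - P0 i) ^ 2 ≤ (B : ℤ) ^ 2 := sq_le_sq' (abs_le.1 (hdiff P hP i)).1
        (abs_le.1 (hdiff P hP i)).2
      rw [e, e, ← mul_sub, mul_pow]
      calc ((q : ℤ) ^ 3) ^ 2 * (P i - P0 i) ^ 2 ≤ ((q : ℤ) ^ 3 * (6 * B)) * (B : ℤ) ^ 2 :=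
            mul_le_mul (by rw [sq]; exact mul_le_mul_of_nonneg_left hs' hq0.le) h1 (sq_nonneg _)
              (by positivity)
        _ = 6 * ((B : ℤ) ^ 3 * (q : ℤ) ^ 3) := by ring
        _ ≤ 216 * ((B : ℤ) ^ 3 * (q : ℤ) ^ 3) :=
            mul_le_mul_of_nonneg_right (by norm_num) (by positivity)
        _ = _ := by ring
  obtain ⟨g0, g1, g2, hg⟩ := hQ
  set H : ℕ := q ^ 3 / (3 * B) with hH
  set S : ℕ := Nat.sqrt (6 * q ^ 3 * B) with hS
  have hH1 : 3 * B * H ≤ q ^ 3 := Nat.mul_div_le _ _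
  have hH2 : q ^ 3 < 3 * B * (H + 1) := Nat.lt_mul_div_succ _ (by omega)
  have hH3 : 1 ≤ H := (Nat.le_div_iff_mul_le (by omega)).2 (by omega)
  have hS1 : S * S ≤ 6 * q ^ 3 * B := Nat.sqrt_le _
  have hS2 : 6 * q ^ 3 * B < (S + 1) * (S + 1) := Nat.lt_succ_sqrt _
  have hS3 : 1 ≤ S := Nat.sqrt_pos.2 (by positivity)
  have hcard : q ^ 3 * q ^ 3 < H * ((S + 1) * (S + 1)) := by
    have h1 : q ^ 3 ≤ H * (6 * B) := by nlinarith
    calc q ^ 3 * q ^ 3 ≤ H * (6 * B) * q ^ 3 := Nat.mul_le_mul_right _ h1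
      _ = H * (6 * q ^ 3 * B) := by ring
      _ < _ := Nat.mul_lt_mul_of_pos_left hS2 hH3
  obtain ⟨φ, h0, h1, h2, h3, d0, d1, d2⟩ := short_box q H (S + 1) hq hcard ψ g0 g1 g2 hij hik hjk hk
  have hdv : ∀ P ∈ W, (q : ℤ) ^ 3 ∣ dot φ P := fun P hP => by
    obtain ⟨c, u, ⟨u', rfl⟩, hu⟩ := hg P hP
    obtain ⟨a0, e0⟩ := hu 0
    obtain ⟨a1, e1⟩ := hu 1
    obtain ⟨a2, e2⟩ := hu 2
    obtain ⟨b0, f0⟩ := d0
    obtain ⟨b1, f1⟩ := d1
    obtain ⟨b2, f2⟩ := d2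
    simp only [dot] at f0 f1 f2 ⊢
    exact ⟨φ 0 * a0 + φ 1 * a1 + φ 2 * a2 + c * (b0 + u' * b1 + u' ^ 2 * b2), by
      linear_combination φ 0 * e0 + φ 1 * e1 + φ 2 * e2 + c * f0 + c * (q * u') * f1 +
        c * (q * u') ^ 2 * f2⟩
  refine ⟨φ, fun h => h0 ?_, fun P hP => ⟨hdv P hP, ?_⟩⟩
  · have e := short_crs h k
    have e1 : ψ k * dot φ P0 = φ k * c0 := by
      rw [← hpl P0 hP0]
      simp only [dot]
      linear_combination P0 0 * e 0 + P0 1 * e 1 + P0 2 * e 2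
    have e2 := congrArg abs e1
    rw [abs_mul, abs_mul] at e2
    have hH1' : 3 * (B : ℤ) * H ≤ (q : ℤ) ^ 3 := by exact_mod_cast hH1
    have e3 : |dot φ P0| < (q : ℤ) ^ 3 := by
      refine lt_of_mul_lt_mul_left ?_ hk0.le
      calc |ψ k| * |dot φ P0| ≤ |φ k| * (3 * |ψ k| * B) :=
            e2 ▸ mul_le_mul_of_nonneg_left hc0 (abs_nonneg _)
        _ < H * (3 * |ψ k| * B) := mul_lt_mul_of_pos_right h1 (by positivity)
        _ = |ψ k| * (3 * B * H) := by ring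
        _ ≤ _ := mul_le_mul_of_nonneg_left hH1' hk0.le
    have e4 := Int.eq_zero_of_abs_lt_dvd (hdv P0 hP0) e3
    rw [e4, mul_zero] at e1
    have e5 : φ k = 0 := (mul_eq_zero.1 e1.symm).resolve_right hc
    funext m
    have := e m
    rw [e5, zero_mul] at this
    exact (mul_eq_zero.1 this).resolve_left hk
  · have e1 : ψ k * (dot φ P - dot φ P0) = (ψ k * φ i - φ k * ψ i) * (P i - P0 i) +
        (ψ k * φ j - φ k * ψ j) * (P j - P0 j) := by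
      have a1 := hpl P hP
      have a2 := hpl P0 hP0
      rw [dot_perm _ _ hij hik hjk] at a1 a2
      rw [dot_perm _ _ hij hik hjk, dot_perm _ _ hij hik hjk]
      linear_combination φ k * a1 - φ k * a2
    have b1 := mul_le_mul h2 (hdiff P hP i) (abs_nonneg _) (by positivity)
    have b2 := mul_le_mul h3 (hdiff P hP j) (abs_nonneg _) (by positivity)
    have b3 := abs_add_le ((ψ k * φ i - φ k * ψ i) * (P i - P0 i))
      ((ψ k * φ j - φ k * ψ j) * (P j - P0 j))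
    rw [← e1, abs_mul, abs_mul, abs_mul] at b3
    have b4 : |dot φ P - dot φ P0| ≤ 2 * ((S + 1 : ℕ) : ℤ) * B :=
      le_of_mul_le_mul_left (by linarith) hk0
    have b5 : ((S + 1 : ℕ) : ℤ) ^ 2 ≤ 24 * (q : ℤ) ^ 3 * B := by
      have : (S + 1) ^ 2 ≤ 24 * q ^ 3 * B := by nlinarith
      exact_mod_cast this
    calc (dot φ P - dot φ P0) ^ 2 ≤ (2 * ((S + 1 : ℕ) : ℤ) * B) ^ 2 :=
          sq_le_sq' (abs_le.1 b4).1 (abs_le.1 b4).2
      _ = 4 * (B : ℤ) ^ 2 * ((S + 1 : ℕ) : ℤ) ^ 2 := by ring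
      _ ≤ 4 * (B : ℤ) ^ 2 * (24 * (q : ℤ) ^ 3 * B) := mul_le_mul_of_nonneg_left b5 (by positivity)
      _ = 96 * ((B : ℤ) ^ 3 * (q : ℤ) ^ 3) := by ring
      _ ≤ 216 * ((B : ℤ) ^ 3 * (q : ℤ) ^ 3) :=
          mul_le_mul_of_nonneg_right (by norm_num) (by positivity)
      _ = _ := by ring

end Pool.Agent.Lib.MP_9c5702_nt.Q4
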