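import Pool.Agent.Lib.MP_9c5702_nt.Q4.Conic

/-! Planes that contain a line of the surface. -/

set_option autoImplicit false

namespace Pool.Agent.Lib.MP_9c5702_nt.Q4

lemma spcon_pow {N : ℤ} (hN : 4 ≤ N) {c : ℤ} (hc : c ≤ 64) (a b : ℕ) (h : a + 3 ≤ b) :
    c * N ^ a ≤ N ^ b := by
  have h1 : (64 : ℤ) ≤ N ^ 3 := by
    have := pow_le_pow_left₀ (by norm_num : (0 : ℤ) ≤ 4) hN 3
    linarith
  have h2 : 0 ≤ N ^ a := by positivity
  calc c * N ^ a ≤ N ^ 3 * N ^ a := mul_le_mul_of_nonneg_right (hc.trans h1) h2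
    _ = N ^ (a + 3) := by ring
    _ ≤ N ^ b := pow_le_pow_right₀ (by linarith) h

lemma spcon_four {α β : ℤ} (hα : α ≠ 0) : β ^ 3 - 4 * α ^ 3 ≠ 0 := by
  intro h
  have h1 : α ^ 3 ∣ β ^ 3 := ⟨4, by linarith⟩
  obtain ⟨r, rfl⟩ := (Int.pow_dvd_pow_iff (by norm_num)).1 h1
  have h2 : r ^ 3 = 4 := by
    apply mul_left_cancel₀ (pow_ne_zero 3 hα)
    linarith
  rcases le_or_gt r 1 with h3 | h3
  · have := (by decide : Odd 3).pow_le_pow.2 h3
    omega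
  · have := pow_le_pow_left₀ (by norm_num : (0 : ℤ) ≤ 2) (show 2 ≤ r from h3) 3
    omega

theorem sp_conic (n B T : ℕ) (hB : B ^ 3 ≤ n) (hn : 1 ≤ n) (hT : TB n T) (W : Finset V)
    (hW : ∀ P ∈ W, P ∈ Sol n B) (i j k : Fin 3) (hij : i ≠ j) (hik : i ≠ k) (hjk : j ≠ k)
    (α β c : ℤ) (hβ : β ≠ 0) (hα' : |α| ≤ (4 * (n : ℤ)) ^ 4) (hβ' : |β| ≤ (4 * (n : ℤ)) ^ 4)
    (hpl : ∀ P ∈ W, α * (P i + P j) + β * P k = c) (hR : β ^ 3 * n = c ^ 3) :
    W.card ≤ 10 * T ^ 3 := by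
  classical
  rcases W.eq_empty_or_nonempty with rfl | ⟨P0, hP0⟩
  · simp
  obtain ⟨m, rfl⟩ : β ∣ c := (Int.pow_dvd_pow_iff (by norm_num : 3 ≠ 0)).1 ⟨n, hR.symm⟩
  have hm : (n : ℤ) = m ^ 3 := by
    apply mul_left_cancel₀ (pow_ne_zero 3 hβ)
    rw [hR]; ring
  have hF : ∀ P ∈ W, P i ^ 3 + P j ^ 3 + P k ^ 3 = m ^ 3 := fun P hP => by
    rw [← F_perm P hij hik hjk, (hW P hP).2.1, hm]
  have hpos : ∀ P ∈ W, ∀ l, 0 < P l ∧ P l ≤ B := fun P hP => (hW P hP).1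
  have hn' : (1 : ℤ) ≤ n := by exact_mod_cast hn
  have hm0 : 0 < m := (by decide : Odd 3).pow_pos_iff.1 (by rw [← hm]; linarith)
  have hα : α ≠ 0 := by
    rintro rfl
    have h1 := hpl P0 hP0
    rw [zero_mul, zero_add] at h1
    have h2 := hF P0 hP0
    rw [mul_left_cancel₀ hβ h1] at h2
    have h3 := pow_pos (hpos P0 hP0 i).1 3
    have h4 := pow_pos (hpos P0 hP0 j).1 3
    linarith
  have hαβ : β ^ 3 - α ^ 3 ≠ 0 := by
    intro h0
    have h1 : β = α := (by decide : Odd 3).pow_injective (sub_eq_zero.1 h0)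
    subst h1
    have h2 : P0 i + P0 j + P0 k = m := by
      apply mul_left_cancel₀ hβ
      linarith [hpl P0 hP0]
    have h3 := hF P0 hP0
    rw [← h2] at h3
    have a1 := (hpos P0 hP0 i).1
    have a2 := (hpos P0 hP0 j).1
    have a3 := (hpos P0 hP0 k).1
    have h4 : 0 < 3 * ((P0 i + P0 j) * (P0 i + P0 k) * (P0 j + P0 k)) := by positivity
    linarith
  have hA := spcon_four (β := β) hα
  obtain ⟨N, hN⟩ : ∃ N : ℤ, N = 4 * n := ⟨_, rfl⟩
  rw [← hN] at hα' hβ'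
  have hN4 : 4 ≤ N := by linarith
  have hN0 : 0 ≤ N := by linarith
  have hBn : (B : ℤ) ≤ n := by exact_mod_cast le_trans (Nat.le_self_pow (by norm_num) B) hB
  have hmN : |m| ≤ N := by
    rw [abs_of_pos hm0]
    have : m ≤ m ^ 3 := le_self_pow₀ hm0 (by norm_num)
    linarith
  have p1 : ∀ {x : ℤ} {a : ℕ}, |x| ≤ N ^ a → ∀ e : ℕ, |x ^ e| ≤ N ^ (a * e) := fun h e => by
    rw [abs_pow, pow_mul]
    exact pow_le_pow_left₀ (abs_nonneg _) h e
  have p2 : ∀ {x y u v : ℤ}, |x| ≤ u → |y| ≤ v → |x * y| ≤ u * v := fun h1 h2 => by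
    rw [abs_mul]
    exact mul_le_mul h1 h2 (abs_nonneg _) ((abs_nonneg _).trans h1)
  have hA' : |β ^ 3 - 4 * α ^ 3| ≤ 5 * N ^ 12 := by
    have h1 := p1 hβ' 3
    have h2 := p2 (le_refl |(4 : ℤ)|) (p1 hα' 3)
    have h3 := abs_sub (β ^ 3) (4 * α ^ 3)
    norm_num at h1 h2 h3 ⊢
    linarith
  have hD' : |β ^ 3 - α ^ 3| ≤ 2 * N ^ 12 := by
    have h1 := p1 hβ' 3
    have h2 := p1 hα' 3
    have h3 := abs_sub (β ^ 3) (α ^ 3)
    norm_num at h1 h2 h3 ⊢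
    linarith
  have hH : (((4 * n) ^ 30 : ℕ) : ℤ) = N ^ 30 := by rw [hN]; push_cast; ring
  have hδ : |-3 * β ^ 3 * (β ^ 3 - 4 * α ^ 3)| ≤ (((4 * n) ^ 30 : ℕ) : ℤ) := by
    rw [hH]
    refine (p2 (p2 (le_refl |(-3 : ℤ)|) (p1 hβ' 3)) hA').trans ?_
    have := spcon_pow hN4 (c := 15) (by norm_num) 24 30 (by norm_num)
    norm_num
    linarith
  have hM : |12 * m ^ 2 * α * β ^ 2 * (β ^ 3 - α ^ 3)| ≤ N ^ 60 := by
    refine (p2 (p2 (p2 (p2 (le_refl |(12 : ℤ)|) (p1 (a := 1) (by rwa [pow_one]) 2)) hα')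
      (p1 hβ' 2)) hD').trans ?_
    have := spcon_pow hN4 (c := 24) (by norm_num) 26 60 (by norm_num)
    norm_num
    linarith
  have hM0 : 12 * m ^ 2 * α * β ^ 2 * (β ^ 3 - α ^ 3) ≠ 0 :=
    mul_ne_zero (mul_ne_zero (mul_ne_zero (mul_ne_zero (by norm_num) (pow_ne_zero 2 hm0.ne')) hα)
      (pow_ne_zero 2 hβ)) hαβ
  let f : V → ℤ × ℤ := fun P => ((β ^ 3 - 4 * α ^ 3) * (P i + P j) + 6 * m * α ^ 2 * β, P i - P j)
  have hinj : Set.InjOn f W := by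
    intro P hP Q hQ h
    have h1 : (β ^ 3 - 4 * α ^ 3) * (P i + P j) + 6 * m * α ^ 2 * β =
      (β ^ 3 - 4 * α ^ 3) * (Q i + Q j) + 6 * m * α ^ 2 * β := congrArg Prod.fst h
    have h2 : P i - P j = Q i - Q j := congrArg Prod.snd h
    have h3 : P i + P j = Q i + Q j := mul_left_cancel₀ hA (by linarith)
    have h4 := hpl P hP
    have h5 := hpl Q hQ
    rw [h3] at h4
    exact vec_ext_perm hij hik hjk (by omega) (by omega) (mul_left_cancel₀ hβ (by linarith))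
  have key := conic (-3 * β ^ 3 * (β ^ 3 - 4 * α ^ 3)) _
    (mul_ne_zero (mul_ne_zero (by norm_num) (pow_ne_zero 3 hβ)) hA) hM0 ((4 * n) ^ 30)
    (Nat.log 2 ((4 * n) ^ 30) + 1) hδ (Nat.lt_pow_succ_log_self (by norm_num) _) (W.image f) (by
      intro ξ hξ
      obtain ⟨P, hP, rfl⟩ := Finset.mem_image.1 hξ
      have a1 := hpos P hP i
      have a2 := hpos P hP j
      have h1 := hpl P hP
      have h2 := hF P hP
      have hs : P i + P j ≠ 0 := by omega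
      have h3 : (β ^ 3 - 4 * α ^ 3) * (P i + P j) ^ 2 + 12 * m * α ^ 2 * β * (P i + P j) -
          12 * m ^ 2 * α * β ^ 2 + 3 * β ^ 3 * (P i - P j) ^ 2 = 0 := by
        apply mul_left_cancel₀ hs
        have h4 : β * P k = β * m - α * (P i + P j) := by linarith
        have h5 : (β * P k) ^ 3 = (β * m - α * (P i + P j)) ^ 3 := by rw [h4]
        linear_combination 4 * β ^ 3 * h2 - 4 * h5
      refine ⟨by simp only [f]; linear_combination (β ^ 3 - 4 * α ^ 3) * h3, ?_, ?_⟩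
      · rw [hH]
        have h4 : |P i + P j| ≤ N := by rw [abs_le]; constructor <;> linarith [a1.1, a1.2, a2.1, a2.2]
        have h5 := p2 hA' h4
        have h6 := p2 (p2 (p2 (le_refl |(6 : ℤ)|) hmN) (p1 hα' 2)) hβ'
        have h7 := abs_add_le ((β ^ 3 - 4 * α ^ 3) * (P i + P j)) (6 * m * α ^ 2 * β)
        have h8 := spcon_pow hN4 (c := 11) (by norm_num) 13 30 (by norm_num)
        rw [abs_of_pos (by norm_num : (0 : ℤ) < 6), show 4 * 2 = 8 from rfl] at h6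
        simp only [f]
        linarith
      · rw [hH]
        have h4 : |P i - P j| ≤ N := by rw [abs_le]; constructor <;> linarith [a1.1, a1.2, a2.1, a2.2]
        exact h4.trans (le_self_pow₀ (by linarith) (by norm_num)))
  rw [Finset.card_image_of_injOn hinj] at key
  have t1 := hT _ (Int.natAbs_pos.2 hM0) (by
    have : ((12 * m ^ 2 * α * β ^ 2 * (β ^ 3 - α ^ 3)).natAbs : ℤ) ≤ (((4 * n) ^ 60 : ℕ) : ℤ) := by
      rw [Int.natCast_natAbs]
      refine hM.trans (le_of_eq ?_)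
      rw [hN]; push_cast; ring
    exact_mod_cast this)
  have t2 := hT (2 ^ (Nat.log 2 ((4 * n) ^ 30) + 1)) Nat.one_le_two_pow (by
    have h1 := Nat.pow_log_le_self 2 (x := (4 * n) ^ 30) (by positivity)
    have h2 : 2 ≤ (4 * n) ^ 30 := le_trans (by omega) (Nat.le_self_pow (by norm_num) (4 * n))
    calc 2 ^ (Nat.log 2 ((4 * n) ^ 30) + 1) ≤ (4 * n) ^ 30 * (4 * n) ^ 30 := by
          rw [pow_succ]; exact Nat.mul_le_mul h1 h2
      _ = (4 * n) ^ 60 := by ring)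
  rw [Nat.divisors_prime_pow Nat.prime_two, Finset.card_map, Finset.card_range] at t2
  calc W.card ≤ _ := key
    _ ≤ T ^ 2 * (10 * T) := Nat.mul_le_mul (Nat.pow_le_pow_left t1 2) (Nat.mul_le_mul_left 10 t2)
    _ = 10 * T ^ 3 := by ring

end Pool.Agent.Lib.MP_9c5702_nt.Q4
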