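import Pool.Agent.Lib.MP_9c5702_nt.Q4.Defs

/-! The lattice of a plane through the origin. -/

set_option autoImplicit false

namespace Pool.Agent.Lib.MP_9c5702_nt.Q4

theorem crs_eq (ψ w P Q : V) (hw : dot w ψ = 1) (hP : dot ψ P = 0) (hQ : dot ψ Q = 0) (k : Fin 3) :
    crs P Q k = dl w P Q * ψ k := by
  have key : crs P Q k * dot w ψ - dl w P Q * ψ k =
      crs w Q k * dot ψ P - crs w P k * dot ψ Q := by
    fin_cases k <;> simp [dl, dot] <;> ring
  rw [hw, hP, hQ] at key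
  linear_combination key

theorem basis_crs (ψ P0 e : V) (he : dot e P0 = 1) (hP : dot ψ P0 = 0) :
    crs P0 (crs ψ e) = ψ ∧ dot ψ (crs ψ e) = 0 := by
  constructor
  · funext k
    have key : crs P0 (crs ψ e) k = ψ k * dot e P0 - e k * dot ψ P0 := by
      fin_cases k <;> simp [dot] <;> ring
    rw [key, he, hP]
    ring
  · simp only [dot, crs_0, crs_1, crs_2]
    ring

theorem basis_L (ψ w P0 e P : V) (hw : dot w ψ = 1) (he : dot e P0 = 1) (hP0 : dot ψ P0 = 0)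
    (hP : dot ψ P = 0) (k : Fin 3) : P k = dot e P * P0 k + dl w P0 P * crs ψ e k := by
  have h0 := crs_eq ψ w P0 P hw hP0 hP 0
  have h1 := crs_eq ψ w P0 P hw hP0 hP 1
  have h2 := crs_eq ψ w P0 P hw hP0 hP 2
  have key : crs (crs P0 P) e k = P k * dot e P0 - dot e P * P0 k := by
    fin_cases k <;> simp [dot] <;> ring
  have key2 : crs (crs P0 P) e k = dl w P0 P * crs ψ e k := by
    generalize crs P0 P = c at h0 h1 h2
    fin_cases k <;> simp [h0, h1, h2] <;> ring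
  rw [he] at key
  linear_combination key2 - key

theorem dl_trans (ψ w P Q R : V) (hw : dot w ψ = 1) (hP : dot ψ P = 0) (hQ : dot ψ Q = 0)
    (hR : dot ψ R = 0) (hRp : Prim R) (m : ℤ) (h1 : m ∣ dl w P R) (h2 : m ∣ dl w Q R) :
    m ∣ dl w P Q := by
  obtain ⟨e, he⟩ := hRp
  have h0 := crs_eq ψ w P Q hw hP hQ 0
  have h3 := crs_eq ψ w P Q hw hP hQ 1
  have h4 := crs_eq ψ w P Q hw hP hQ 2
  have hdet : dl R P Q = 0 := by
    have : dl R P Q = dl w P Q * dot ψ R := by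
      rw [dl, dot, h0, h3, h4, dot]
      ring
    rw [this, hR, mul_zero]
  have key : dl w P Q * dot e R + dl w Q R * dot e P - dl w P R * dot e Q =
      dl R P Q * dot w e := by
    simp only [dl, dot, crs_0, crs_1, crs_2]
    ring
  rw [he, hdet] at key
  have : dl w P Q = dl w P R * dot e Q - dl w Q R * dot e P := by linear_combination key
  rw [this]
  exact dvd_sub (h1.mul_right _) (h2.mul_right _)

theorem Vec_content (a b c g : ℤ)
    (H : ∀ x y z : ℤ, a * x + b * y + c * z = 0 → g ∣ x ^ 3 + y ^ 3 + z ^ 3) :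
    g ∣ 6 * b ^ 2 * c ∧ g ∣ 6 * c ^ 2 * b ∧ g ∣ 6 * b ^ 4 := by
  have h1 := H (c + b) (-a) (-a) (by ring)
  have h2 := H (c - b) a (-a) (by ring)
  have h3 := H c 0 (-a) (by ring)
  have h4 := H b (-a) 0 (by ring)
  have h5 := H 0 c (-b) (by ring)
  have k1 : g ∣ 6 * b ^ 2 * c := by
    have := dvd_sub (dvd_add h1 h2) (h3.mul_left 2)
    exact this.trans (dvd_of_eq (by ring))
  have k2 : g ∣ 6 * c ^ 2 * b := by
    have := dvd_sub (dvd_sub h1 h2) (h4.mul_left 2)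
    exact this.trans (dvd_of_eq (by ring))
  refine ⟨k1, k2, ?_⟩
  have := dvd_sub (k2.mul_left c) (h5.mul_left (6 * b))
  exact this.trans (dvd_of_eq (by ring))

theorem content (ψ w : V) (hw : dot w ψ = 1) (g : ℤ) (h : ∀ v : V, dot ψ v = 0 → g ∣ F v) :
    g ∣ 6 := by
  have H : ∀ x y z : ℤ, ψ 0 * x + ψ 1 * y + ψ 2 * z = 0 → g ∣ x ^ 3 + y ^ 3 + z ^ 3 :=
    fun x y z hv => h ![x, y, z] hv
  unfold dot at hw
  generalize ψ 0 = a, ψ 1 = b, ψ 2 = c, w 0 = x, w 1 = y, w 2 = z at hw H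
  obtain ⟨h1, h2, h3⟩ := Vec_content a b c g H
  obtain ⟨h4, h5, h6⟩ := Vec_content b c a g fun x y z hv => by
    have := H z x y (by linear_combination hv)
    rwa [add_assoc, add_comm] at this
  obtain ⟨h7, h8, h9⟩ := Vec_content c a b g fun x y z hv => by
    have := H y z x (by linear_combination hv)
    rwa [add_comm, ← add_assoc] at this
  have key : (6 : ℤ) = 6 * (x * a + y * b + z * c) ^ 4 := by rw [hw]; norm_num
  have key2 : 6 * (x * a + y * b + z * c) ^ 4 =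
      6 * a ^ 4 * x ^ 4 + 6 * b ^ 4 * y ^ 4 + 6 * c ^ 4 * z ^ 4 +
      6 * a ^ 2 * b * (4 * x ^ 3 * y * a + 6 * x ^ 2 * y ^ 2 * b + 12 * x ^ 2 * y * z * c) +
      6 * a ^ 2 * c * (4 * x ^ 3 * z * a + 6 * x ^ 2 * z ^ 2 * c) +
      6 * b ^ 2 * a * (4 * y ^ 3 * x * b + 12 * y ^ 2 * x * z * c) +
      6 * b ^ 2 * c * (4 * y ^ 3 * z * b + 6 * y ^ 2 * z ^ 2 * c) +
      6 * c ^ 2 * a * (4 * z ^ 3 * x * c + 12 * z ^ 2 * x * y * b) +
      6 * c ^ 2 * b * (4 * z ^ 3 * y * c) := by ring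
  rw [key, key2]
  exact dvd_add (dvd_add (dvd_add (dvd_add (dvd_add (dvd_add (dvd_add (dvd_add
    (h9.mul_right _) (h3.mul_right _)) (h6.mul_right _)) (h7.mul_right _)) (h5.mul_right _))
    (h8.mul_right _)) (h1.mul_right _)) (h4.mul_right _)) (h2.mul_right _)

theorem thue_short (ψ w P0 : V) (Ψ m : ℕ) (hΨ : 1 ≤ Ψ) (hm : 1 ≤ m) (hψ : ∀ i, |ψ i| ≤ Ψ) :
    ∃ v : V, v ≠ 0 ∧ dot ψ v = 0 ∧ (m : ℤ) ∣ dl w v P0 ∧ ∀ k, v k ^ 2 ≤ 6 * (Ψ : ℤ) * m := by
  obtain ⟨R, hR⟩ : ∃ R : ℕ, R = Nat.sqrt (6 * Ψ * m) := ⟨_, rfl⟩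
  have h1 : R * R ≤ 6 * Ψ * m := hR ▸ Nat.sqrt_le _
  have h2 : 6 * Ψ * m < (R + 1) * (R + 1) := hR ▸ Nat.lt_succ_sqrt _
  have hm' : (0 : ℤ) < m := by exact_mod_cast hm
  obtain ⟨x, hx, y, hy, hne, hxy⟩ := Finset.exists_ne_map_eq_of_card_lt_of_maps_to
    (s := Fintype.piFinset fun _ : Fin 3 => Finset.Icc (0 : ℤ) R)
    (t := Finset.Icc (-(3 * Ψ * R : ℤ)) (3 * Ψ * R) ×ˢ Finset.Ico (0 : ℤ) m)
    (f := fun v => (dot ψ v, dl w v P0 % m))
    (by
      rw [Finset.card_product, Fintype.card_piFinset, Finset.prod_const, Int.card_Icc,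
        Int.card_Icc, Int.card_Ico, Finset.card_univ, Fintype.card_fin]
      have e1 : ((3 * Ψ * R : ℤ) + 1 - -(3 * Ψ * R)).toNat = 6 * Ψ * R + 1 := by
        have : ((3 * Ψ * R : ℤ) + 1 - -(3 * Ψ * R)) = ((6 * Ψ * R + 1 : ℕ) : ℤ) := by
          push_cast; ring
        rw [this, Int.toNat_natCast]
      have e2 : ((R : ℤ) + 1 - 0).toNat = R + 1 := by omega
      have e3 : ((m : ℤ) - 0).toNat = m := by omega
      rw [e1, e2, e3]
      have h3 : 6 * Ψ * m * (R + 1) < (R + 1) * (R + 1) * (R + 1) :=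
        Nat.mul_lt_mul_of_pos_right h2 (Nat.succ_pos R)
      have h4 : m ≤ 6 * Ψ * m := Nat.le_mul_of_pos_left m (by omega)
      calc (6 * Ψ * R + 1) * m = 6 * Ψ * m * R + m := by ring
        _ ≤ 6 * Ψ * m * R + 6 * Ψ * m := Nat.add_le_add_left h4 _
        _ = 6 * Ψ * m * (R + 1) := by ring
        _ < (R + 1) * (R + 1) * (R + 1) := h3
        _ = (R + 1) ^ 3 := by ring)
    (fun v hv => by
      have hv' : ∀ k, |ψ k * v k| ≤ Ψ * R := fun k => by
        have := Finset.mem_Icc.1 (Fintype.mem_piFinset.1 (Finset.mem_coe.1 hv) k)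
        rw [abs_mul, abs_of_nonneg this.1]
        exact mul_le_mul (hψ k) this.2 this.1 (Int.natCast_nonneg _)
      have a0 := abs_le.1 (hv' 0)
      have a1 := abs_le.1 (hv' 1)
      have a2 := abs_le.1 (hv' 2)
      simp only [Finset.coe_product, Set.mem_prod, Finset.mem_coe, Finset.mem_Icc, Finset.mem_Ico]
      refine ⟨⟨?_, ?_⟩, Int.emod_nonneg _ hm'.ne', Int.emod_lt_of_pos _ hm'⟩ <;>
        unfold dot <;> linarith [a0.1, a0.2, a1.1, a1.2, a2.1, a2.2])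
  obtain ⟨e1, e2⟩ := Prod.mk.inj hxy
  refine ⟨x - y, sub_ne_zero.2 hne, ?_, ?_, fun k => ?_⟩
  · simp only [dot, Pi.sub_apply] at e1 ⊢
    linear_combination e1
  · have : dl w (x - y) P0 = dl w x P0 - dl w y P0 := by
      simp only [dl, dot, crs_0, crs_1, crs_2, Pi.sub_apply]
      ring
    rw [this]
    exact Int.ModEq.dvd e2.symm
  · have a := Finset.mem_Icc.1 (Fintype.mem_piFinset.1 hx k)
    have b := Finset.mem_Icc.1 (Fintype.mem_piFinset.1 hy k)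
    have h3 : (R : ℤ) * R ≤ 6 * Ψ * m := by exact_mod_cast h1
    rw [Pi.sub_apply]
    nlinarith [a.1, a.2, b.1, b.2]

end Pool.Agent.Lib.MP_9c5702_nt.Q4
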