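import Pool.Agent.Lib.MP_9c5702_nt.Q4.Defs

/-! Two points of a class with the same sum of two coordinates. -/

set_option autoImplicit false

namespace Pool.Agent.Lib.MP_9c5702_nt.Q4

lemma wcong_core {p : ℤ} (hp : Prime p) (a : ℕ) {z z' Q Q' lam : ℤ}
    (h4 : p ^ (4 * a) ∣ z' ^ 3 * Q - z ^ 3 * Q') (hz : p ^ a ∣ z - lam * z')
    (hQ : p ^ a ∣ Q - lam ^ 2 * Q') (hQ' : ¬ p ∣ Q') (hl : ¬ p ∣ lam) : p ^ a ∣ z - z' := by
  by_cases h0 : p ^ a ∣ z'
  · have e : z - z' = (z - lam * z') + (lam - 1) * z' := by ring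
    rw [e]
    exact dvd_add hz (h0.mul_left _)
  have hz0 : z' ≠ 0 := by
    rintro rfl
    exact h0 (dvd_zero _)
  obtain ⟨j, w', hw', rfl⟩ := WfDvdMonoid.max_power_factor hz0 hp.irreducible
  have hja : j < a := by
    by_contra hh
    exact h0 ((pow_dvd_pow p (by omega)).mul_right _)
  obtain ⟨b, rfl⟩ : ∃ b, a = j + b := ⟨a - j, by omega⟩
  obtain ⟨u, hu⟩ := hz
  obtain ⟨v, hv⟩ := hQ
  have hz' : z = p ^ j * (lam * w' + p ^ b * u) := by
    rw [pow_add] at hu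
    linear_combination hu
  have hQ2 : Q = lam ^ 2 * Q' + p ^ b * (p ^ j * v) := by
    rw [pow_add] at hv
    linear_combination hv
  have h5 : p ^ (3 * j) * p ^ b ∣
      p ^ (3 * j) * (w' ^ 3 * Q - (lam * w' + p ^ b * u) ^ 3 * Q') := by
    have e : p ^ (3 * j) * (w' ^ 3 * Q - (lam * w' + p ^ b * u) ^ 3 * Q') =
        (p ^ j * w') ^ 3 * Q - z ^ 3 * Q' := by
      rw [hz']
      ring
    rw [e, ← pow_add]
    exact (pow_dvd_pow p (by omega)).trans h4
  have h6 : p ^ b ∣ w' ^ 3 * Q - (lam * w' + p ^ b * u) ^ 3 * Q' :=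
    (mul_dvd_mul_iff_left (pow_ne_zero _ hp.ne_zero)).1 h5
  have h7 : p ^ b ∣ (w' ^ 3 * lam ^ 2 * Q') * (1 - lam) := by
    have e : (w' ^ 3 * lam ^ 2 * Q') * (1 - lam) =
        (w' ^ 3 * Q - (lam * w' + p ^ b * u) ^ 3 * Q') +
          p ^ b * ((3 * (lam * w') ^ 2 * u + 3 * (lam * w') * p ^ b * u ^ 2 +
            (p ^ b) ^ 2 * u ^ 3) * Q' - w' ^ 3 * (p ^ j * v)) := by
      rw [hQ2]
      ring
    rw [e]
    exact dvd_add h6 (dvd_mul_right _ _)
  have hnd : ¬ p ∣ w' ^ 3 * lam ^ 2 * Q' := by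
    intro h
    rcases hp.dvd_or_dvd h with h | h
    · rcases hp.dvd_or_dvd h with h | h
      · exact hw' (hp.dvd_of_dvd_pow h)
      · exact hl (hp.dvd_of_dvd_pow h)
    · exact hQ' h
  obtain ⟨s, hs⟩ := hp.pow_dvd_of_dvd_mul_left b hnd h7
  refine ⟨u - s * w', ?_⟩
  have hlam : lam = 1 - p ^ b * s := by linear_combination -hs
  rw [hz', hlam, pow_add]
  ring

lemma wcong_prime {p : ℤ} (hp : Prime p) (hp0 : 0 < p) (a : ℕ) (ha : 1 ≤ a)
    {x y z x' y' z' n lam : ℤ}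
    (hn : p ^ (4 * a) ∣ n) (h1 : x ^ 3 + y ^ 3 + z ^ 3 = n) (h2 : x' ^ 3 + y' ^ 3 + z' ^ 3 = n)
    (hs : x + y = x' + y') (hx : 3 * p ^ a ∣ x - lam * x') (hy : 3 * p ^ a ∣ y - lam * y')
    (hz : 3 * p ^ a ∣ z - lam * z') (hP : ¬ (p ∣ x ∧ p ∣ y ∧ p ∣ z))
    (hP' : ¬ (p ∣ x' ∧ p ∣ y' ∧ p ∣ z')) : p ^ a ∣ z - z' := by
  have hd3 : p ^ a ∣ 3 * p ^ a := dvd_mul_left _ _
  have hpa : p ∣ p ^ a := dvd_pow_self p (by omega)
  by_cases hc : p ∣ x' + y'
  swap
  · have h3 : p ^ a ∣ (x' + y') * (1 - lam) := by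
      have e : (x' + y') * (1 - lam) = (x - lam * x') + (y - lam * y') := by
        linear_combination -hs
      rw [e]
      exact dvd_add (hd3.trans hx) (hd3.trans hy)
    have h4 := hp.pow_dvd_of_dvd_mul_left a hc h3
    have e : z - z' = (z - lam * z') - (1 - lam) * z' := by ring
    rw [e]
    exact dvd_sub (hd3.trans hz) (h4.mul_right _)
  have hpn : p ∣ n := (dvd_pow_self p (by omega)).trans hn
  have aux : ∀ x y z : ℤ, x ^ 3 + y ^ 3 + z ^ 3 = n → p ∣ x + y → ¬ (p ∣ x ∧ p ∣ y ∧ p ∣ z) →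
      ¬ p ∣ x * y := by
    intro x y z h hc hP hxy
    have hz : p ∣ z := by
      apply hp.dvd_of_dvd_pow (n := 3)
      have e : z ^ 3 = n - (x + y) * (x ^ 2 - x * y + y ^ 2) := by linear_combination h
      rw [e]
      exact dvd_sub hpn (hc.mul_right _)
    rcases hp.dvd_or_dvd hxy with h | h
    · exact hP ⟨h, by simpa using dvd_sub hc h, hz⟩
    · exact hP ⟨by simpa using dvd_sub hc h, h, hz⟩
  have hc1 : p ∣ x + y := hs ▸ hc
  have hxy := aux x y z h1 hc1 hP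
  have hxy' := aux x' y' z' h2 hc hP'
  have hl : ¬ p ∣ lam := by
    intro h
    apply hxy
    have : p ∣ x := by
      have e : x = (x - lam * x') + lam * x' := by ring
      rw [e]
      exact dvd_add (hpa.trans (hd3.trans hx)) (h.mul_right _)
    exact this.mul_right _
  have hid : z' ^ 3 * (x ^ 2 - x * y + y ^ 2) - z ^ 3 * (x' ^ 2 - x' * y' + y' ^ 2) =
      n * ((x ^ 2 - x * y + y ^ 2) - (x' ^ 2 - x' * y' + y' ^ 2)) := by
    linear_combination (x ^ 2 - x * y + y ^ 2) * h2 - (x' ^ 2 - x' * y' + y' ^ 2) * h1 +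
      (x ^ 2 - x * y + y ^ 2) * (x' ^ 2 - x' * y' + y' ^ 2) * hs
  have hQ : 3 * p ^ a ∣ (x ^ 2 - x * y + y ^ 2) - lam ^ 2 * (x' ^ 2 - x' * y' + y' ^ 2) := by
    have e : (x ^ 2 - x * y + y ^ 2) - lam ^ 2 * (x' ^ 2 - x' * y' + y' ^ 2) =
        (x - lam * x') * (x + lam * x' - y) + (y - lam * y') * (y + lam * y' - lam * x') := by
      ring
    rw [e]
    exact dvd_add (hx.mul_right _) (hy.mul_right _)
  by_cases h3 : p = 3
  · subst h3
    obtain ⟨c, hc'⟩ := hc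
    have e1 : x ^ 2 - x * y + y ^ 2 = 3 * (3 * c ^ 2 - x * y) := by
      have : x + y = 3 * c := hs.trans hc'
      linear_combination (x + y + 3 * c) * this
    have e2 : x' ^ 2 - x' * y' + y' ^ 2 = 3 * (3 * c ^ 2 - x' * y') := by
      linear_combination (x' + y' + 3 * c) * hc'
    rw [e1, e2] at hid hQ
    refine wcong_core hp a (Q := 3 * c ^ 2 - x * y) (Q' := 3 * c ^ 2 - x' * y') (lam := lam) ?_
      (hd3.trans hz) ?_ ?_ hl
    · have e : z' ^ 3 * (3 * c ^ 2 - x * y) - z ^ 3 * (3 * c ^ 2 - x' * y') =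
          n * ((3 * c ^ 2 - x * y) - (3 * c ^ 2 - x' * y')) := by
        apply mul_left_cancel₀ (show (3 : ℤ) ≠ 0 by norm_num)
        linear_combination hid
      rw [e]
      exact hn.mul_right _
    · apply (mul_dvd_mul_iff_left (show (3 : ℤ) ≠ 0 by norm_num)).1
      have e : 3 * (3 * c ^ 2 - x * y - lam ^ 2 * (3 * c ^ 2 - x' * y')) =
          3 * (3 * c ^ 2 - x * y) - lam ^ 2 * (3 * (3 * c ^ 2 - x' * y')) := by ring
      rw [e]
      exact hQ
    · intro h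
      apply hxy'
      have := dvd_sub (dvd_mul_right 3 (c ^ 2)) h
      simpa using this
  · refine wcong_core hp a (Q := x ^ 2 - x * y + y ^ 2) (Q' := x' ^ 2 - x' * y' + y' ^ 2)
      (lam := lam) ?_ (hd3.trans hz) (hd3.trans hQ) ?_ hl
    · rw [hid]
      exact hn.mul_right _
    · intro h
      have h4 : p ∣ 3 * (x' * y') := by
        have e : 3 * (x' * y') = (x' + y') * (x' + y') - (x' ^ 2 - x' * y' + y' ^ 2) := by ring
        rw [e]
        exact dvd_sub (hc.mul_right _) h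
      rcases hp.dvd_or_dvd h4 with h5 | h5
      · have h6 := Int.le_of_dvd (by norm_num) h5
        have h7 := hp.ne_one
        have : p = 2 := by omega
        subst this
        norm_num at h5
      · exact hxy' h5

theorem weier_cong (n q B : ℕ) (hq : 1 ≤ q) (hn : q ^ 4 ∣ n) (P P' : V) (hP : P ∈ Sol n B)
    (hP' : P' ∈ Sol n B) (hc : Crs (3 * (q : ℤ)) P P') (i j k : Fin 3) (hij : i ≠ j)
    (hik : i ≠ k) (hjk : j ≠ k) (hs : P i + P j = P' i + P' j) : (q : ℤ) ∣ P k - P' k := by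
  rw [Int.natCast_dvd, Nat.dvd_iff_prime_pow_dvd_dvd]
  intro p a hp hpa
  rcases Nat.eq_zero_or_pos a with rfl | ha
  · simp
  rw [← Int.natCast_dvd]
  push_cast
  obtain ⟨-, hF, e, he⟩ := hP
  obtain ⟨-, hF', e', he'⟩ := hP'
  have hpz : Prime (p : ℤ) := Nat.prime_iff_prime_int.1 hp
  have hq' : (p : ℤ) ^ a ∣ q := by exact_mod_cast hpa
  have h3 : 3 * (p : ℤ) ^ a ∣ 3 * (q : ℤ) := mul_dvd_mul_left _ hq'
  have prim : ∀ (R f : V), dot f R = 1 → ¬ ((p : ℤ) ∣ R i ∧ (p : ℤ) ∣ R j ∧ (p : ℤ) ∣ R k) := by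
    rintro R f hf ⟨h1, h2, h3⟩
    rw [dot_perm f R hij hik hjk] at hf
    apply hpz.not_dvd_one
    rw [← hf]
    exact dvd_add (dvd_add (h1.mul_left _) (h2.mul_left _)) (h3.mul_left _)
  refine wcong_prime hpz (by exact_mod_cast hp.pos) a ha (n := n) (lam := dot e' P) ?_
    ((F_perm P hij hik hjk).symm.trans hF) ((F_perm P' hij hik hjk).symm.trans hF') hs
    (h3.trans (crs_base hc he' i)) (h3.trans (crs_base hc he' j)) (h3.trans (crs_base hc he' k))
    (prim P e he) (prim P' e' he')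
  have h4 : (q : ℤ) ^ 4 ∣ n := by exact_mod_cast hn
  rw [mul_comm, pow_mul]
  exact (pow_dvd_pow_of_dvd hq' 4).trans h4

end Pool.Agent.Lib.MP_9c5702_nt.Q4
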